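import Mathlib

/-!
# Spaces of rational curves on hypersurfaces: the basic objects

A map of degree `e` from the projective line to projective `n`-space is given by `n + 1`
polynomials `F_0, ..., F_n` of degree at most `e` in one variable `T` (without a common zero on
the projective line), up to a common scalar.  Its image lies on the hypersurface `f = 0` if and
only if `f(F_0, ..., F_n) = 0` in `k[T]`.
-/

namespace Pool.Agent.Helper30.RC

open MvPolynomial

/-- The ring `k[a_{i,l}]`, `0 ≤ i ≤ n`, `0 ≤ l ≤ e`, of polynomial functions on the space of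
`(n+1)`-tuples of polynomials of degree at most `e`. -/
abbrev CoeffRing (k : Type*) [Field k] (n e : ℕ) : Type _ :=
  MvPolynomial (Fin (n + 1) × Fin (e + 1)) k

/-- The universal tuple `F_i = a_{i,0} + a_{i,1} T + ... + a_{i,e} T^e`. -/
noncomputable def tup (k : Type*) [Field k] (n e : ℕ) (i : Fin (n + 1)) :
    Polynomial (CoeffRing k n e) :=
  ∑ l : Fin (e + 1), Polynomial.C (X (i, l)) * Polynomial.X ^ (l : ℕ)

/-- `f(F_0, ..., F_n)`, a polynomial in `T` with coefficients in `k[a_{i,l}]`. -/
noncomputable def pull {k : Type*} [Field k] {n : ℕ} (e : ℕ) (f : MvPolynomial (Fin (n + 1)) k) :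
    Polynomial (CoeffRing k n e) :=
  aeval (tup k n e) f

/-- The ideal of the space of `(n+1)`-tuples `F` of polynomials of degree at most `e` with
`f(F) = 0`: it is generated by all coefficients (with respect to `T`) of `f(F_0, ..., F_n)`. -/
noncomputable def curveIdeal {k : Type*} [Field k] {n : ℕ} (e : ℕ)
    (f : MvPolynomial (Fin (n + 1)) k) : Ideal (CoeffRing k n e) :=
  Ideal.span (Set.range fun j : ℕ => (pull e f).coeff j)

/-- A property holds for the general form of degree `d` in `n + 1` variables: there is a
polynomial `D` in the coefficients of forms, not vanishing at all forms of degree `d`, such that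
every form of degree `d` where `D` does not vanish has the property. -/
def ForGeneral {k : Type*} [Field k] (n d : ℕ) (P : MvPolynomial (Fin (n + 1)) k → Prop) : Prop :=
  ∃ D : MvPolynomial (Fin (n + 1) →₀ ℕ) k,
    (∃ f : MvPolynomial (Fin (n + 1)) k, f.IsHomogeneous d ∧
      eval (fun m => coeff m f) D ≠ 0) ∧
    ∀ f : MvPolynomial (Fin (n + 1)) k, f.IsHomogeneous d →
      eval (fun m => coeff m f) D ≠ 0 → P f

end Pool.Agent.Helper30.RC
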