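import Mathlib
import Pool.Agent.Helper17.Irr.Dim

/-!
# Dimension facts for polynomial rings over a field
-/

namespace Pool.Agent.Helper30.RC

open MvPolynomial

variable {k : Type*} [Field k] {τ : Type*}

theorem height_max [Finite τ] (M : Ideal (MvPolynomial τ k)) (hM : M.IsMaximal) :
    M.height = Nat.card τ := by
  let e := (renameEquiv k (Finite.equivFin τ)).toRingEquiv
  have h1 : (M.map e).height = M.height := e.height_map M
  have : (M.map e).IsMaximal := Ideal.map_isMaximal_of_equiv e
  rw [← h1]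
  exact Pool.Agent.Helper17.Irr.height_of_isMaximal k _ _ this

theorem dim_le_of_integral {A B : Type*} [CommRing A] [CommRing B] (φ : A →+* B)
    (h : φ.IsIntegral) : ringKrullDim B ≤ ringKrullDim A := by
  let _ : Algebra A B := φ.toAlgebra
  have _ : Algebra.IsIntegral A B := ⟨h⟩
  apply Order.krullDim_le_of_strictMono
    (fun p : PrimeSpectrum B => PrimeSpectrum.comap (algebraMap A B) p)
  intro p q hpq
  have := Ideal.IsIntegral.comap_lt_comap (R := A) (A := B)
    (I := p.asIdeal) (J := q.asIdeal) hpq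
  exact this

theorem dim_mvPoly (k : Type*) [Field k] (ρ : Type*) [Finite ρ] :
    ringKrullDim (MvPolynomial ρ k) = Nat.card ρ := by
  rw [MvPolynomial.ringKrullDim_of_isNoetherianRing, ringKrullDim_eq_zero_of_field, zero_add]

theorem encard_range_le {ι α : Type*} [Fintype ι] (f : ι → α) :
    (Set.range f).encard ≤ Fintype.card ι := by
  rw [← Set.image_univ]
  refine (Set.encard_image_le _ _).trans ?_
  rw [Set.encard_univ]
  simp

theorem dim_le_of_comap {R S : Type*} [CommRing R] [CommRing S] (f : R →+* S) (P : Ideal R)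
    (hinj : Function.Injective (PrimeSpectrum.comap f))
    (h : ∀ q : PrimeSpectrum S, P ≤ (PrimeSpectrum.comap f q).asIdeal) :
    ringKrullDim S ≤ ringKrullDim (R ⧸ P) := by
  rw [ringKrullDim_quotient P]
  let F : PrimeSpectrum S → PrimeSpectrum.zeroLocus (P : Set R) :=
    fun q => ⟨PrimeSpectrum.comap f q, h q⟩
  have hmono : Monotone F := by
    intro q1 q2 h
    exact (Ideal.comap_mono h : Ideal.comap f q1.asIdeal ≤ Ideal.comap f q2.asIdeal)
  have hF : StrictMono F := by
    apply hmono.strictMono_of_injective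
    intro q1 q2 h
    exact hinj (congrArg Subtype.val h)
  exact Order.krullDim_le_of_strictMono F hF

theorem le_dim_local {R RM : Type*} [CommRing R] [IsNoetherianRing R] [CommRing RM] [Algebra R RM]
    {ι : Type*} [Fintype ι] (c : ι → R) (P : Ideal R)
    (M : Ideal R) [M.IsPrime] [IsLocalization.AtPrime RM M] (hcM : ∀ i, c i ∈ M) (s : R)
    (hsM : s ∉ M) (hs : ∀ Q ∈ (Ideal.span (Set.range c)).minimalPrimes, Q ≠ P → s ∈ Q) :
    ringKrullDim RM ≤ ringKrullDim (R ⧸ P) + Fintype.card ι := by
  have _ : IsLocalRing RM := IsLocalization.AtPrime.isLocalRing RM M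
  have _ : IsNoetherianRing RM := IsLocalization.isNoetherianRing M.primeCompl RM ‹_›
  let g : R →+* RM := algebraMap _ _
  let J : Ideal RM := Ideal.span (Set.range (g ∘ c))
  have hsub : Set.range (g ∘ c) ⊆ Ring.jacobson RM := by
    rw [IsLocalRing.ringJacobson_eq_maximalIdeal]
    rintro _ ⟨i, rfl⟩
    exact (IsLocalization.AtPrime.to_map_mem_maximal_iff RM M (c i)).mpr (hcM i)
  have h1 := ringKrullDim_le_ringKrullDim_quotient_add_encard (Set.range (g ∘ c)) hsub
  have h3 : (Set.range (g ∘ c)).encard ≤ Fintype.card ι := encard_range_le _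
  have h4 : ringKrullDim (RM ⧸ J) ≤ ringKrullDim (R ⧸ P) := by
    let f : R →+* RM ⧸ J := (Ideal.Quotient.mk J).comp g
    apply dim_le_of_comap f P
    · intro q1 q2 h5
      have h6 : PrimeSpectrum.comap g (PrimeSpectrum.comap (Ideal.Quotient.mk J) q1) =
          PrimeSpectrum.comap g (PrimeSpectrum.comap (Ideal.Quotient.mk J) q2) := h5
      have h7 := PrimeSpectrum.localization_comap_injective RM M.primeCompl h6
      exact PrimeSpectrum.comap_injective_of_surjective _ Ideal.Quotient.mk_surjective h7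
    · intro q
      set q' := (PrimeSpectrum.comap f q).asIdeal with hq'
      have hq'p : q'.IsPrime := (PrimeSpectrum.comap f q).2
      have hIq : Ideal.span (Set.range c) ≤ q' := by
        rw [Ideal.span_le]
        rintro _ ⟨i, rfl⟩
        change f (c i) ∈ q.asIdeal
        have : f (c i) = 0 := Ideal.Quotient.eq_zero_iff_mem.mpr (Ideal.subset_span ⟨i, rfl⟩)
        rw [this]
        exact Ideal.zero_mem _
      have hsq : s ∉ q' := by
        intro hs'
        have h5 : f s ∈ q.asIdeal := hs'
        have h6 : IsUnit (g s) := IsLocalization.map_units RM (⟨s, hsM⟩ : M.primeCompl)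
        have h7 : IsUnit (f s) := h6.map (Ideal.Quotient.mk J)
        exact q.2.ne_top (Ideal.eq_top_of_isUnit_mem _ h5 h7)
      obtain ⟨Q, hQ, hle⟩ := Ideal.exists_minimalPrimes_le hIq
      have : Q = P := by
        by_contra hne
        exact hsq (hle (hs Q hQ hne))
      rw [← this]
      exact hle
  have h3' : (((Set.range (g ∘ c)).encard : ℕ∞) : WithBot ℕ∞) ≤
      ((Fintype.card ι : ℕ∞) : WithBot ℕ∞) := WithBot.coe_le_coe.mpr h3
  exact le_trans h1 (add_le_add h4 h3')

/-- Every component of the zero set of `q` equations in `N` unknowns has dimension `≥ N - q`. -/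
theorem le_dim_of_minimalPrimes {ι : Type*} [Fintype ι] [Finite τ] (c : ι → MvPolynomial τ k)
    (P : Ideal (MvPolynomial τ k)) (hP : P ∈ (Ideal.span (Set.range c)).minimalPrimes) :
    (Nat.card τ : WithBot ℕ∞) ≤ ringKrullDim (MvPolynomial τ k ⧸ P) + Fintype.card ι := by
  classical
  set I := Ideal.span (Set.range c) with hI
  have hPp : P.IsPrime := hP.1.1
  have hfin := Ideal.finite_minimalPrimes_of_isNoetherianRing (MvPolynomial τ k) I
  -- an element in all other minimal primes
  obtain ⟨s, hsP, hs⟩ : ∃ s, s ∉ P ∧ ∀ Q ∈ I.minimalPrimes, Q ≠ P → s ∈ Q := by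
    by_contra hcon
    push Not at hcon
    have h1 : (hfin.toFinset.erase P).inf id ≤ P := by
      intro s hs
      by_contra hsP
      obtain ⟨Q, hQ, hne, hsQ⟩ := hcon s hsP
      apply hsQ
      have : Q ∈ hfin.toFinset.erase P := by simp [hne, hQ]
      exact (Finset.inf_le (f := id) this) hs
    obtain ⟨Q, hQ, hle⟩ := (Ideal.IsPrime.inf_le' hPp).mp h1
    have h2 : Q ≠ P ∧ Q ∈ I.minimalPrimes := by simpa using hQ
    exact h2.1 (le_antisymm hle (hP.2 h2.2.1 hle))
  -- a closed point on `V(P)` off the other components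
  obtain ⟨M, hM, hPM, hsM⟩ : ∃ M : Ideal (MvPolynomial τ k), M.IsMaximal ∧ P ≤ M ∧ s ∉ M := by
    have h1 : P.jacobson = P := IsJacobsonRing.out inferInstance hPp.isRadical
    have h2 : s ∉ P.jacobson := by rwa [h1]
    rw [Ideal.jacobson, Submodule.mem_sInf] at h2
    push Not at h2
    obtain ⟨M, ⟨hle, hM⟩, hs⟩ := h2
    exact ⟨M, hM, hle, hs⟩
  have hMp : M.IsPrime := hM.isPrime
  have h1 := le_dim_local (RM := Localization.AtPrime M) c P M
    (fun i => hPM (hP.1.2 (Ideal.subset_span ⟨i, rfl⟩))) s hsM hs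
  rw [IsLocalization.AtPrime.ringKrullDim_eq_height M (Localization.AtPrime M),
    height_max M hM] at h1
  exact h1

end Pool.Agent.Helper30.RC
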