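import Mathlib

/-!
# Graded facts on polynomial rings
-/

namespace Pool.Agent.Helper30.RC

open MvPolynomial

attribute [local instance] MvPolynomial.gradedAlgebra

variable {k : Type*} [Field k] {τ : Type*}

theorem decompose_eq (p : MvPolynomial τ k) (i : ℕ) :
    ((DirectSum.decompose (homogeneousSubmodule τ k) p) i : MvPolynomial τ k) =
      homogeneousComponent i p :=
  decomposition.decompose'_apply p i

/-- the homogeneous component of a product with a homogeneous factor -/
theorem hc_mul {g : MvPolynomial τ k} {s : ℕ} (hg : g.IsHomogeneous s) (v : MvPolynomial τ k)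
    {D : ℕ} (hD : s ≤ D) :
    homogeneousComponent D (v * g) = homogeneousComponent (D - s) v * g := by
  have h := DirectSum.coe_decompose_mul_of_right_mem_of_le (𝒜 := homogeneousSubmodule τ k)
    (n := D) (i := s) (a := v) (b := g) hg hD
  rwa [decompose_eq, decompose_eq] at h

theorem hc_mul_zero {g : MvPolynomial τ k} {s : ℕ} (hg : g.IsHomogeneous s) (v : MvPolynomial τ k)
    {D : ℕ} (hD : ¬ s ≤ D) : homogeneousComponent D (v * g) = 0 := by
  have h := DirectSum.coe_decompose_mul_of_right_mem_of_not_le (𝒜 := homogeneousSubmodule τ k)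
    (n := D) (i := s) (a := v) (b := g) hg hD
  rwa [decompose_eq] at h

/-- the ideal of variables -/
noncomputable abbrev mx (τ k : Type*) [Field k] : Ideal (MvPolynomial τ k) := idealOfVars τ k

theorem isHomogeneous_span {ι : Type*} (c : ι → MvPolynomial τ k) (δ : ι → ℕ)
    (hc : ∀ i, (c i).IsHomogeneous (δ i)) :
    (Ideal.span (Set.range c)).IsHomogeneous (homogeneousSubmodule τ k) := by
  apply Ideal.homogeneous_span
  rintro _ ⟨i, rfl⟩
  exact ⟨δ i, hc i⟩

/-- Graded Nakayama: a homogeneous ideal `I` which together with forms `z i` of positive degree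
contains a power of the ideal of variables has a quotient finite over `k[z]`. -/
theorem finite_of_pow_le {ρ : Type*} [Fintype ρ] [Finite τ] (I : Ideal (MvPolynomial τ k))
    (hI : I.IsHomogeneous (homogeneousSubmodule τ k)) (z : ρ → MvPolynomial τ k) (δ : ρ → ℕ)
    (hδ : ∀ i, 0 < δ i) (hz : ∀ i, (z i).IsHomogeneous (δ i)) (E : ℕ)
    (hE : (mx τ k) ^ E ≤ I ⊔ Ideal.span (Set.range z)) :
    ((Ideal.Quotient.mkₐ k I).comp (aeval z : MvPolynomial ρ k →ₐ[k] MvPolynomial τ k)).Finite := by
  classical
  set φ := (Ideal.Quotient.mkₐ k I).comp (aeval z : MvPolynomial ρ k →ₐ[k] MvPolynomial τ k)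
  let _ : Algebra (MvPolynomial ρ k) (MvPolynomial τ k ⧸ I) := φ.toRingHom.toAlgebra
  change Module.Finite (MvPolynomial ρ k) (MvPolynomial τ k ⧸ I)
  have hfin : {m : τ →₀ ℕ | m.degree < E}.Finite := by
    have := Finsupp.finite_of_degree_le (σ := τ) E
    exact this.subset fun m hm => Nat.le_of_lt (Set.mem_ofPred.mp hm)
  let S : Set (MvPolynomial τ k ⧸ I) :=
    (fun m : τ →₀ ℕ => Ideal.Quotient.mk I (monomial m 1)) '' {m | m.degree < E}
  have hS : S.Finite := hfin.image _
  refine ⟨⟨hS.toFinset, ?_⟩⟩
  rw [Set.Finite.coe_toFinset]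
  set M := Submodule.span (MvPolynomial ρ k) S
  have hz' : ∀ i (x : MvPolynomial τ k), Ideal.Quotient.mk I (x * z i) =
      (X i : MvPolynomial ρ k) • Ideal.Quotient.mk I x := by
    intro i x
    rw [Algebra.smul_def]
    change _ = φ (X i) * _
    simp [φ, mul_comm]
  have hk : ∀ (c : k) (x : MvPolynomial τ k), Ideal.Quotient.mk I (C c * x) =
      (C c : MvPolynomial ρ k) • Ideal.Quotient.mk I x := by
    intro c x
    rw [Algebra.smul_def]
    change _ = φ (C c) * _
    have : φ (C c) = Ideal.Quotient.mk I (C c) := by
      simp only [φ, AlgHom.comp_apply, aeval_C, Ideal.Quotient.mkₐ_eq_mk]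
      rfl
    rw [this, map_mul]
  have key : ∀ D : ℕ, ∀ p : MvPolynomial τ k, p.IsHomogeneous D → Ideal.Quotient.mk I p ∈ M := by
    intro D
    induction D using Nat.strong_induction_on with
    | _ D ih =>
      intro p hp
      by_cases hD : D < E
      · rw [p.as_sum, map_sum]
        refine Submodule.sum_mem _ fun m hm => ?_
        have h1 : monomial m (coeff m p) = C (coeff m p) * monomial m 1 := by
          rw [C_mul_monomial, mul_one]
        rw [h1, hk]
        refine Submodule.smul_mem _ _ (Submodule.subset_span ⟨m, ?_, rfl⟩)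
        have := hp.degree_eq_sum_deg_support hm
        have h2 : m.degree = D := by
          by_contra hne
          exact (mem_support_iff.mp hm) (hp.coeff_eq_zero hne)
        change m.degree < E
        omega
      · push Not at hD
        have h1 : p ∈ (mx τ k) ^ E := by
          rw [mem_pow_idealOfVars_iff]
          intro m hm
          have h2 : m.degree = D := by
            by_contra hne
            exact (mem_support_iff.mp hm) (hp.coeff_eq_zero hne)
          omega
        obtain ⟨u, hu, w, hw, rfl⟩ := Submodule.mem_sup.mp (hE h1)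
        obtain ⟨v, rfl⟩ := (Ideal.mem_span_range_iff_exists_fun).mp hw
        have h2 : u + ∑ i, v i * z i = homogeneousComponent D u +
            ∑ i, homogeneousComponent D (v i * z i) := by
          rw [← map_sum, ← map_add]
          exact (homogeneousComponent_eq_self hp).symm
        rw [h2, map_add, map_sum]
        have h3 : Ideal.Quotient.mk I (homogeneousComponent D u) = 0 :=
          Ideal.Quotient.eq_zero_iff_mem.mpr (homogeneousComponent_mem_of_mem hI hu D)
        rw [h3, zero_add]
        refine Submodule.sum_mem _ fun i _ => ?_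
        by_cases hi : δ i ≤ D
        · rw [hc_mul (hz i) _ hi, hz']
          refine Submodule.smul_mem _ _ (ih (D - δ i) ?_ _ (homogeneousComponent_isHomogeneous _ _))
          have := hδ i
          omega
        · have h4 : homogeneousComponent D (v i * z i) = 0 := hc_mul_zero (hz i) _ hi
          rw [h4, map_zero]
          exact Submodule.zero_mem _
  rw [eq_top_iff]
  rintro x -
  obtain ⟨p, rfl⟩ := Ideal.Quotient.mk_surjective x
  rw [← sum_homogeneousComponent p, map_sum]
  exact Submodule.sum_mem _ fun i _ => key i _ (homogeneousComponent_isHomogeneous _ _)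

end Pool.Agent.Helper30.RC
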