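import Mathlib
import Pool.Agent.Helper30.RC.Gr

/-!
# The condition `m ^ E ≤ (c, z)` is open in linear families
-/

namespace Pool.Agent.Helper30.RC

open MvPolynomial

attribute [local instance] MvPolynomial.gradedAlgebra

variable {k : Type*} [Field k] {τ : Type*}

theorem pow_le_of_zero [IsAlgClosed k] [Finite τ] (J : Ideal (MvPolynomial τ k))
    (h : ∀ x : τ → k, (∀ p ∈ J, eval x p = 0) → x = 0) : ∃ E, (mx τ k) ^ E ≤ J := by
  apply Ideal.exists_pow_le_of_le_radical_of_fg _ (idealOfVars_fg τ k)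
  rw [← vanishingIdeal_zeroLocus_eq_radical (K := k) J, idealOfVars, Ideal.span_le]
  rintro _ ⟨t, rfl⟩
  intro x hx
  have h1 : x = 0 := h x fun p hp => by
    have := hx p hp
    rwa [aeval_eq_eval] at this
  rw [h1]
  simp

/-- the members of a linear family -/
noncomputable def lin {J Γ : Type*} [Fintype Γ] (c : J → Γ → MvPolynomial τ k) (x : Γ → k)
    (j : J) : MvPolynomial τ k := ∑ γ, C (x γ) * c j γ

theorem lin_hom {J Γ : Type*} [Fintype Γ] {c : J → Γ → MvPolynomial τ k} {δ : J → ℕ}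
    (hc : ∀ j γ, (c j γ).IsHomogeneous (δ j)) (x : Γ → k) (j : J) :
    (lin c x j).IsHomogeneous (δ j) := by
  apply IsHomogeneous.sum
  intro γ _
  exact (hc j γ).C_mul _

theorem open_pow_le {J Γ ρ : Type*} [Fintype J] [Fintype Γ] [Fintype ρ] [Finite τ]
    (c : J → Γ → MvPolynomial τ k) (δ : J → ℕ) (hc : ∀ j γ, (c j γ).IsHomogeneous (δ j))
    (z : ρ → MvPolynomial τ k) (ε : ρ → ℕ) (hz : ∀ i, (z i).IsHomogeneous (ε i)) (E : ℕ)
    (x₀ : Γ → k)
    (h0 : (mx τ k) ^ E ≤ Ideal.span (Set.range (lin c x₀)) ⊔ Ideal.span (Set.range z)) :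
    ∃ D : MvPolynomial Γ k, eval x₀ D ≠ 0 ∧ ∀ x : Γ → k, eval x D ≠ 0 →
      (mx τ k) ^ E ≤ Ideal.span (Set.range (lin c x)) ⊔ Ideal.span (Set.range z) := by
  classical
  let Mn := {m : τ →₀ ℕ // m.degree = E}
  have hfinM : {m : τ →₀ ℕ | m.degree = E}.Finite := by
    have := Finsupp.finite_of_degree_le (σ := τ) E
    exact this.subset fun m hm => le_of_eq (Set.mem_ofPred.mp hm)
  let _ : Fintype Mn := hfinM.fintype
  have hmon : ∀ m : Mn, (monomial m.1 (1 : k)) ∈ (mx τ k) ^ E := by
    intro m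
    rw [monomial_mem_pow_idealOfVars_iff E m.1 one_ne_zero]
    exact le_of_eq m.2.symm
  have h1 : ∀ m : Mn, ∃ u : J → MvPolynomial τ k, ∃ v : ρ → MvPolynomial τ k,
      monomial m.1 (1 : k) = ∑ j, u j * lin c x₀ j + ∑ i, v i * z i := by
    intro m
    obtain ⟨a, ha, b, hb, hab⟩ := Submodule.mem_sup.mp (h0 (hmon m))
    obtain ⟨u, rfl⟩ := (Ideal.mem_span_range_iff_exists_fun).mp ha
    obtain ⟨v, rfl⟩ := (Ideal.mem_span_range_iff_exists_fun).mp hb
    exact ⟨u, v, hab.symm⟩
  choose u v huv using h1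
  let r : (Γ → k) → Mn → MvPolynomial τ k := fun x m =>
    ∑ j, u m j * lin c x j + ∑ i, v m i * z i
  have hr0 : ∀ m, r x₀ m = monomial m.1 1 := fun m => (huv m).symm
  let A : Matrix Mn Mn (MvPolynomial Γ k) := fun m m' =>
    ∑ γ, X γ * C (coeff m'.1 (∑ j, u m j * c j γ)) + C (coeff m'.1 (∑ i, v m i * z i))
  have hA : ∀ x m m', eval x (A m m') = coeff m'.1 (r x m) := by
    intro x m m'
    simp only [A, map_add, map_sum, map_mul, eval_X, eval_C, r, coeff_add]
    congr 1
    have h2 : ∑ j, u m j * lin c x j = ∑ γ, C (x γ) * ∑ j, u m j * c j γ := by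
      simp only [lin, Finset.mul_sum]
      rw [Finset.sum_comm]
      refine Finset.sum_congr rfl fun γ _ => Finset.sum_congr rfl fun j _ => ?_
      ring
    rw [h2, coeff_sum]
    refine Finset.sum_congr rfl fun γ _ => ?_
    rw [coeff_C_mul, coeff_sum]
  refine ⟨A.det, ?_, ?_⟩
  · rw [RingHom.map_det]
    have : (eval x₀).mapMatrix A = 1 := by
      ext m m'
      rw [RingHom.mapMatrix_apply, Matrix.map_apply, hA, hr0, coeff_monomial, Matrix.one_apply]
      by_cases h : m = m'
      · simp [h]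
      · have : m.1 ≠ m'.1 := fun e => h (Subtype.ext e)
        simp [h, this]
    rw [this, Matrix.det_one]
    exact one_ne_zero
  · intro x hx
    set B : Matrix Mn Mn k := (eval x).mapMatrix A with hB
    have hdet : B.det ≠ 0 := by
      rw [hB, ← RingHom.map_det]
      exact hx
    have hinv : B⁻¹ * B = 1 := Matrix.nonsing_inv_mul B (isUnit_iff_ne_zero.mpr hdet)
    set I := Ideal.span (Set.range (lin c x)) ⊔ Ideal.span (Set.range z) with hI
    have hIh : I.IsHomogeneous (homogeneousSubmodule τ k) :=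
      (isHomogeneous_span _ δ (lin_hom hc x)).sup (isHomogeneous_span _ ε hz)
    have hrI : ∀ m, r x m ∈ I := by
      intro m
      refine Ideal.add_mem _ ?_ ?_
      · refine Ideal.sum_mem _ fun j _ => Ideal.mul_mem_left _ _ ?_
        exact (le_sup_left : _ ≤ I) (Ideal.subset_span ⟨j, rfl⟩)
      · refine Ideal.sum_mem _ fun i _ => Ideal.mul_mem_left _ _ ?_
        exact (le_sup_right : _ ≤ I) (Ideal.subset_span ⟨i, rfl⟩)
    rw [pow_idealOfVars_eq_span, Ideal.span_le]
    rintro _ ⟨m₁, hm₁, rfl⟩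
    let m : Mn := ⟨m₁, hm₁⟩
    have h3 : (∑ m' : Mn, C (B⁻¹ m m') * r x m') ∈ I :=
      Ideal.sum_mem _ fun m' _ => Ideal.mul_mem_left _ _ (hrI m')
    have h4 := homogeneousComponent_mem_of_mem hIh h3 E
    have h5 : homogeneousComponent E (∑ m' : Mn, C (B⁻¹ m m') * r x m') = monomial m₁ 1 := by
      ext a
      rw [coeff_homogeneousComponent, coeff_monomial]
      split_ifs with h6 h7 h7
      · subst h7
        have : (B⁻¹ * B) m m = 1 := by rw [hinv]; simp
        rw [coeff_sum]
        simp only [coeff_C_mul]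
        rw [← this, Matrix.mul_apply]
        refine Finset.sum_congr rfl fun m' _ => ?_
        rw [hB, RingHom.mapMatrix_apply, Matrix.map_apply, hA]
      · have : (B⁻¹ * B) m ⟨a, h6⟩ = 0 := by
          rw [hinv, Matrix.one_apply_ne]
          intro h
          exact h7 (congrArg Subtype.val h)
        rw [coeff_sum]
        simp only [coeff_C_mul]
        rw [← this, Matrix.mul_apply]
        refine Finset.sum_congr rfl fun m' _ => ?_
        rw [hB, RingHom.mapMatrix_apply, Matrix.map_apply, hA]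
      · exfalso
        subst h7
        exact h6 hm₁
      · rfl
    rw [h5] at h4
    exact h4

end Pool.Agent.Helper30.RC
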