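import Mathlib
import Pool.Agent.Helper30.RC.Defs
import Pool.Agent.Helper30.RC.Gr
import Pool.Agent.Helper30.RC.Opn
import Pool.Agent.Helper30.RC.Dim

/-!
# The family of ideals `curveIdeal e f`
-/

namespace Pool.Agent.Helper30.RC

open MvPolynomial

attribute [local instance] MvPolynomial.gradedAlgebra

variable {k : Type*} [Field k]

/-- all coefficients are forms of degree `s` -/
def HomC {τ : Type*} (s : ℕ) (G : Polynomial (MvPolynomial τ k)) : Prop :=
  ∀ j, (G.coeff j).IsHomogeneous s

theorem HomC.mul {τ : Type*} {s t : ℕ} {G H : Polynomial (MvPolynomial τ k)} (hG : HomC s G)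
    (hH : HomC t H) : HomC (s + t) (G * H) := by
  intro j
  rw [Polynomial.coeff_mul]
  exact IsHomogeneous.sum _ _ _ fun x _ => (hG _).mul (hH _)

theorem HomC.one {τ : Type*} : HomC 0 (1 : Polynomial (MvPolynomial τ k)) := by
  intro j
  rw [Polynomial.coeff_one]
  split_ifs
  · exact isHomogeneous_one _ _
  · exact isHomogeneous_zero _ _ _

theorem HomC.pow {τ : Type*} {s : ℕ} {G : Polynomial (MvPolynomial τ k)} (hG : HomC s G)
    (m : ℕ) : HomC (m * s) (G ^ m) := by
  induction m with
  | zero => simpa using HomC.one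
  | succ m ih =>
    rw [pow_succ, add_mul, one_mul]
    exact ih.mul hG

theorem tup_hom (n e : ℕ) (i : Fin (n + 1)) : HomC 1 (tup k n e i) := by
  intro j
  rw [tup, Polynomial.finsetSum_coeff]
  refine IsHomogeneous.sum _ _ _ fun l _ => ?_
  rw [Polynomial.coeff_C_mul, Polynomial.coeff_X_pow]
  split_ifs
  · rw [mul_one]
    exact isHomogeneous_X _ _
  · rw [mul_zero]
    exact isHomogeneous_zero _ _ _

theorem tup_natDegree (n e : ℕ) (i : Fin (n + 1)) : (tup k n e i).natDegree ≤ e := by
  rw [tup]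
  refine Polynomial.natDegree_sum_le_of_forall_le _ _ fun l _ => ?_
  refine (Polynomial.natDegree_C_mul_X_pow_le _ _).trans ?_
  have := l.2
  omega

theorem pull_monomial {n : ℕ} (e : ℕ) (m : Fin (n + 1) →₀ ℕ) :
    pull e (monomial m (1 : k)) = ∏ i, tup k n e i ^ m i := by
  rw [pull, aeval_monomial, map_one, one_mul, Finsupp.prod_fintype]
  intro i
  exact pow_zero _

theorem pull_monomial_hom {n : ℕ} (e : ℕ) (m : Fin (n + 1) →₀ ℕ) :
    HomC m.degree (pull e (monomial m (1 : k))) := by
  classical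
  rw [pull_monomial]
  have : ∀ s : Finset (Fin (n + 1)), HomC (∑ i ∈ s, m i) (∏ i ∈ s, tup k n e i ^ m i) := by
    intro s
    induction s using Finset.induction_on with
    | empty => simpa using HomC.one
    | insert a s ha ih =>
      rw [Finset.sum_insert ha, Finset.prod_insert ha]
      have := (tup_hom (k := k) n e a).pow (m a)
      rw [mul_one] at this
      exact this.mul ih
  have h := this Finset.univ
  rwa [← Finsupp.degree_eq_sum] at h

theorem pull_monomial_natDegree {n : ℕ} (e : ℕ) (m : Fin (n + 1) →₀ ℕ) :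
    (pull e (monomial m (1 : k))).natDegree ≤ m.degree * e := by
  rw [pull_monomial]
  refine (Polynomial.natDegree_prod_le _ _).trans ?_
  rw [Finsupp.degree_eq_sum, Finset.sum_mul]
  refine Finset.sum_le_sum fun i _ => ?_
  refine Polynomial.natDegree_pow_le.trans ?_
  exact Nat.mul_le_mul_left _ (tup_natDegree n e i)

/-- the exponents of degree `d` -/
abbrev Mon (n d : ℕ) : Type := {m : Fin (n + 1) →₀ ℕ // m.degree = d}

noncomputable instance (n d : ℕ) : Fintype (Mon n d) := by
  have h : {m : Fin (n + 1) →₀ ℕ | m.degree = d}.Finite :=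
    (Finsupp.finite_of_degree_le (σ := Fin (n + 1)) d).subset
      fun m hm => le_of_eq (Set.mem_ofPred.mp hm)
  exact h.fintype

/-- the coefficients of the universal equation -/
noncomputable def cf (k : Type*) [Field k] (n d e : ℕ) (j : Fin (d * e + 1)) (m : Mon n d) :
    CoeffRing k n e :=
  (pull e (monomial m.1 (1 : k))).coeff j

theorem cf_hom (n d e : ℕ) (j : Fin (d * e + 1)) (m : Mon n d) :
    (cf k n d e j m).IsHomogeneous d := by
  have := pull_monomial_hom (k := k) e m.1 j
  rwa [m.2] at this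

theorem hom_sum {n d : ℕ} {f : MvPolynomial (Fin (n + 1)) k} (hf : f.IsHomogeneous d) :
    f = ∑ m : Mon n d, C (coeff m.1 f) * monomial m.1 1 := by
  classical
  ext a
  rw [coeff_sum]
  simp only [coeff_C_mul, coeff_monomial]
  by_cases ha : a.degree = d
  · rw [Finset.sum_eq_single (⟨a, ha⟩ : Mon n d)]
    · simp
    · intro b _ hb
      have : b.1 ≠ a := fun h => hb (Subtype.ext h)
      simp [this]
    · simp
  · rw [hf.coeff_eq_zero ha, Finset.sum_eq_zero]
    intro b _
    have : b.1 ≠ a := by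
      rintro rfl
      exact ha b.2
    simp [this]

theorem pull_eq {n d : ℕ} (e : ℕ) {f : MvPolynomial (Fin (n + 1)) k} (hf : f.IsHomogeneous d) :
    pull e f = ∑ m : Mon n d, Polynomial.C (C (coeff m.1 f)) * pull e (monomial m.1 1) := by
  conv_lhs => rw [hom_sum hf]
  rw [pull, map_sum]
  refine Finset.sum_congr rfl fun m _ => ?_
  rw [map_mul, aeval_C]
  rfl

theorem pull_coeff {n d : ℕ} (e : ℕ) {f : MvPolynomial (Fin (n + 1)) k} (hf : f.IsHomogeneous d)
    (j : Fin (d * e + 1)) :
    (pull e f).coeff j = lin (cf k n d e) (fun m : Mon n d => coeff m.1 f) j := by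
  rw [pull_eq e hf, Polynomial.finsetSum_coeff, lin]
  refine Finset.sum_congr rfl fun m _ => ?_
  rw [Polynomial.coeff_C_mul, cf]

theorem pull_natDegree {n d : ℕ} (e : ℕ) {f : MvPolynomial (Fin (n + 1)) k}
    (hf : f.IsHomogeneous d) : (pull e f).natDegree ≤ d * e := by
  rw [pull_eq e hf]
  refine Polynomial.natDegree_sum_le_of_forall_le _ _ fun m _ => ?_
  refine (Polynomial.natDegree_C_mul_le _ _).trans ?_
  have := pull_monomial_natDegree (k := k) e m.1
  rwa [m.2] at this

theorem curveIdeal_eq {n d : ℕ} (e : ℕ) {f : MvPolynomial (Fin (n + 1)) k}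
    (hf : f.IsHomogeneous d) :
    curveIdeal e f =
      Ideal.span (Set.range (lin (cf k n d e) (fun m : Mon n d => coeff m.1 f))) := by
  apply le_antisymm
  · rw [curveIdeal, Ideal.span_le]
    rintro _ ⟨j, rfl⟩
    by_cases hj : j < d * e + 1
    · refine Ideal.subset_span ⟨⟨j, hj⟩, ?_⟩
      exact (pull_coeff e hf ⟨j, hj⟩).symm
    · have : (pull e f).coeff j = 0 := by
        apply Polynomial.coeff_eq_zero_of_natDegree_lt
        have := pull_natDegree e hf
        omega
      change (pull e f).coeff j ∈ _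
      rw [this]
      exact Ideal.zero_mem _
  · rw [Ideal.span_le]
    rintro _ ⟨j, rfl⟩
    refine Ideal.subset_span ⟨(j : ℕ), ?_⟩
    exact pull_coeff e hf j

/-- the tuple of polynomials with coefficients `a` -/
noncomputable def ptup {n e : ℕ} (a : Fin (n + 1) × Fin (e + 1) → k) (i : Fin (n + 1)) :
    Polynomial k :=
  ∑ l : Fin (e + 1), Polynomial.C (a (i, l)) * Polynomial.X ^ (l : ℕ)

theorem map_tup {n e : ℕ} (a : Fin (n + 1) × Fin (e + 1) → k) (i : Fin (n + 1)) :
    (tup k n e i).map (eval a) = ptup a i := by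
  rw [tup, ptup, Polynomial.map_sum]
  refine Finset.sum_congr rfl fun l _ => ?_
  rw [Polynomial.map_mul, Polynomial.map_pow, Polynomial.map_X, Polynomial.map_C, eval_X]

theorem map_pull {n e : ℕ} (a : Fin (n + 1) × Fin (e + 1) → k)
    (f : MvPolynomial (Fin (n + 1)) k) : (pull e f).map (eval a) = aeval (ptup a) f := by
  have h : (Polynomial.mapRingHom (eval a)).comp (aeval (tup k n e) :
      MvPolynomial (Fin (n + 1)) k →ₐ[k] Polynomial (CoeffRing k n e)).toRingHom =
      (aeval (ptup a) : MvPolynomial (Fin (n + 1)) k →ₐ[k] Polynomial k).toRingHom := by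
    apply ringHom_ext
    · intro r
      simp [Polynomial.algebraMap_apply]
    · intro i
      simp [map_tup]
  exact congrArg (fun φ : MvPolynomial (Fin (n + 1)) k →+* Polynomial k => φ f) h

theorem ptup_natDegree {n e : ℕ} (a : Fin (n + 1) × Fin (e + 1) → k) (i : Fin (n + 1)) :
    (ptup a i).natDegree ≤ e := by
  rw [ptup]
  refine Polynomial.natDegree_sum_le_of_forall_le _ _ fun l _ => ?_
  refine (Polynomial.natDegree_C_mul_X_pow_le _ _).trans ?_
  have := l.2
  omega

theorem ptup_coeff {n e : ℕ} (a : Fin (n + 1) × Fin (e + 1) → k) (i : Fin (n + 1))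
    (l : Fin (e + 1)) : (ptup a i).coeff l = a (i, l) := by
  classical
  rw [ptup, Polynomial.finsetSum_coeff]
  simp only [Polynomial.coeff_C_mul, Polynomial.coeff_X_pow]
  rw [Finset.sum_eq_single l]
  · simp
  · intro b _ hb
    have : (l : ℕ) ≠ b := fun h => hb (Fin.ext h.symm)
    simp [this]
  · simp

theorem eq_zero_of_ptup {n e : ℕ} {a : Fin (n + 1) × Fin (e + 1) → k}
    (h : ∀ i, ptup a i = 0) : a = 0 := by
  ext ⟨i, l⟩
  rw [← ptup_coeff a i l, h i]
  simp

end Pool.Agent.Helper30.RC
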