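import Mathlib
import Pool.Agent.Helper30.RC.Fam

/-!
# Expected dimension on an open set, from one member and a linear section
-/

namespace Pool.Agent.Helper30.RC

open MvPolynomial

attribute [local instance] MvPolynomial.gradedAlgebra

variable {k : Type*} [Field k]

theorem dim_eq_of_pow_le {τ J ρ : Type*} [Fintype J] [Fintype ρ] [Finite τ]
    (c : J → MvPolynomial τ k) (δ : J → ℕ) (hc : ∀ j, (c j).IsHomogeneous (δ j))
    (z : ρ → MvPolynomial τ k) (ε : ρ → ℕ) (hε : ∀ i, 0 < ε i)
    (hz : ∀ i, (z i).IsHomogeneous (ε i)) (E : ℕ)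
    (h : (mx τ k) ^ E ≤ Ideal.span (Set.range c) ⊔ Ideal.span (Set.range z))
    (hcard : Nat.card τ = Fintype.card J + Fintype.card ρ)
    (P : Ideal (MvPolynomial τ k)) (hP : P ∈ (Ideal.span (Set.range c)).minimalPrimes) :
    ringKrullDim (MvPolynomial τ k ⧸ P) = Fintype.card ρ := by
  have h1 := finite_of_pow_le _ (isHomogeneous_span c δ hc) z ε hε hz E h
  have hle : Ideal.span (Set.range c) ≤ P := hP.1.2
  have h2 : ringKrullDim (MvPolynomial τ k ⧸ P) ≤ Fintype.card ρ := by
    have h3 : ringKrullDim (MvPolynomial ρ k) = Fintype.card ρ := by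
      rw [dim_mvPoly, Nat.card_eq_fintype_card]
    rw [← h3]
    let ψ : (MvPolynomial τ k ⧸ Ideal.span (Set.range c)) →+* MvPolynomial τ k ⧸ P :=
      Ideal.Quotient.factor hle
    have hψ : ψ.Finite := RingHom.Finite.of_surjective _ (Ideal.Quotient.factor_surjective hle)
    have h1' : RingHom.Finite ((Ideal.Quotient.mkₐ k (Ideal.span (Set.range c))).comp
      (aeval z : MvPolynomial ρ k →ₐ[k] MvPolynomial τ k)).toRingHom := h1
    exact dim_le_of_integral _ (RingHom.Finite.comp hψ h1').to_isIntegral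
  have h4 := le_dim_of_minimalPrimes c P hP
  rw [hcard] at h4
  refine le_antisymm h2 ?_
  have hPp : P.IsPrime := hP.1.1
  have h5 : (0 : WithBot ℕ∞) ≤ ringKrullDim (MvPolynomial τ k ⧸ P) := by
    have : Nontrivial (MvPolynomial τ k ⧸ P) := Ideal.Quotient.nontrivial_iff.mpr hPp.ne_top
    exact ringKrullDim_nonneg_of_nontrivial
  revert h4 h2 h5
  generalize ringKrullDim (MvPolynomial τ k ⧸ P) = D
  intro h2 h4 h5
  induction D with
  | bot => simp at h5
  | coe D =>
    have h6 : ((Fintype.card J + Fintype.card ρ : ℕ) : ℕ∞) ≤ D + (Fintype.card J : ℕ) := by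
      exact_mod_cast h4
    have h7 : D ≤ (Fintype.card ρ : ℕ) := by exact_mod_cast h2
    obtain ⟨D', rfl⟩ := ENat.ne_top_iff_exists.mp (ne_top_of_le_ne_top (ENat.natCast_ne_top _) h7)
    have h8 : Fintype.card J + Fintype.card ρ ≤ D' + Fintype.card J := by exact_mod_cast h6
    have h9 : Fintype.card ρ ≤ D' := by omega
    exact_mod_cast h9

/-- A condition on the coefficients indexed by `Mon n d` transported to all exponents. -/
theorem forGeneral_of {n d : ℕ} {P : MvPolynomial (Fin (n + 1)) k → Prop}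
    {f₀ : MvPolynomial (Fin (n + 1)) k} (hf₀ : f₀.IsHomogeneous d) (D : MvPolynomial (Mon n d) k)
    (h0 : eval (fun m : Mon n d => coeff m.1 f₀) D ≠ 0)
    (h : ∀ f : MvPolynomial (Fin (n + 1)) k, f.IsHomogeneous d →
      eval (fun m : Mon n d => coeff m.1 f) D ≠ 0 → P f) : ForGeneral n d P := by
  have key : ∀ f : MvPolynomial (Fin (n + 1)) k,
      eval (fun m => coeff m f) (rename Subtype.val D) =
        eval (fun m : Mon n d => coeff m.1 f) D := by
    intro f
    rw [eval_rename]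
    rfl
  refine ⟨rename Subtype.val D, ⟨f₀, hf₀, ?_⟩, fun f hf hD => h f hf ?_⟩
  · rw [key]; exact h0
  · rw [← key]; exact hD

/-- One form `f₀` and linear forms `z` with `V(f₀) ∩ {z = 0} = 0` give the expected dimension for
the general form. -/
theorem forGeneral_dim [IsAlgClosed k] {n d e : ℕ} {ρ : Type*} [Fintype ρ]
    (z : ρ → CoeffRing k n e) (ε : ρ → ℕ) (hε : ∀ i, 0 < ε i)
    (hz : ∀ i, (z i).IsHomogeneous (ε i))
    (hcard : (n + 1) * (e + 1) = d * e + 1 + Fintype.card ρ)
    (f₀ : MvPolynomial (Fin (n + 1)) k) (hf₀ : f₀.IsHomogeneous d)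
    (h : ∀ a : Fin (n + 1) × Fin (e + 1) → k, aeval (ptup a) f₀ = 0 →
      (∀ i, eval a (z i) = 0) → a = 0) :
    ForGeneral n d (fun f => ∀ P ∈ (curveIdeal e f).minimalPrimes,
      ringKrullDim (CoeffRing k n e ⧸ P) = Fintype.card ρ) := by
  obtain ⟨E, hE⟩ := pow_le_of_zero (τ := Fin (n + 1) × Fin (e + 1))
    (Ideal.span (Set.range (lin (cf k n d e) (fun m : Mon n d => coeff m.1 f₀))) ⊔
      Ideal.span (Set.range z)) (by
    intro a ha
    refine h a ?_ ?_
    · rw [← map_pull]
      ext j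
      rw [Polynomial.coeff_map, Polynomial.coeff_zero]
      refine ha _ ((le_sup_left : Ideal.span _ ≤ _) ?_)
      rw [← curveIdeal_eq e hf₀]
      exact Ideal.subset_span ⟨j, rfl⟩
    · intro i
      exact ha _ ((le_sup_right : Ideal.span (Set.range z) ≤ _)
        (Ideal.subset_span (Set.mem_range_self i))))
  obtain ⟨D, hD0, hD⟩ := open_pow_le (cf k n d e) (fun _ => d) (cf_hom n d e) z ε hz E _ hE
  refine forGeneral_of hf₀ D hD0 fun f hf hDf P hP => ?_
  rw [curveIdeal_eq e hf] at hP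
  refine dim_eq_of_pow_le _ (fun _ => d) (lin_hom (cf_hom n d e) _) z ε hε hz E (hD _ hDf) ?_ P hP
  rw [Fintype.card_fin, ← hcard]
  simp

end Pool.Agent.Helper30.RC
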