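import Mathlib
import Pool.Agent.Helper30.RC.GenDim

/-!
# The explicit pair `(f₀, L)` for `n ≥ 2 d - 2`
-/

namespace Pool.Agent.Helper30.RC

open MvPolynomial

variable {k : Type*} [Field k]

/-- `Y_0 ^ d + T Y_1 ^ d + ... + T ^ (d-1) Y_{d-1} ^ d` has no nontrivial zero. -/
theorem twist_zero (d : ℕ) (Y : Fin d → Polynomial k)
    (h : ∑ i : Fin d, Polynomial.X ^ (i : ℕ) * Y i ^ d = 0) : ∀ i, Y i = 0 := by
  classical
  have hdeg : ∀ i : Fin d, Y i ≠ 0 →
      (Polynomial.X ^ (i : ℕ) * Y i ^ d).natDegree = i + d * (Y i).natDegree := by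
    intro i hi
    rw [Polynomial.natDegree_mul (pow_ne_zero _ Polynomial.X_ne_zero) (pow_ne_zero _ hi),
      Polynomial.natDegree_X_pow, Polynomial.natDegree_pow]
  have hne : ∀ i : Fin d, Polynomial.X ^ (i : ℕ) * Y i ^ d ≠ 0 → Y i ≠ 0 := by
    intro i hi h0
    apply hi
    have : d ≠ 0 := by
      have := i.2
      omega
    rw [h0, zero_pow this, mul_zero]
  have h1 := Polynomial.degree_sum_eq_of_disjoint
    (fun i : Fin d => Polynomial.X ^ (i : ℕ) * Y i ^ d) Finset.univ (by
      intro i hi j hj hij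
      have hi1 := hne i hi.2
      have hj1 := hne j hj.2
      change Polynomial.degree _ ≠ Polynomial.degree _
      rw [Polynomial.degree_eq_natDegree hi.2, Polynomial.degree_eq_natDegree hj.2]
      intro he
      have he' := Nat.cast_inj.mp he
      rw [hdeg i hi1, hdeg j hj1] at he'
      have h2 : ((i : ℕ) + d * (Y i).natDegree) % d = ((j : ℕ) + d * (Y j).natDegree) % d := by
        rw [he']
      rw [Nat.add_mul_mod_self_left, Nat.add_mul_mod_self_left, Nat.mod_eq_of_lt i.2,
        Nat.mod_eq_of_lt j.2] at h2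
      exact hij (Fin.ext h2))
  rw [h, Polynomial.degree_zero] at h1
  intro i
  by_contra hi
  have h2 := Finset.le_sup (f := fun i : Fin d => Polynomial.degree
    (Polynomial.X ^ (i : ℕ) * Y i ^ d)) (Finset.mem_univ i)
  rw [← h1, le_bot_iff, Polynomial.degree_eq_bot] at h2
  exact (mul_ne_zero (pow_ne_zero _ Polynomial.X_ne_zero) (pow_ne_zero _ hi)) h2

section

variable (d m : ℕ)

/-- the variable `x_{i+1}` -/
def vx (i : Fin d) : Fin (2 * d + m + 1) := ⟨i + 1, by have := i.2; omega⟩

/-- the variable `x'_{i+1}` -/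
def vx' (i : Fin d) : Fin (2 * d + m + 1) := ⟨d + 1 + i, by have := i.2; omega⟩

/-- the remaining variables -/
def vu (t : Fin m) : Fin (2 * d + m + 1) := ⟨2 * d + 1 + t, by have := t.2; omega⟩

/-- the special form of degree `d + 1` in `2 d + m + 1` variables -/
noncomputable def fA (k : Type*) [Field k] (d m : ℕ) : MvPolynomial (Fin (2 * d + m + 1)) k :=
  X 0 ^ (d + 1) + ∑ i : Fin d, X (vx d m i) ^ (d - i) * X (vx' d m i) ^ ((i : ℕ) + 1)

/-- the linear equations -/
noncomputable def zA (k : Type*) [Field k] (d m e : ℕ) :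
    (Fin d × Fin (e + 2)) ⊕ (Fin m × Fin (e + 1)) → CoeffRing k (2 * d + m) e
  | Sum.inl p => (tup k (2 * d + m) e (vx' d m p.1) -
      Polynomial.X * tup k (2 * d + m) e (vx d m p.1)).coeff p.2
  | Sum.inr p => X (vu d m p.1, p.2)

end

theorem fA_hom (d m : ℕ) : (fA k d m).IsHomogeneous (d + 1) := by
  unfold fA
  refine IsHomogeneous.add ?_ ?_
  · exact isHomogeneous_X_pow _ _
  · refine IsHomogeneous.sum _ _ _ fun i _ => ?_
    have := (isHomogeneous_X_pow (R := k) (vx d m i) (d - i)).mul
      (isHomogeneous_X_pow (R := k) (vx' d m i) ((i : ℕ) + 1))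
    have h2 : d - (i : ℕ) + ((i : ℕ) + 1) = d + 1 := by
      have := i.2
      omega
    rwa [h2] at this

theorem zA_hom (d m e : ℕ) (i) : (zA k d m e i).IsHomogeneous 1 := by
  rcases i with p | p
  · change ((tup k (2 * d + m) e (vx' d m p.1) -
      Polynomial.X * tup k (2 * d + m) e (vx d m p.1)).coeff p.2).IsHomogeneous 1
    rw [Polynomial.coeff_sub]
    refine IsHomogeneous.sub (tup_hom _ _ _ _) ?_
    rcases hp : (p.2 : ℕ) with _ | l
    · rw [Polynomial.mul_coeff_zero, Polynomial.coeff_X_zero, zero_mul]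
      exact isHomogeneous_zero _ _ _
    · rw [Polynomial.coeff_X_mul]
      exact tup_hom _ _ _ _
  · exact isHomogeneous_X _ _

theorem zeroA (d m e : ℕ) (a : Fin (2 * d + m + 1) × Fin (e + 1) → k)
    (hf : aeval (ptup a) (fA k d m) = 0) (hz : ∀ i, eval a (zA k d m e i) = 0) : a = 0 := by
  -- the linear equations
  have h1 : ∀ i : Fin d, ptup a (vx' d m i) = Polynomial.X * ptup a (vx d m i) := by
    intro i
    rw [← sub_eq_zero, ← map_tup a, ← map_tup a]
    have h2 : (tup k (2 * d + m) e (vx' d m i)).map (eval a) -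
        Polynomial.X * (tup k (2 * d + m) e (vx d m i)).map (eval a) =
        (tup k (2 * d + m) e (vx' d m i) -
          Polynomial.X * tup k (2 * d + m) e (vx d m i)).map (eval a) := by
      rw [Polynomial.map_sub, Polynomial.map_mul, Polynomial.map_X]
    rw [h2]
    ext j
    rw [Polynomial.coeff_map, Polynomial.coeff_zero]
    by_cases hj : j < e + 2
    · exact hz (Sum.inl (i, ⟨j, hj⟩))
    · rw [Polynomial.coeff_eq_zero_of_natDegree_lt, map_zero]
      have h3 := tup_natDegree (k := k) (2 * d + m) e (vx' d m i)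
      have h4 := tup_natDegree (k := k) (2 * d + m) e (vx d m i)
      have h5 : (Polynomial.X * tup k (2 * d + m) e (vx d m i)).natDegree ≤ e + 1 := by
        refine Polynomial.natDegree_mul_le.trans ?_
        have := Polynomial.natDegree_X_le (R := CoeffRing k (2 * d + m) e)
        omega
      have h6 := Polynomial.natDegree_sub_le (tup k (2 * d + m) e (vx' d m i))
        (Polynomial.X * tup k (2 * d + m) e (vx d m i))
      have h7 : max (tup k (2 * d + m) e (vx' d m i)).natDegree
        (Polynomial.X * tup k (2 * d + m) e (vx d m i)).natDegree ≤ e + 1 :=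
        max_le (h3.trans (Nat.le_succ _)) h5
      omega
  have h2 : ∀ t : Fin m, ptup a (vu d m t) = 0 := by
    intro t
    ext j
    rw [Polynomial.coeff_zero]
    by_cases hj : j < e + 1
    · have h3 := ptup_coeff a (vu d m t) ⟨j, hj⟩
      have h4 := hz (Sum.inr (t, ⟨j, hj⟩))
      have h5 : eval a (X (vu d m t, ⟨j, hj⟩) : CoeffRing k (2 * d + m) e) = 0 := h4
      rw [eval_X] at h5
      rw [← h5]
      exact h3
    · apply Polynomial.coeff_eq_zero_of_natDegree_lt
      have := ptup_natDegree a (vu d m t)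
      omega
  -- the equation
  have h3 : ∑ i : Fin (d + 1), Polynomial.X ^ (i : ℕ) *
      (Fin.cons (ptup a 0) (fun i => ptup a (vx d m i)) : Fin (d + 1) → Polynomial k) i ^ (d + 1)
      = 0 := by
    rw [← hf, Fin.sum_univ_succ]
    simp only [Fin.cons_zero, Fin.cons_succ, Fin.val_zero, pow_zero, one_mul, Fin.val_succ]
    unfold fA
    simp only [map_add, map_pow, map_sum, map_mul, aeval_X, h1]
    congr 1
    refine Finset.sum_congr rfl fun i _ => ?_
    have h4 : d - (i : ℕ) + ((i : ℕ) + 1) = d + 1 := by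
      have := i.2
      omega
    rw [mul_pow, ← h4, pow_add (ptup a (vx d m i)) (d - (i : ℕ))]
    ring
  have h4 := twist_zero (d + 1) _ h3
  apply eq_zero_of_ptup
  intro i
  have h5 : ptup a 0 = 0 := h4 0
  have h6 : ∀ i, ptup a (vx d m i) = 0 := fun i => h4 i.succ
  obtain ⟨i, hi⟩ := i
  rcases Nat.eq_zero_or_pos i with h | h
  · subst h
    exact h5
  · by_cases hi1 : i < d + 1
    · have : (⟨i, hi⟩ : Fin (2 * d + m + 1)) = vx d m ⟨i - 1, by omega⟩ := by
        apply Fin.ext
        simp only [vx]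
        omega
      rw [this]
      exact h6 _
    · by_cases hi2 : i < 2 * d + 1
      · have : (⟨i, hi⟩ : Fin (2 * d + m + 1)) = vx' d m ⟨i - (d + 1), by omega⟩ := by
          apply Fin.ext
          simp only [vx']
          omega
        rw [this, h1, h6, mul_zero]
      · have : (⟨i, hi⟩ : Fin (2 * d + m + 1)) = vu d m ⟨i - (2 * d + 1), by omega⟩ := by
          apply Fin.ext
          simp only [vu]
          omega
        rw [this]
        exact h2 _

/-- **Theorem A**: for `n ≥ 2 d - 2` the space of tuples of polynomials of degree at most `e` on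
the general hypersurface of degree `d` in `P^n` has the expected dimension. -/
theorem thmA [IsAlgClosed k] (n d e : ℕ) (hd : 1 ≤ d) (hn : 2 * d ≤ n + 2) :
    ForGeneral (k := k) n d (fun f => ∀ P ∈ (curveIdeal e f).minimalPrimes,
      ringKrullDim (CoeffRing k n e ⧸ P) = ((n + 1 - d) * e + n : ℕ)) := by
  obtain ⟨d, rfl⟩ : ∃ d', d = d' + 1 := ⟨d - 1, by omega⟩
  obtain ⟨m, rfl⟩ : ∃ m, n = 2 * d + m := ⟨n - 2 * d, by omega⟩
  have h1 : Fintype.card ((Fin d × Fin (e + 2)) ⊕ (Fin m × Fin (e + 1))) =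
      d * (e + 2) + m * (e + 1) := by simp
  have h2 : (2 * d + m + 1 - (d + 1)) * e + (2 * d + m) =
      Fintype.card ((Fin d × Fin (e + 2)) ⊕ (Fin m × Fin (e + 1))) := by
    rw [h1]
    have : 2 * d + m + 1 - (d + 1) = d + m := by omega
    rw [this]
    ring
  rw [h2]
  refine forGeneral_dim (zA k d m e) (fun _ => 1) (fun _ => one_pos) (zA_hom d m e) ?_
    (fA k d m) (fA_hom d m) (fun a ha hz => zeroA d m e a ha hz)
  rw [h1]
  ring

end Pool.Agent.Helper30.RC
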