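import Mathlib

/-!
RC-CMA.  Associated primes of a module with a long regular sequence have large dimension.

Proof (induction on `rs`, generalizing `M`).  `[]`: `p` is a proper ideal, so the dimension of
`R ⧸ p` is at least 0.  `x :: rs`: `isRegular_cons_iff` gives that `x` is `M`-regular and `rs` is
regular on `M' = QuotSMulTop x M`.  Let `U` be the submodule of all `v` in `M` with `p • v = 0`;
it is nonzero since `p` is the annihilator of a nonzero element.  If `U ≤ x • M`, then for `v` in
`U`, `v = x w`, and `p • (x w) = 0` gives `p • w = 0` because `x` is regular, so `w ∈ U`; hence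
`U ≤ x • U` and `U = 0` by Nakayama (`x` in the maximal ideal), a contradiction.  So there is `v`
in `U` not in `x • M`; its class in `M'` is nonzero and killed by `p` and by `x`, so its
annihilator, hence some associated prime `q` of `M'` (`exists_le_isAssociatedPrime_of_isNoetherianRing`),
contains `p` and `x`.  `x ∉ p` since elements of associated primes are zero divisors
(`biUnion_associatedPrimes_eq_compl_regular`), so `p < q`.  By induction the dimension of `R ⧸ q`
is at least `rs.length`, and the dimension of `R ⧸ p` is at least one more (prepend `p` to a chain;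
for example `ringKrullDim_quotient`, `Order.krullDim` of the zero locus and `LTSeries.cons`, or
apply `ringKrullDim_quotient_succ_le_of_nonZeroDivisor` in the domain `R ⧸ p` to a nonzero element
of `q / p` and monotonicity of the dimension under surjections).
-/

open scoped Pointwise

namespace Pool.Agent.Helper30.RC

universe u

theorem ass_dim {R : Type u} [CommRing R] [IsLocalRing R] [IsNoetherianRing R] (rs : List R)
    (hmem : ∀ r ∈ rs, r ∈ IsLocalRing.maximalIdeal R)
    (M : Type u) [AddCommGroup M] [Module R M] [Module.Finite R M]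
    (hreg : RingTheory.Sequence.IsRegular M rs)
    (p : Ideal R) (hp : p ∈ associatedPrimes R M) :
    ((rs.length : ℕ∞) : WithBot ℕ∞) ≤ ringKrullDim (R ⧸ p) := by
  induction rs generalizing M p with
  | nil =>
    have := hp.1
    have h0 : Nontrivial (R ⧸ p) := Ideal.Quotient.nontrivial_iff.2 this.ne_top
    simpa using ringKrullDim_nonneg_of_nontrivial (R := R ⧸ p)
  | cons x rs ih =>
    have hp' := (isAssociatedPrime_iff (R := R) (M := M)).1 hp
    obtain ⟨hpp, m, hm⟩ := hp'
    rw [RingTheory.Sequence.isRegular_cons_iff] at hreg
    obtain ⟨hx, hreg'⟩ := hreg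
    have hpm : ∀ a, a ∈ p ↔ a • m = 0 := fun a => by
      rw [hm, Submodule.mem_colon_singleton, Submodule.mem_bot]
    have hm0 : m ≠ 0 := fun h => hpp.ne_top ((Ideal.eq_top_iff_one p).2 ((hpm 1).2 (by rw [h, smul_zero])))
    have hxm : x ∈ IsLocalRing.maximalIdeal R := hmem x List.mem_cons_self
    let U : Submodule R M := Submodule.torsionBySet R M (p : Set R)
    have hU : ∀ v, v ∈ U ↔ ∀ a ∈ p, a • v = 0 := fun v => by
      rw [Submodule.mem_torsionBySet_iff]
      exact ⟨fun h a ha => h ⟨a, ha⟩, fun h a => h a a.2⟩
    have hmU : m ∈ U := (hU m).2 fun a ha => (hpm a).1 ha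
    have hex : ∃ v ∈ U, v ∉ (x • (⊤ : Submodule R M)) := by
      by_contra hcon
      push Not at hcon
      have hle : U ≤ Ideal.span {x} • U := by
        intro v hv
        obtain ⟨w, -, hw⟩ := Submodule.mem_smul_pointwise_iff_exists _ _ _ |>.1 (hcon v hv)
        have hwU : w ∈ U := by
          rw [hU]
          intro a ha
          apply hx
          show x • a • w = x • (0 : M)
          rw [smul_zero, smul_comm, hw]
          exact (hU v).1 hv a ha
        rw [← hw]
        exact Submodule.smul_mem_smul (Ideal.mem_span_singleton_self x) hwU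
      have hbot := Submodule.eq_bot_of_le_smul_of_le_jacobson_bot (Ideal.span {x}) U
        (IsNoetherian.noetherian U) hle (by
          rw [IsLocalRing.jacobson_eq_maximalIdeal ⊥ bot_ne_top]
          exact (Ideal.span_singleton_le_iff_mem _).2 hxm)
      rw [hbot, Submodule.mem_bot] at hmU
      exact hm0 hmU
    obtain ⟨v, hvU, hv⟩ := hex
    have hv0 : (Submodule.Quotient.mk v : QuotSMulTop x M) ≠ 0 := by
      rwa [Ne, Submodule.Quotient.mk_eq_zero]
    obtain ⟨q, hq, hle⟩ := exists_le_isAssociatedPrime_of_isNoetherianRing R
      (Submodule.Quotient.mk v : QuotSMulTop x M) hv0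
    have hpq : p ≤ q := by
      intro a ha
      apply hle
      rw [Submodule.mem_colon_singleton, Submodule.mem_bot, ← Submodule.Quotient.mk_smul,
        (hU v).1 hvU a ha, Submodule.Quotient.mk_zero]
    have hxq : x ∈ q := by
      apply hle
      rw [Submodule.mem_colon_singleton, Submodule.mem_bot, ← Submodule.Quotient.mk_smul,
        Submodule.Quotient.mk_eq_zero]
      exact Submodule.smul_mem_pointwise_smul _ _ _ Submodule.mem_top
    have hxp : x ∉ p := fun h => hm0 (hx (show x • m = x • (0 : M) by
      rw [smul_zero, (hpm x).1 h]))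
    have h1 := ih (fun r hr => hmem r (List.mem_cons_of_mem _ hr)) (QuotSMulTop x M) hreg' q hq
    have h2 : ringKrullDim (R ⧸ q) + 1 ≤ ringKrullDim (R ⧸ p) := by
      refine ringKrullDim_succ_le_of_surjective (Ideal.Quotient.factor hpq)
        (Ideal.Quotient.factor_surjective hpq) (r := Ideal.Quotient.mk p x) ?_ ?_
      · rw [mem_nonZeroDivisors_iff_ne_zero]
        rwa [Ne, Ideal.Quotient.eq_zero_iff_mem]
      · rw [Ideal.Quotient.factor_mk, Ideal.Quotient.eq_zero_iff_mem]
        exact hxq
    refine le_trans ?_ h2
    rw [List.length_cons]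
    push_cast
    gcongr
    exact_mod_cast h1

end Pool.Agent.Helper30.RC
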