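import Mathlib

/-!
RC-CMD.  Dividing by a regular element lowers the length of the regular sequences by one.

Proof: the Rees theorem of Mathlib, `ModuleCat.exists_isRegular_tfae`
(file Mathlib/RingTheory/Depth/Rees.lean), with `I` the maximal ideal.  From `rs` (condition 4)
for `M` we get `Subsingleton (Ext N M i)` for `i < rs.length` (condition 3 or 1, with `N = R ⧸ m`,
or `Shrink`).  The long exact sequence of `0 → M → M → M / x M → 0` (see the proof of
`ModuleCat.exists_isRegular_of_exists_subsingleton_ext` in that file, the step `h_ext'`: the same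
lines with `x` instead of `x ^ k`) gives `Subsingleton (Ext N (M / x M) i)` for `i < n`, and the
Rees theorem for `M / x M` gives `rs'`.  `I • ⊤ < ⊤` for `M / x M` by Nakayama (`M / x M` is
nontrivial because `M` is and `x` is in the maximal ideal).
-/

namespace Pool.Agent.Helper30.RC

universe u

open CategoryTheory Abelian IsSMulRegular Pointwise in
theorem depth_drop {R : Type u} [CommRing R] [IsLocalRing R] [IsNoetherianRing R]
    (M : Type u) [AddCommGroup M] [Module R M] [Module.Finite R M] (x : R)
    (hx : x ∈ IsLocalRing.maximalIdeal R) (hxM : IsSMulRegular M x) (rs : List R)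
    (hmem : ∀ r ∈ rs, r ∈ IsLocalRing.maximalIdeal R)
    (hreg : RingTheory.Sequence.IsRegular M rs) (n : ℕ) (hn : rs.length = n + 1) :
    ∃ rs' : List R, rs'.length = n ∧ (∀ r ∈ rs', r ∈ IsLocalRing.maximalIdeal R) ∧
      RingTheory.Sequence.IsRegular (QuotSMulTop x M) rs' := by
  have hM : Nontrivial M := by
    rw [← Submodule.nontrivial_iff R]
    exact ⟨⟨_, _, hreg.top_ne_smul⟩⟩
  have key : ∀ (P : Type u) [AddCommGroup P] [Module R P] [Module.Finite R P] [Nontrivial P],
      IsLocalRing.maximalIdeal R • (⊤ : Submodule R P) < ⊤ := by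
    intro P _ _ _ _
    exact lt_top_iff_ne_top.2 (Submodule.top_ne_ideal_smul_of_le_jacobson_annihilator
      (IsLocalRing.maximalIdeal_le_jacobson _)).symm
  have hQ : Nontrivial (QuotSMulTop x M) := _root_.nontrivial_quotSMulTop_of_mem_maximalIdeal M hx
  let N : ModuleCat.{u} R := ModuleCat.of R (R ⧸ IsLocalRing.maximalIdeal R)
  have hsupp : Module.support R N = PrimeSpectrum.zeroLocus (IsLocalRing.maximalIdeal R) := by
    show Module.support R (R ⧸ IsLocalRing.maximalIdeal R) = _
    rw [Module.support_eq_zeroLocus, Ideal.annihilator_quotient]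
  have hfin : Module.Finite R N := inferInstanceAs (Module.Finite R (R ⧸ IsLocalRing.maximalIdeal R))
  have h1 := ModuleCat.subsingleton_ext_of_exists_isRegular (IsLocalRing.maximalIdeal R) N
    hsupp.subset (ModuleCat.of R M) (key M) rs hmem hreg
  have h2 : ∀ i < n, Subsingleton (Ext N (ModuleCat.of R (QuotSMulTop x M)) i) := by
    intro i hi
    have zero1 := AddCommGrpCat.isZero_of_iff_subsingleton.mpr (h1 i (by omega))
    have zero2 := AddCommGrpCat.isZero_of_iff_subsingleton.mpr (h1 (i + 1) (by omega))
    exact AddCommGrpCat.subsingleton_of_isZero <| ShortComplex.Exact.isZero_of_both_zeros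
      ((Ext.covariant_sequence_exact₃' N (IsSMulRegular.smulShortComplex_shortExact
        (M := ModuleCat.of R M) hxM)) i (i + 1) rfl)
      (zero1.eq_zero_of_src _) (zero2.eq_zero_of_tgt _)
  exact ModuleCat.exists_isRegular_of_exists_subsingleton_ext (IsLocalRing.maximalIdeal R) n
    (ModuleCat.of R (QuotSMulTop x M)) (key (QuotSMulTop x M)) N hsupp h2

end Pool.Agent.Helper30.RC
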