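import Mathlib
import Pool.Agent.Helper30.RC.CMA
import Pool.Agent.Helper30.RC.CMD

/-!
RC-CML.  Over a local ring, if `M` has a regular sequence `rs` in the maximal ideal, then every
system of parameters `ys` of the same length is regular (`M` is Cohen-Macaulay).

Proof: induction on `ys`, generalizing `M` and `rs`.  `[]`: `M` is nontrivial.  `y :: ys`:
(1) `y` is `M`-regular: otherwise `y` lies in an associated prime `p` of `M`
(`biUnion_associatedPrimes_eq_compl_regular`).  By `ass_dim` the dimension of `R ⧸ p` is at least
`ys.length + 1`.  But in the local ring `R ⧸ p` (with maximal ideal the image of `m`) the images of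
`ys` generate an ideal contained in no prime but the maximal one (a prime of `R` containing `p` and
all of `ys` contains `y` too and lies in the support of `M`, because `p` does and the support is
stable under specialization), so the quotient has dimension 0
and `ringKrullDim_le_ringKrullDim_quotient_add_encard` (or `..._add_card`) gives
`ringKrullDim (R ⧸ p) ≤ ys.length`.  Contradiction.
(2) `depth_drop` gives a regular sequence of length `ys.length` on `M' = QuotSMulTop y M`, which is
nontrivial and finite; `Module.support_quotSMulTop` describes its support, so the hypothesis holds for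
`M'` and `ys`.  By induction `ys` is regular on `M'`, and `isRegular_cons_iff` finishes.
-/

namespace Pool.Agent.Helper30.RC

universe u

private lemma quot_dim46 {R : Type u} [CommRing R] [IsLocalRing R] [IsNoetherianRing R]
    (p : Ideal R) [p.IsPrime] (ys : List R) (hys : ∀ y ∈ ys, y ∈ IsLocalRing.maximalIdeal R)
    (h : ∀ q : Ideal R, q.IsPrime → p ≤ q → (∀ y ∈ ys, y ∈ q) → q = IsLocalRing.maximalIdeal R) :
    ringKrullDim (R ⧸ p) ≤ (ys.length : ℕ∞) := by
  classical
  have : IsLocalRing (R ⧸ p) := IsLocalRing.of_surjective' (Ideal.Quotient.mk p)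
    Ideal.Quotient.mk_surjective
  set s : Finset (R ⧸ p) := (ys.map (Ideal.Quotient.mk p)).toFinset with hs
  have hcard : s.card ≤ ys.length := by
    rw [hs]
    refine (List.toFinset_card_le _).trans ?_
    rw [List.length_map]
  have hmax : IsLocalRing.maximalIdeal (R ⧸ p) =
      (IsLocalRing.maximalIdeal R).map (Ideal.Quotient.mk p) := by
    rcases Ideal.map_eq_top_or_isMaximal_of_surjective (Ideal.Quotient.mk p)
      Ideal.Quotient.mk_surjective (IsLocalRing.maximalIdeal.isMaximal R) with h1 | h1
    · exfalso
      have h2 : (1 : R ⧸ p) ∈ (IsLocalRing.maximalIdeal R).map (Ideal.Quotient.mk p) := by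
        rw [h1]
        trivial
      obtain ⟨z, hz, hz1⟩ := (Ideal.mem_map_iff_of_surjective _ Ideal.Quotient.mk_surjective).1 h2
      have h3 : z - 1 ∈ p := Ideal.Quotient.eq.1 (by rw [hz1, map_one])
      have h4 : z - 1 ∈ IsLocalRing.maximalIdeal R :=
        IsLocalRing.le_maximalIdeal (Ideal.IsPrime.ne_top inferInstance) h3
      have h5 : (1 : R) ∈ IsLocalRing.maximalIdeal R := by
        have := Ideal.sub_mem _ hz h4
        rwa [sub_sub_cancel] at this
      exact (Ideal.ne_top_iff_one _).1 (IsLocalRing.maximalIdeal.isMaximal R).ne_top h5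
    · exact (IsLocalRing.eq_maximalIdeal h1).symm
  have hsub : (s : Set (R ⧸ p)) ⊆ Ring.jacobson (R ⧸ p) := by
    rw [IsLocalRing.ringJacobson_eq_maximalIdeal, hmax]
    intro z hz
    rw [hs] at hz
    simp only [List.coe_toFinset, List.mem_map, Set.mem_ofPred_eq] at hz
    obtain ⟨y, hy, rfl⟩ := hz
    exact Ideal.mem_map_of_mem _ (hys y hy)
  have h0 : ringKrullDim ((R ⧸ p) ⧸ Ideal.span (s : Set (R ⧸ p))) ≤ 0 := by
    have h1 : Ring.KrullDimLE 0 ((R ⧸ p) ⧸ Ideal.span (s : Set (R ⧸ p))) := by
      rw [Ring.krullDimLE_zero_iff]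
      intro Q hQ
      set φ : R →+* (R ⧸ p) ⧸ Ideal.span (s : Set (R ⧸ p)) :=
        (Ideal.Quotient.mk (Ideal.span (s : Set (R ⧸ p)))).comp (Ideal.Quotient.mk p) with hφ
      have hφs : Function.Surjective φ :=
        Ideal.Quotient.mk_surjective.comp Ideal.Quotient.mk_surjective
      have h2 : Q.comap φ = IsLocalRing.maximalIdeal R := by
        refine h _ (Ideal.comap_isPrime φ Q) ?_ ?_
        · intro z hz
          rw [Ideal.mem_comap, hφ, RingHom.comp_apply, Ideal.Quotient.eq_zero_iff_mem.2 hz, map_zero]
          exact Q.zero_mem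
        · intro y hy
          rw [Ideal.mem_comap, hφ, RingHom.comp_apply, Ideal.Quotient.eq_zero_iff_mem.2]
          · exact Q.zero_mem
          · apply Ideal.subset_span
            rw [hs]
            simp only [List.coe_toFinset, List.mem_map, Set.mem_ofPred_eq]
            exact ⟨y, hy, rfl⟩
      have h3 : Q = (IsLocalRing.maximalIdeal R).map φ := by
        rw [← h2, Ideal.map_comap_of_surjective φ hφs]
      rcases Ideal.map_eq_top_or_isMaximal_of_surjective φ hφs
        (IsLocalRing.maximalIdeal.isMaximal R) with h4 | h4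
      · exact absurd (h3.trans h4) hQ.ne_top
      · rw [h3]
        exact h4
    exact_mod_cast (Ring.krullDimLE_iff.1 h1)
  calc ringKrullDim (R ⧸ p)
      ≤ ringKrullDim ((R ⧸ p) ⧸ Ideal.span (s : Set (R ⧸ p))) + s.card :=
        ringKrullDim_le_ringKrullDim_quotient_add_card s hsub
    _ ≤ 0 + (ys.length : ℕ∞) := by
        gcongr
        exact_mod_cast hcard
    _ = (ys.length : ℕ∞) := zero_add _

theorem local_cm {R : Type u} [CommRing R] [IsLocalRing R] [IsNoetherianRing R] (ys : List R)
    (hys : ∀ y ∈ ys, y ∈ IsLocalRing.maximalIdeal R)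
    (M : Type u) [AddCommGroup M] [Module R M] [Module.Finite R M] [Nontrivial M] (rs : List R)
    (hmem : ∀ r ∈ rs, r ∈ IsLocalRing.maximalIdeal R)
    (hreg : RingTheory.Sequence.IsRegular M rs) (hlen : ys.length = rs.length)
    (hsupp : ∀ p : PrimeSpectrum R, p ∈ Module.support R M → (∀ y ∈ ys, y ∈ p.asIdeal) →
      p.asIdeal = IsLocalRing.maximalIdeal R) :
    RingTheory.Sequence.IsRegular M ys := by
  induction ys generalizing M rs with
  | nil => exact RingTheory.Sequence.IsRegular.nil R M
  | cons y ys ih =>
    have hy : y ∈ IsLocalRing.maximalIdeal R := hys y List.mem_cons_self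
    have hys' : ∀ z ∈ ys, z ∈ IsLocalRing.maximalIdeal R :=
      fun z hz => hys z (List.mem_cons_of_mem _ hz)
    rw [List.length_cons] at hlen
    have hyreg : IsSMulRegular M y := by
      by_contra hcon
      have h1 : y ∈ ({r : R | IsSMulRegular M r}ᶜ : Set R) := hcon
      rw [← biUnion_associatedPrimes_eq_compl_regular R M] at h1
      simp only [Set.mem_iUnion, SetLike.mem_coe, exists_prop] at h1
      obtain ⟨p, hp, hyp⟩ := h1
      have hpp : p.IsPrime := IsAssociatedPrime.isPrime hp
      have h2 := ass_dim rs hmem M hreg p hp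
      have h3 : ringKrullDim (R ⧸ p) ≤ (ys.length : ℕ∞) := by
        apply quot_dim46 p ys hys'
        intro q hq hpq hyq
        refine hsupp ⟨q, hq⟩ ?_ ?_
        · rw [Module.mem_support_iff_of_finite]
          refine le_trans ?_ hpq
          rw [← Submodule.annihilator_top]
          exact IsAssociatedPrime.annihilator_le hp
        · intro z hz
          rcases List.mem_cons.1 hz with rfl | hz
          · exact hpq hyp
          · exact hyq z hz
      have h4 := h2.trans h3
      rw [← hlen] at h4
      have h5 : ((ys.length + 1 : ℕ) : ℕ∞) ≤ (ys.length : ℕ∞) := by exact_mod_cast h4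
      have h6 : ys.length + 1 ≤ ys.length := by exact_mod_cast h5
      omega
    obtain ⟨rs', hl', hm', hr'⟩ := depth_drop M y hy hyreg rs hmem hreg ys.length hlen.symm
    have : Nontrivial (QuotSMulTop y M) := hr'.nontrivial
    rw [RingTheory.Sequence.isRegular_cons_iff]
    refine ⟨hyreg, ih hys' (QuotSMulTop y M) rs' hm' hr' hl'.symm ?_⟩
    intro q hq hyq
    rw [Module.support_quotSMulTop] at hq
    refine hsupp q hq.1 fun z hz => ?_
    rcases List.mem_cons.1 hz with rfl | hz
    · exact hq.2 rfl
    · exact hyq z hz

end Pool.Agent.Helper30.RC
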