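import Mathlib
import Pool.Agent.Helper30.RC.Gr
import Pool.Agent.Helper30.RC.CML

/-!
RC-CMG.  `N` forms of positive degree in `N` variables with a finite dimensional quotient form a
regular sequence.

Proof.  Let `R = MvPolynomial τ k`, `m` the ideal of the variables (maximal), `S` its localization.
The list of the variables is weakly regular on `R` (`R ⧸ (X_1, ..., X_i)` is a polynomial ring; or:
induction, a polynomial times `X_{i+1}` lies in `(X_1, ..., X_i)` iff every monomial does, using
`mem_ideal_span_X_image`) so it is regular on `S` (`IsWeaklyRegular.of_isLocalization`,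
`IsWeaklyRegular.isRegular_of_isLocalization_of_mem`, or flatness).
`local_cm` with `M = S`, `ys` = the image of `l`: a prime of `S` containing the `ys` contains
`m ^ E`, hence is the maximal ideal.  So the image of `l` is regular on `S`.
Back to `R`: let `l = l₁ ++ y :: l₂`, `J = Ideal.ofList l₁` (homogeneous, see
`isHomogeneous_span` in Gr.lean), and `y x ∈ J`.  The homogeneous components satisfy
`y x_D ∈ J` (`hc_mul`, `homogeneousComponent_mem_of_mem`), so we may assume `x` homogeneous of degree
`D`.  In `S` we get `x ∈ J S`, so `s x ∈ J` for some `s ∉ m`; the component of degree `D` of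
`s x` is `s(0) x` with `s(0) ≠ 0`, so `x ∈ J`.
-/

namespace Pool.Agent.Helper30.RC

open MvPolynomial

attribute [local instance] MvPolynomial.gradedAlgebra

universe u

private lemma weak38 {R : Type*} [CommRing R] (rs : List R) :
    RingTheory.Sequence.IsWeaklyRegular R rs ↔
      ∀ i (h : i < rs.length), ∀ x : R, rs[i] * x ∈ Ideal.ofList (rs.take i) →
        x ∈ Ideal.ofList (rs.take i) := by
  rw [RingTheory.Sequence.isWeaklyRegular_iff]
  refine forall_congr' fun i => forall_congr' fun h => ?_
  rw [isSMulRegular_quotient_iff_mem_of_smul_mem]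
  simp only [smul_eq_mul, Ideal.mul_top]

private lemma vars38 {k : Type*} [Field k] {τ : Type*} (L : List τ) (hL : L.Nodup) :
    RingTheory.Sequence.IsWeaklyRegular (MvPolynomial τ k)
      (L.map (X : τ → MvPolynomial τ k)) := by
  classical
  rw [weak38]
  intro i hi x hx
  rw [List.length_map] at hi
  have he : Ideal.ofList ((L.map (X : τ → MvPolynomial τ k)).take i) =
      Ideal.span ((X : τ → MvPolynomial τ k) '' {t | t ∈ L.take i}) := by
    rw [← List.map_take]
    show Ideal.span {r | r ∈ List.map (X : τ → MvPolynomial τ k) (L.take i)} = _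
    congr 1
    ext p
    show p ∈ List.map (X : τ → MvPolynomial τ k) (L.take i) ↔ _
    rw [List.mem_map]
    rfl
  rw [he, mem_ideal_span_X_image] at hx ⊢
  rw [List.getElem_map] at hx
  intro m hm
  obtain ⟨t, ht, h1⟩ := hx (m + Finsupp.single L[i] 1) (by
    rw [mem_support_iff, mul_comm, coeff_mul_X]
    exact mem_support_iff.1 hm)
  refine ⟨t, ht, ?_⟩
  have hne : t ≠ L[i] := by
    rintro rfl
    have h2 : L[i] ∈ L.take i := ht
    rw [List.mem_take_iff_getElem] at h2
    obtain ⟨j, hj, h3⟩ := h2
    have h4 := (List.Nodup.getElem_inj_iff hL).1 h3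
    omega
  rw [Finsupp.add_apply, Finsupp.single_eq_of_ne hne, add_zero] at h1
  exact h1

private lemma mem38 {k : Type*} [Field k] {τ : Type*} (p : MvPolynomial τ k) :
    p ∈ mx τ k ↔ coeff 0 p = 0 := by
  have h := mem_pow_idealOfVars_iff' (σ := τ) (R := k) 1 p
  rw [pow_one] at h
  rw [h]
  constructor
  · intro h1
    exact h1 0 (by simp)
  · intro h1 x hx
    have h2 : x = 0 := by
      rw [← Finsupp.degree_eq_zero_iff]
      omega
    rw [h2, h1]

private lemma max38 (k : Type*) [Field k] (τ : Type*) : (mx τ k).IsMaximal := by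
  have h : mx τ k = RingHom.ker (constantCoeff : MvPolynomial τ k →+* k) := by
    ext p
    rw [mem38, RingHom.mem_ker, constantCoeff_eq]
  rw [h]
  exact RingHom.ker_isMaximal_of_surjective _ fun c => ⟨C c, by simp⟩

private lemma hom38 {k : Type*} [Field k] {τ : Type*} (l : List (MvPolynomial τ k))
    (hhom : ∀ y ∈ l, ∃ s, 0 < s ∧ y.IsHomogeneous s) :
    (Ideal.ofList l).IsHomogeneous (homogeneousSubmodule τ k) := by
  apply Ideal.homogeneous_span
  intro y hy
  obtain ⟨s, -, hs⟩ := hhom y hy
  exact ⟨s, hs⟩

theorem graded_regular {k : Type u} [Field k] {τ : Type u} [Finite τ]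
    (l : List (MvPolynomial τ k)) (hlen : l.length = Nat.card τ)
    (hhom : ∀ y ∈ l, ∃ s, 0 < s ∧ y.IsHomogeneous s) (E : ℕ)
    (hE : (mx τ k) ^ E ≤ Ideal.ofList l) :
    RingTheory.Sequence.IsWeaklyRegular (MvPolynomial τ k) l := by
  classical
  have := Fintype.ofFinite τ
  have hmax : (mx τ k).IsMaximal := max38 k τ
  have hprime : (mx τ k).IsPrime := hmax.isPrime
  set S := Localization.AtPrime (mx τ k) with hS
  have hlm : ∀ y ∈ l, y ∈ mx τ k := by
    intro y hy
    obtain ⟨s, hs, hh⟩ := hhom y hy
    rw [mem38]
    apply hh.coeff_eq_zero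
    simp only [map_zero]
    omega
  have hvars := vars38 (k := k) (Finset.univ : Finset τ).toList (Finset.nodup_toList _)
  have hvm : ∀ r ∈ (Finset.univ : Finset τ).toList.map (X : τ → MvPolynomial τ k),
      r ∈ mx τ k := by
    intro r hr
    obtain ⟨t, -, rfl⟩ := List.mem_map.1 hr
    exact Ideal.subset_span ⟨t, rfl⟩
  have hreg := hvars.isRegular_of_isLocalization_of_mem S (mx τ k) hvm
  have hloc := local_cm (R := S) (l.map (algebraMap (MvPolynomial τ k) S))
    (by
      intro y hy
      obtain ⟨r, hr, rfl⟩ := List.mem_map.1 hy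
      rw [IsLocalization.AtPrime.to_map_mem_maximal_iff S (mx τ k)]
      exact hlm r hr)
    S _
    (by
      intro y hy
      obtain ⟨r, hr, rfl⟩ := List.mem_map.1 hy
      rw [IsLocalization.AtPrime.to_map_mem_maximal_iff S (mx τ k)]
      exact hvm r hr)
    hreg
    (by
      rw [List.length_map, List.length_map, List.length_map, Finset.length_toList, hlen,
        Finset.card_univ, Nat.card_eq_fintype_card])
    (by
      intro p _ hp
      apply le_antisymm (IsLocalRing.le_maximalIdeal p.2.ne_top)
      rw [← Localization.AtPrime.map_eq_maximalIdeal]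
      have hpp := p.2
      apply Ideal.IsPrime.le_of_pow_le (n := E)
      rw [← Ideal.map_pow]
      refine (Ideal.map_mono hE).trans ?_
      rw [Ideal.map_ofList]
      exact Ideal.span_le.2 hp)
  have hw := (weak38 _).1 hloc.toIsWeaklyRegular
  rw [weak38]
  intro i hi x hx
  set J := Ideal.ofList (l.take i) with hJ
  have hJh : J.IsHomogeneous (homogeneousSubmodule τ k) :=
    hom38 _ fun y hy => hhom y (List.mem_of_mem_take hy)
  obtain ⟨s, hs, hys⟩ := hhom l[i] (List.getElem_mem hi)
  have key : ∀ D, homogeneousComponent D x ∈ J := by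
    intro D
    have h1 := homogeneousComponent_mem_of_mem hJh hx (s + D)
    rw [mul_comm, hc_mul hys x (by omega), Nat.add_sub_cancel_left] at h1
    have h2 : algebraMap (MvPolynomial τ k) S (homogeneousComponent D x) ∈
        J.map (algebraMap (MvPolynomial τ k) S) := by
      have h3 := hw i (by rw [List.length_map]; exact hi)
        (algebraMap (MvPolynomial τ k) S (homogeneousComponent D x))
      rw [← List.map_take, ← Ideal.map_ofList, List.getElem_map, ← map_mul] at h3
      apply h3
      apply Ideal.mem_map_of_mem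
      rw [mul_comm]
      exact h1
    rw [IsLocalization.algebraMap_mem_map_algebraMap_iff (mx τ k).primeCompl] at h2
    obtain ⟨t, ht, h3⟩ := h2
    have h4 := homogeneousComponent_mem_of_mem hJh h3 D
    rw [hc_mul (homogeneousComponent_isHomogeneous D x) t le_rfl, Nat.sub_self,
      homogeneousComponent_zero] at h4
    have h5 : coeff 0 t ≠ 0 := fun h => ht ((mem38 t).2 h)
    have h6 := J.mul_mem_left (C (coeff 0 t)⁻¹) h4
    rw [← mul_assoc, ← C_mul, inv_mul_cancel₀ h5, C_1, one_mul] at h6
    exact h6
  rw [← sum_homogeneousComponent x]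
  exact J.sum_mem fun D _ => key D

end Pool.Agent.Helper30.RC
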