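import Mathlib
import Pool.Agent.Helper30.RC.Gr

/-!
RC-HFE.  The Hilbert function of a quotient by a regular sequence of forms depends only on the
degrees.

Proof.  For an ideal `J` let `gp J D` be the space of forms of degree `D` in `J` (a finite
dimensional space).  If `J` is homogeneous, `y` is a form of degree `w` and `y` is regular modulo
`J` (`y x ∈ J → x ∈ J`), then with `J' = J ⊔ span {y}`:
`dim gp J' D = dim gp J D` for `D < w`, and for `D ≥ w`
`dim gp J' D + dim gp J (D - w) = dim gp J D + dim (forms of degree D - w)`: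
the map `u ↦ y u` from the forms of degree `D - w` to `gp J' D / gp J D` is surjective
(homogeneous components, `hc_mul`) with kernel `gp J (D - w)`.  So `dim gp (Ideal.ofList l) D` is
determined by the degrees by induction along the list: prove for all `D` simultaneously by
induction from the right end (`List.reverseRecOn`, `List.concat`, `Ideal.ofList_append`,
`isWeaklyRegular_append_iff`), or formulate as: for ideals `J₁, J₂` with equal dimensions of all
`gp`, homogeneous, and lists weakly regular on `R ⧸ J₁`, `R ⧸ J₂`, and induct on the lists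
with `J₁, J₂` general.  `IsWeaklyRegular` may be unfolded by `isWeaklyRegular_iff`.
-/

namespace Pool.Agent.Helper30.RC

open MvPolynomial

universe u v

/-- the forms of degree `D` in `J` -/
noncomputable def gp {k : Type u} [Field k] {τ : Type v} (J : Ideal (MvPolynomial τ k)) (D : ℕ) :
    Submodule k (MvPolynomial τ k) :=
  (J.restrictScalars k) ⊓ homogeneousSubmodule τ k D

section

attribute [local instance] MvPolynomial.gradedAlgebra

variable {k : Type u} [Field k] {τ : Type v}

private theorem mem_gp_h75 {J : Ideal (MvPolynomial τ k)} {D : ℕ} {f : MvPolynomial τ k} :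
    f ∈ gp J D ↔ f ∈ J ∧ f.IsHomogeneous D := Iff.rfl

private theorem fin_h75 [Finite τ] (D : ℕ) : Module.Finite k (homogeneousSubmodule τ k D) :=
  Module.Finite.iff_fg.2 (homogeneousSubmodule_fg τ k D)

private theorem fin_gp_h75 [Finite τ] (J : Ideal (MvPolynomial τ k)) (D : ℕ) :
    Module.Finite k (gp J D) := by
  haveI := fin_h75 (k := k) (τ := τ) D
  exact Submodule.finiteDimensional_of_le (inf_le_right : gp J D ≤ homogeneousSubmodule τ k D)

private theorem step_lt_h75 {J : Ideal (MvPolynomial τ k)}
    (hJ : J.IsHomogeneous (homogeneousSubmodule τ k)) {y : MvPolynomial τ k} {s : ℕ}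
    (hy : y.IsHomogeneous s) {D : ℕ} (hD : ¬ s ≤ D) : gp (J ⊔ Ideal.span {y}) D = gp J D := by
  apply le_antisymm
  · intro f hf
    rw [mem_gp_h75] at hf ⊢
    refine ⟨?_, hf.2⟩
    obtain ⟨a, ha, b, hb, hab⟩ := Submodule.mem_sup.1 hf.1
    obtain ⟨v, rfl⟩ := Ideal.mem_span_singleton'.1 hb
    have h1 : f = homogeneousComponent D a + homogeneousComponent D (v * y) := by
      rw [← map_add, hab]
      exact (homogeneousComponent_eq_self hf.2).symm
    rw [hc_mul_zero hy v hD, add_zero] at h1
    rw [h1]
    exact homogeneousComponent_mem_of_mem hJ ha D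
  · intro f hf
    exact ⟨(le_sup_left : J ≤ _) hf.1, hf.2⟩

private theorem step_ge_h75 [Finite τ] {J : Ideal (MvPolynomial τ k)}
    (hJ : J.IsHomogeneous (homogeneousSubmodule τ k)) {y : MvPolynomial τ k} {s : ℕ}
    (hy : y.IsHomogeneous s) (hreg : ∀ x, x * y ∈ J → x ∈ J) {D : ℕ} (hD : s ≤ D) :
    Module.finrank k (gp (J ⊔ Ideal.span {y}) D) + Module.finrank k (gp J (D - s)) =
      Module.finrank k (gp J D) + Module.finrank k (homogeneousSubmodule τ k (D - s)) := by
  haveI h1 := fin_h75 (k := k) (τ := τ) (D - s)
  haveI h2 := fin_gp_h75 J D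
  by_cases hy0 : y = 0
  · have hJt : J = ⊤ := by
      rw [Ideal.eq_top_iff_one]
      apply hreg
      rw [hy0, mul_zero]
      exact J.zero_mem
    have h3 : gp J (D - s) = homogeneousSubmodule τ k (D - s) := by
      apply le_antisymm inf_le_right
      intro f hf
      exact ⟨by rw [hJt]; exact Submodule.mem_top, hf⟩
    rw [h3, hJt, top_sup_eq]
  · have hinj : Function.Injective (LinearMap.mulRight k y) := by
      intro a b hab
      exact mul_right_cancel₀ hy0 hab
    have e1 : gp (J ⊔ Ideal.span {y}) D =
        gp J D ⊔ (homogeneousSubmodule τ k (D - s)).map (LinearMap.mulRight k y) := by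
      apply le_antisymm
      · intro f hf
        rw [mem_gp_h75] at hf
        obtain ⟨a, ha, b, hb, hab⟩ := Submodule.mem_sup.1 hf.1
        obtain ⟨v, rfl⟩ := Ideal.mem_span_singleton'.1 hb
        have h1 : f = homogeneousComponent D a + homogeneousComponent D (v * y) := by
          rw [← map_add, hab]
          exact (homogeneousComponent_eq_self hf.2).symm
        rw [hc_mul hy v hD] at h1
        rw [h1]
        refine Submodule.add_mem_sup ?_ ?_
        · exact ⟨homogeneousComponent_mem_of_mem hJ ha D, homogeneousComponent_isHomogeneous _ _⟩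
        · exact ⟨homogeneousComponent (D - s) v, homogeneousComponent_isHomogeneous _ _, rfl⟩
      · refine sup_le ?_ ?_
        · intro f hf
          exact ⟨(le_sup_left : J ≤ _) hf.1, hf.2⟩
        · rintro _ ⟨x, hx, rfl⟩
          refine ⟨?_, ?_⟩
          · exact (le_sup_right : Ideal.span {y} ≤ _)
              (Ideal.mul_mem_left _ x (Ideal.subset_span rfl))
          · have h4 : (x * y).IsHomogeneous (D - s + s) := MvPolynomial.IsHomogeneous.mul hx hy
            rw [Nat.sub_add_cancel hD] at h4
            exact h4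
    have e2 : gp J D ⊓ (homogeneousSubmodule τ k (D - s)).map (LinearMap.mulRight k y) =
        (gp J (D - s)).map (LinearMap.mulRight k y) := by
      apply le_antisymm
      · rintro _ ⟨hf, x, hx, rfl⟩
        exact ⟨x, ⟨hreg x hf.1, hx⟩, rfl⟩
      · rintro _ ⟨x, hx, rfl⟩
        refine ⟨⟨J.mul_mem_right y hx.1, ?_⟩, ⟨x, hx.2, rfl⟩⟩
        have h4 : (x * y).IsHomogeneous (D - s + s) := MvPolynomial.IsHomogeneous.mul hx.2 hy
        rw [Nat.sub_add_cancel hD] at h4
        exact h4
    have e3 := Submodule.finrank_sup_add_finrank_inf_eq (gp J D)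
      ((homogeneousSubmodule τ k (D - s)).map (LinearMap.mulRight k y))
    rw [← e1, e2] at e3
    rw [← (Submodule.equivMapOfInjective _ hinj (gp J (D - s))).finrank_eq,
      ← (Submodule.equivMapOfInjective _ hinj (homogeneousSubmodule τ k (D - s))).finrank_eq] at e3
    exact e3

private theorem hom_ofList_h75 (l : List (MvPolynomial τ k))
    (h : ∀ y ∈ l, ∃ s, y.IsHomogeneous s) :
    (Ideal.ofList l).IsHomogeneous (homogeneousSubmodule τ k) := by
  apply Ideal.homogeneous_span
  intro y hy
  obtain ⟨s, hs⟩ := h y hy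
  exact ⟨s, hs⟩

private theorem reg_h75 {l : List (MvPolynomial τ k)}
    (hreg : RingTheory.Sequence.IsWeaklyRegular (MvPolynomial τ k) l) (i : ℕ) (hi : i < l.length)
    (x : MvPolynomial τ k) (hx : x * l[i] ∈ Ideal.ofList (l.take i)) :
    x ∈ Ideal.ofList (l.take i) := by
  have h1 := hreg.regular_mod_prev i hi
  have h2 : (Ideal.ofList (l.take i) • ⊤ : Submodule (MvPolynomial τ k) (MvPolynomial τ k)) =
      Ideal.ofList (l.take i) := by
    rw [smul_eq_mul, Ideal.mul_top]
  have h3 : (Submodule.Quotient.mk x : MvPolynomial τ k ⧸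
      (Ideal.ofList (l.take i) • ⊤ : Submodule (MvPolynomial τ k) (MvPolynomial τ k))) = 0 := by
    apply h1
    change l[i] • _ = l[i] • _
    rw [smul_zero, ← Submodule.Quotient.mk_smul, Submodule.Quotient.mk_eq_zero, h2, smul_eq_mul,
      mul_comm]
    exact hx
  rw [Submodule.Quotient.mk_eq_zero, h2] at h3
  exact h3

end

theorem hf_eq {k : Type u} [Field k] {τ : Type v} [Finite τ] (l l' : List (MvPolynomial τ k))
    (w : List ℕ) (hl : List.Forall₂ (fun y s => y.IsHomogeneous s) l w)
    (hl' : List.Forall₂ (fun y s => y.IsHomogeneous s) l' w)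
    (hreg : RingTheory.Sequence.IsWeaklyRegular (MvPolynomial τ k) l)
    (hreg' : RingTheory.Sequence.IsWeaklyRegular (MvPolynomial τ k) l') (D : ℕ) :
    Module.finrank k (gp (Ideal.ofList l) D) = Module.finrank k (gp (Ideal.ofList l') D) := by
  obtain ⟨hlen, hget⟩ := List.forall₂_iff_get.1 hl
  obtain ⟨hlen', hget'⟩ := List.forall₂_iff_get.1 hl'
  have hh : ∀ y ∈ l, ∃ s, y.IsHomogeneous s := by
    intro y hy
    obtain ⟨i, hi, rfl⟩ := List.getElem_of_mem hy
    exact ⟨_, hget i hi (hlen ▸ hi)⟩
  have hh' : ∀ y ∈ l', ∃ s, y.IsHomogeneous s := by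
    intro y hy
    obtain ⟨i, hi, rfl⟩ := List.getElem_of_mem hy
    exact ⟨_, hget' i hi (hlen' ▸ hi)⟩
  have key : ∀ i, i ≤ w.length → ∀ D, Module.finrank k (gp (Ideal.ofList (l.take i)) D) =
      Module.finrank k (gp (Ideal.ofList (l'.take i)) D) := by
    intro i
    induction i with
    | zero => intro _ D; rw [List.take_zero, List.take_zero]
    | succ i ih =>
      intro hi D
      have hi1 : i < l.length := by omega
      have hi2 : i < l'.length := by omega
      have hi3 : i < w.length := by omega
      rw [List.take_succ_eq_append_getElem hi1, List.take_succ_eq_append_getElem hi2,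
        Ideal.ofList_append, Ideal.ofList_append, Ideal.ofList_singleton, Ideal.ofList_singleton]
      have hJ := hom_ofList_h75 (l.take i) (fun y hy => hh y (List.mem_of_mem_take hy))
      have hJ' := hom_ofList_h75 (l'.take i) (fun y hy => hh' y (List.mem_of_mem_take hy))
      have hy : (l[i]).IsHomogeneous w[i] := hget i hi1 hi3
      have hy' : (l'[i]).IsHomogeneous w[i] := hget' i hi2 hi3
      by_cases hD : w[i] ≤ D
      · have h1 := step_ge_h75 hJ hy (reg_h75 hreg i hi1) hD
        have h2 := step_ge_h75 hJ' hy' (reg_h75 hreg' i hi2) hD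
        have h3 := ih (by omega) D
        have h4 := ih (by omega) (D - w[i])
        omega
      · rw [step_lt_h75 hJ hy hD, step_lt_h75 hJ' hy' hD]
        exact ih (by omega) D
  have h := key w.length le_rfl D
  rwa [List.take_of_length_le (by omega), List.take_of_length_le (by omega)] at h

end Pool.Agent.Helper30.RC
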