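import Mathlib

/-!
RC-IND.  If `z_0, ..., z_{r-1}` is a regular sequence modulo the ideal `J` of a `k`-algebra `R` and
the elements `b i` are linearly independent over `k` modulo `J + (z)`, then they are linearly
independent over `k[z_0, ..., z_{r-1}]` modulo `J`.

Proof: induction on `r`, generalizing `J`.  `r = 0`: `MvPolynomial (Fin 0) k` is `k`.
`r + 1`: put `J' = J + (z_0)`; the induction hypothesis applies to `J'` and `z_1, ..., z_r`.
Claim: for all `t`, if all `p i` have degree `< t` in the variable `X 0` (use
`MvPolynomial.finSuccEquiv`, which identifies `MvPolynomial (Fin (r+1)) k` with polynomials in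
one variable over `MvPolynomial (Fin r) k`) and `∑ p_i(z) b_i ∈ J` then `p = 0`.  Indeed modulo
`z_0` the relation reads `∑ p_i(0, z_1, ..., z_r) b_i ∈ J'`, so all `p_i(0, ...)` vanish, i.e.
`p_i = X_0 p'_i` (`Polynomial.divX`), and `z_0 * ∑ p'_i(z) b_i ∈ J` gives `∑ p'_i(z) b_i ∈ J`
since `z_0` is regular modulo `J`; the degrees dropped.
-/

namespace Pool.Agent.Helper30.RC

open MvPolynomial

private theorem aeval_eq_eval₂ {k R : Type*} [Field k] [CommRing R] [Algebra k R] {r : ℕ}
    (z : Fin (r + 1) → R) (q : MvPolynomial (Fin (r + 1)) k) :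
    aeval z q = Polynomial.eval₂
      ((aeval (fun i : Fin r => z i.succ) : MvPolynomial (Fin r) k →ₐ[k] R) :
        MvPolynomial (Fin r) k →+* R) (z 0) (finSuccEquiv k r q) := by
  induction q using MvPolynomial.induction_on with
  | C a =>
    rw [finSuccEquiv_apply]
    simp
  | add p q hp hq => rw [map_add, map_add, Polynomial.eval₂_add, hp, hq]
  | mul_X p i hp =>
    rw [map_mul, map_mul, Polynomial.eval₂_mul, hp, aeval_X]
    congr 1
    refine Fin.cases ?_ (fun j => ?_) i
    · rw [finSuccEquiv_X_zero, Polynomial.eval₂_X]
    · rw [finSuccEquiv_X_succ, Polynomial.eval₂_C]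
      simp

theorem indep_of_regular {k R : Type*} [Field k] [CommRing R] [Algebra k R] (r : ℕ) (J : Ideal R)
    (z : Fin r → R)
    (hreg : ∀ i : Fin r, ∀ x : R, z i * x ∈ J ⊔ Ideal.span (z '' {j | j < i}) →
      x ∈ J ⊔ Ideal.span (z '' {j | j < i}))
    {β : Type*} (b : β → R)
    (hb : LinearIndependent k fun i => Ideal.Quotient.mk (J ⊔ Ideal.span (Set.range z)) (b i))
    (p : β →₀ MvPolynomial (Fin r) k) (hp : (p.sum fun i q => aeval z q * b i) ∈ J) : p = 0 := by
  classical
  induction r generalizing J with
  | zero =>
    have hJ : J ⊔ Ideal.span (Set.range z) = J := by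
      rw [Set.range_eq_empty, Ideal.span_empty, sup_bot_eq]
    rw [hJ] at hb
    rw [linearIndependent_iff] at hb
    have h0 := hb (p.mapRange (coeff 0) (coeff_zero 0)) (by
      have h2 : ((p.mapRange (coeff 0) (coeff_zero 0)).sum fun i a =>
          a • (Ideal.Quotient.mk J) (b i)) =
          p.sum fun i q => coeff 0 q • (Ideal.Quotient.mk J) (b i) := by
        apply Finsupp.sum_mapRange_index
        intro i
        exact zero_smul k _
      rw [Finsupp.linearCombination_apply, h2]
      have h1 : (p.sum fun i q => coeff 0 q • (Ideal.Quotient.mk J) (b i)) =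
          Ideal.Quotient.mk J (p.sum fun i q => aeval z q * b i) := by
        rw [Finsupp.sum, Finsupp.sum, map_sum]
        refine Finset.sum_congr rfl fun i _ => ?_
        conv_rhs => rw [eq_C_of_isEmpty (p i)]
        rw [← algebraMap_eq, AlgHom.commutes, ← Algebra.smul_def]
        rfl
      rw [h1, Ideal.Quotient.eq_zero_iff_mem]
      exact hp)
    ext1 i
    have h2 := DFunLike.congr_fun h0 i
    rw [Finsupp.mapRange_apply] at h2
    rw [eq_C_of_isEmpty (p i), h2]
    exact C_0
  | succ r ih =>
    -- the ideal `J'` and the tail of the sequence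
    have hs : ∀ i : Fin r, J ⊔ Ideal.span {z 0} ⊔
        Ideal.span ((fun i : Fin r => z i.succ) '' {j | j < i}) =
        J ⊔ Ideal.span (z '' {j | j < i.succ}) := by
      intro i
      rw [sup_assoc, ← Ideal.span_union]
      congr 2
      ext x
      constructor
      · rintro (hx | ⟨j, hj, rfl⟩)
        · rw [Set.mem_singleton_iff] at hx
          exact ⟨0, Fin.succ_pos i, hx.symm⟩
        · exact ⟨j.succ, Fin.succ_lt_succ_iff.mpr hj, rfl⟩
      · rintro ⟨j, hj, rfl⟩
        revert hj
        refine Fin.cases ?_ (fun j' => ?_) j
        · intro _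
          exact Or.inl rfl
        · intro hj
          exact Or.inr ⟨j', Fin.succ_lt_succ_iff.mp hj, rfl⟩
    have hr : J ⊔ Ideal.span {z 0} ⊔ Ideal.span (Set.range fun i : Fin r => z i.succ) =
        J ⊔ Ideal.span (Set.range z) := by
      rw [sup_assoc, ← Ideal.span_union]
      congr 2
      ext x
      constructor
      · rintro (hx | ⟨j, rfl⟩)
        · rw [Set.mem_singleton_iff] at hx
          exact ⟨0, hx.symm⟩
        · exact ⟨j.succ, rfl⟩
      · rintro ⟨j, rfl⟩
        refine Fin.cases ?_ (fun j' => ?_) j
        · exact Or.inl rfl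
        · exact Or.inr ⟨j', rfl⟩
    have ih' := fun p' => ih (J := J ⊔ Ideal.span {z 0}) (fun i : Fin r => z i.succ)
      (fun i x hx => by
        rw [hs] at hx ⊢
        exact hreg i.succ x hx)
      (by rw [hr]; exact hb) p'
    have hreg0 : ∀ x : R, z 0 * x ∈ J → x ∈ J := by
      intro x hx
      have h := hreg 0 x
      have he : {j : Fin (r + 1) | j < 0} = ∅ := by
        ext j
        simp
      rw [he, Set.image_empty, Ideal.span_empty, sup_bot_eq] at h
      exact h hx
    have key : ∀ t : ℕ, ∀ p : β →₀ MvPolynomial (Fin (r + 1)) k,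
        (∀ i n, t ≤ n → (finSuccEquiv k r (p i)).coeff n = 0) →
        (p.sum fun i q => aeval z q * b i) ∈ J → p = 0 := by
      intro t
      induction t with
      | zero =>
        intro p hp0 _
        ext1 i
        have h : finSuccEquiv k r (p i) = 0 := by
          ext1 n
          rw [hp0 i n (Nat.zero_le n), Polynomial.coeff_zero]
        rw [Finsupp.coe_zero, Pi.zero_apply]
        exact (map_eq_zero_iff _ (finSuccEquiv k r).injective).mp h
      | succ t iht =>
        intro p hpt hpJ
        -- constant terms
        let p0 : β →₀ MvPolynomial (Fin r) k :=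
          p.mapRange (fun q => (finSuccEquiv k r q).coeff 0) (by simp)
        let p1 : β →₀ MvPolynomial (Fin (r + 1)) k :=
          p.mapRange (fun q => (finSuccEquiv k r).symm (finSuccEquiv k r q).divX) (by simp)
        have e0 : (p0.sum fun i q => aeval (fun i : Fin r => z i.succ) q * b i) =
            p.sum fun i q => aeval (fun i : Fin r => z i.succ) ((finSuccEquiv k r q).coeff 0)
              * b i := by
          apply Finsupp.sum_mapRange_index
          intro i
          rw [map_zero, zero_mul]
        have e1 : (p1.sum fun i q => aeval z q * b i) =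
            p.sum fun i q => aeval z ((finSuccEquiv k r).symm (finSuccEquiv k r q).divX)
              * b i := by
          apply Finsupp.sum_mapRange_index
          intro i
          rw [map_zero, zero_mul]
        have e2 : ∀ q : MvPolynomial (Fin (r + 1)) k,
            aeval z q = z 0 * aeval z ((finSuccEquiv k r).symm (finSuccEquiv k r q).divX) +
              aeval (fun i : Fin r => z i.succ) ((finSuccEquiv k r q).coeff 0) := by
          intro q
          rw [aeval_eq_eval₂ z q, aeval_eq_eval₂ z ((finSuccEquiv k r).symm _),
            AlgEquiv.apply_symm_apply]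
          conv_lhs => rw [← Polynomial.divX_mul_X_add (finSuccEquiv k r q)]
          rw [Polynomial.eval₂_add, Polynomial.eval₂_mul, Polynomial.eval₂_X,
            Polynomial.eval₂_C, mul_comm]
          rfl
        have e3 : (p.sum fun i q => aeval z q * b i) =
            z 0 * (p1.sum fun i q => aeval z q * b i) +
              p0.sum fun i q => aeval (fun i : Fin r => z i.succ) q * b i := by
          rw [e0, e1, Finsupp.sum, Finsupp.sum, Finsupp.sum, Finset.mul_sum,
            ← Finset.sum_add_distrib]
          refine Finset.sum_congr rfl fun i _ => ?_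
          conv_lhs => rw [e2 (p i)]
          ring
        have h0 : p0 = 0 := by
          apply ih' p0
          have h : (p0.sum fun i q => aeval (fun i : Fin r => z i.succ) q * b i) =
              (p.sum fun i q => aeval z q * b i) -
                z 0 * (p1.sum fun i q => aeval z q * b i) := by
            rw [e3]; ring
          rw [h]
          refine Ideal.sub_mem _ (Ideal.mem_sup_left hpJ) (Ideal.mem_sup_right ?_)
          exact Ideal.mul_mem_right _ _ (Ideal.mem_span_singleton_self _)
        have h1 : p1 = 0 := by
          apply iht p1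
          · intro i n hn
            change (finSuccEquiv k r ((p.mapRange _ _) i)).coeff n = 0
            rw [Finsupp.mapRange_apply, AlgEquiv.apply_symm_apply, Polynomial.coeff_divX]
            exact hpt i (n + 1) (Nat.succ_le_succ hn)
          · apply hreg0
            rw [e3, h0, Finsupp.sum_zero_index, add_zero] at hpJ
            exact hpJ
        ext1 i
        have h2 := DFunLike.congr_fun h0 i
        have h3 := DFunLike.congr_fun h1 i
        change (p.mapRange _ _) i = 0 at h2
        change (p.mapRange _ _) i = 0 at h3
        rw [Finsupp.mapRange_apply] at h2 h3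
        have h4 : (finSuccEquiv k r (p i)).divX = 0 :=
          (map_eq_zero_iff _ (finSuccEquiv k r).symm.injective).mp h3
        have h5 : finSuccEquiv k r (p i) = 0 := by
          rw [← Polynomial.divX_mul_X_add (finSuccEquiv k r (p i)), h4, h2]
          simp
        rw [Finsupp.coe_zero, Pi.zero_apply]
        exact (map_eq_zero_iff _ (finSuccEquiv k r).injective).mp h5
    refine key (p.support.sup (fun i => (finSuccEquiv k r (p i)).natDegree) + 1) p ?_ hp
    intro i n hn
    by_cases hi : i ∈ p.support
    · apply Polynomial.coeff_eq_zero_of_natDegree_lt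
      have h := Finset.le_sup (f := fun i => (finSuccEquiv k r (p i)).natDegree) hi
      exact lt_of_le_of_lt h (Nat.lt_of_succ_le hn)
    · rw [Finsupp.notMem_support_iff] at hi
      rw [hi, map_zero, Polynomial.coeff_zero]

end Pool.Agent.Helper30.RC
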