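import Mathlib

/-!
# Zariski neighbourhoods and regular functions, pointwise

`Near x₀ Q`: the property `Q` holds on a principal Zariski neighbourhood of the point `x₀` of the
affine space `Γ → k`.  `Reg x₀ φ`: the function `φ` is a quotient of polynomials on such a
neighbourhood.  `RegP x₀ F`: all coefficients of the polynomial valued function `F` are regular.
-/

namespace Pool.Agent.Helper30.RC

open MvPolynomial

variable {k : Type*} [Field k] {Γ : Type*} {σ : Type*}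

/-- holds on a Zariski neighbourhood of `x₀` -/
def Near (x₀ : Γ → k) (Q : (Γ → k) → Prop) : Prop :=
  ∃ D : MvPolynomial Γ k, eval x₀ D ≠ 0 ∧ ∀ x, eval x D ≠ 0 → Q x

/-- a quotient of polynomials near `x₀` -/
def Reg (x₀ : Γ → k) (φ : (Γ → k) → k) : Prop :=
  ∃ N D : MvPolynomial Γ k, eval x₀ D ≠ 0 ∧ ∀ x, eval x D ≠ 0 → φ x * eval x D = eval x N

/-- all coefficients are regular near `x₀` -/
def RegP (x₀ : Γ → k) (F : (Γ → k) → MvPolynomial σ k) : Prop :=
  ∀ m, Reg x₀ (fun x => coeff m (F x))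

theorem Near.mono {x₀ : Γ → k} {Q Q' : (Γ → k) → Prop} (h : Near x₀ Q) (hQ : ∀ x, Q x → Q' x) :
    Near x₀ Q' := by
  obtain ⟨D, h0, hD⟩ := h
  exact ⟨D, h0, fun x hx => hQ x (hD x hx)⟩

theorem Near.and {x₀ : Γ → k} {Q Q' : (Γ → k) → Prop} (h : Near x₀ Q) (h' : Near x₀ Q') :
    Near x₀ (fun x => Q x ∧ Q' x) := by
  obtain ⟨D, h0, hD⟩ := h
  obtain ⟨D', h0', hD'⟩ := h'
  refine ⟨D * D', by rw [map_mul]; exact mul_ne_zero h0 h0', fun x hx => ?_⟩
  rw [map_mul] at hx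
  exact ⟨hD x (left_ne_zero_of_mul hx), hD' x (right_ne_zero_of_mul hx)⟩

theorem Near.true (x₀ : Γ → k) : Near x₀ (fun _ => True) := ⟨1, by simp, fun _ _ => trivial⟩

theorem Near.of_forall {x₀ : Γ → k} {Q : (Γ → k) → Prop} (h : ∀ x, Q x) : Near x₀ Q :=
  ⟨1, by simp, fun x _ => h x⟩

theorem Near.all {ι : Type*} [Finite ι] {x₀ : Γ → k} {Q : ι → (Γ → k) → Prop}
    (h : ∀ i, Near x₀ (Q i)) : Near x₀ (fun x => ∀ i, Q i x) := by
  classical
  have _ := Fintype.ofFinite ι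
  choose D h0 hD using h
  refine ⟨∏ i, D i, ?_, fun x hx i => hD i x ?_⟩
  · rw [map_prod]
    exact Finset.prod_ne_zero_iff.mpr fun i _ => h0 i
  · rw [map_prod] at hx
    exact Finset.prod_ne_zero_iff.mp hx i (Finset.mem_univ i)

theorem Near.self {x₀ : Γ → k} {Q : (Γ → k) → Prop} (h : Near x₀ Q) : Q x₀ := by
  obtain ⟨D, h0, hD⟩ := h
  exact hD x₀ h0

theorem Reg.const (x₀ : Γ → k) (c : k) : Reg x₀ (fun _ => c) :=
  ⟨C c, 1, by simp, fun x _ => by simp⟩

theorem Reg.poly (x₀ : Γ → k) (N : MvPolynomial Γ k) : Reg x₀ (fun x => eval x N) :=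
  ⟨N, 1, by simp, fun x _ => by simp⟩

theorem Reg.div (x₀ : Γ → k) (N D : MvPolynomial Γ k) (h : eval x₀ D ≠ 0) :
    Reg x₀ (fun x => eval x N / eval x D) :=
  ⟨N, D, h, fun x hx => by field_simp⟩

theorem Reg.add {x₀ : Γ → k} {φ ψ : (Γ → k) → k} (hφ : Reg x₀ φ) (hψ : Reg x₀ ψ) :
    Reg x₀ (fun x => φ x + ψ x) := by
  obtain ⟨N, D, h0, hD⟩ := hφ
  obtain ⟨N', D', h0', hD'⟩ := hψ
  refine ⟨N * D' + N' * D, D * D', by rw [map_mul]; exact mul_ne_zero h0 h0', fun x hx => ?_⟩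
  rw [map_mul] at hx
  have h1 := hD x (left_ne_zero_of_mul hx)
  have h2 := hD' x (right_ne_zero_of_mul hx)
  simp only [map_add, map_mul]
  rw [← h1, ← h2]
  ring

theorem Reg.mul {x₀ : Γ → k} {φ ψ : (Γ → k) → k} (hφ : Reg x₀ φ) (hψ : Reg x₀ ψ) :
    Reg x₀ (fun x => φ x * ψ x) := by
  obtain ⟨N, D, h0, hD⟩ := hφ
  obtain ⟨N', D', h0', hD'⟩ := hψ
  refine ⟨N * N', D * D', by rw [map_mul]; exact mul_ne_zero h0 h0', fun x hx => ?_⟩
  rw [map_mul] at hx
  have h1 := hD x (left_ne_zero_of_mul hx)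
  have h2 := hD' x (right_ne_zero_of_mul hx)
  simp only [map_mul]
  rw [← h1, ← h2]
  ring

theorem Reg.sum {ι : Type*} {x₀ : Γ → k} (s : Finset ι) {φ : ι → (Γ → k) → k}
    (h : ∀ i ∈ s, Reg x₀ (φ i)) : Reg x₀ (fun x => ∑ i ∈ s, φ i x) := by
  classical
  induction s using Finset.induction_on with
  | empty => simpa using Reg.const x₀ 0
  | insert a s ha ih =>
    simp only [Finset.sum_insert ha]
    exact (h a (Finset.mem_insert_self a s)).add
      (ih fun i hi => h i (Finset.mem_insert_of_mem hi))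

theorem Reg.congr {x₀ : Γ → k} {φ ψ : (Γ → k) → k} (hφ : Reg x₀ φ)
    (h : Near x₀ (fun x => φ x = ψ x)) : Reg x₀ ψ := by
  obtain ⟨N, D, h0, hD⟩ := hφ
  obtain ⟨D', h0', hD'⟩ := h
  refine ⟨N * D', D * D', by rw [map_mul]; exact mul_ne_zero h0 h0', fun x hx => ?_⟩
  rw [map_mul] at hx
  have h1 := hD x (left_ne_zero_of_mul hx)
  have h2 := hD' x (right_ne_zero_of_mul hx)
  rw [map_mul, map_mul, ← h2, ← h1]
  ring

/-- a polynomial in regular functions is regular -/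
theorem Reg.comp {ι : Type*} {x₀ : Γ → k} {φ : ι → (Γ → k) → k} (h : ∀ i, Reg x₀ (φ i))
    (p : MvPolynomial ι k) : Reg x₀ (fun x => eval (fun i => φ i x) p) := by
  induction p using MvPolynomial.induction_on with
  | C a => simpa using Reg.const x₀ a
  | add p q hp hq => simpa using hp.add hq
  | mul_X p i hp => simpa using hp.mul (h i)

/-- a regular function which is nonzero at `x₀` is nonzero near `x₀` -/
theorem Reg.near_ne {x₀ : Γ → k} {φ : (Γ → k) → k} (hφ : Reg x₀ φ) (h : φ x₀ ≠ 0) :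
    Near x₀ (fun x => φ x ≠ 0) := by
  obtain ⟨N, D, h0, hD⟩ := hφ
  refine ⟨N * D, ?_, fun x hx => ?_⟩
  · rw [map_mul, ← hD x₀ h0]
    exact mul_ne_zero (mul_ne_zero h h0) h0
  · rw [map_mul] at hx
    intro h1
    have h2 := hD x (right_ne_zero_of_mul hx)
    rw [h1, zero_mul] at h2
    exact left_ne_zero_of_mul hx h2.symm

theorem RegP.const (x₀ : Γ → k) (p : MvPolynomial σ k) : RegP x₀ (fun _ => p) :=
  fun _ => Reg.const x₀ _

theorem RegP.add {x₀ : Γ → k} {F G : (Γ → k) → MvPolynomial σ k} (hF : RegP x₀ F)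
    (hG : RegP x₀ G) : RegP x₀ (fun x => F x + G x) := by
  intro m
  simp only [coeff_add]
  exact (hF m).add (hG m)

theorem RegP.mul {x₀ : Γ → k} {F G : (Γ → k) → MvPolynomial σ k} (hF : RegP x₀ F)
    (hG : RegP x₀ G) : RegP x₀ (fun x => F x * G x) := by
  classical
  intro m
  simp only [coeff_mul]
  exact Reg.sum _ fun i _ => (hF i.1).mul (hG i.2)

theorem RegP.sum {ι : Type*} {x₀ : Γ → k} (s : Finset ι) {F : ι → (Γ → k) → MvPolynomial σ k}
    (h : ∀ i ∈ s, RegP x₀ (F i)) : RegP x₀ (fun x => ∑ i ∈ s, F i x) := by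
  intro m
  simp only [coeff_sum]
  exact Reg.sum _ fun i hi => h i hi m

theorem RegP.prod {ι : Type*} {x₀ : Γ → k} (s : Finset ι) {F : ι → (Γ → k) → MvPolynomial σ k}
    (h : ∀ i ∈ s, RegP x₀ (F i)) : RegP x₀ (fun x => ∏ i ∈ s, F i x) := by
  classical
  induction s using Finset.induction_on with
  | empty => simpa using RegP.const x₀ 1
  | insert a s ha ih =>
    simp only [Finset.prod_insert ha]
    exact (h a (Finset.mem_insert_self a s)).mul
      (ih fun i hi => h i (Finset.mem_insert_of_mem hi))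

end Pool.Agent.Helper30.RC
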