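import Mathlib
import Pool.Agent.Helper30.RC.Gr
import Pool.Agent.Helper30.RC.Opn
import Pool.Agent.Helper30.RC.Near

/-!
# Representation of forms by a graded family of elements over `k[z]`
-/

namespace Pool.Agent.Helper30.RC

open MvPolynomial

attribute [local instance] MvPolynomial.gradedAlgebra

variable {k : Type*} [Field k] {τ : Type*}

/-- the forms `b i` (of degree `dg i`) span, degree by degree, modulo the ideal `I` -/
def SpanMod {β : Type*} [Fintype β] (I : Ideal (MvPolynomial τ k)) (b : β → MvPolynomial τ k)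
    (dg : β → ℕ) : Prop :=
  ∀ D (v : MvPolynomial τ k), v.IsHomogeneous D → ∃ lam : β → k, (∀ i, dg i ≠ D → lam i = 0) ∧
    v - ∑ i, C (lam i) * b i ∈ I

theorem span_over {ρ β : Type*} [Fintype ρ] [Fintype β] (I : Ideal (MvPolynomial τ k))
    (hI : I.IsHomogeneous (homogeneousSubmodule τ k)) (z : ρ → MvPolynomial τ k)
    (hz : ∀ i, (z i).IsHomogeneous 1) (b : β → MvPolynomial τ k) (dg : β → ℕ)
    (hb : ∀ i, (b i).IsHomogeneous (dg i))
    (hS : SpanMod (I ⊔ Ideal.span (Set.range z)) b dg) :
    ∀ D (v : MvPolynomial τ k), v.IsHomogeneous D → ∃ P : β → MvPolynomial ρ k,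
      (∀ i, (P i).IsHomogeneous (D - dg i)) ∧ (∀ i, D < dg i → P i = 0) ∧
      v - ∑ i, aeval z (P i) * b i ∈ I := by
  classical
  intro D
  induction D using Nat.strong_induction_on with
  | _ D ih =>
    intro v hv
    obtain ⟨lam, hlam, hmem⟩ := hS D v hv
    obtain ⟨u, hu, w, hw, huw⟩ := Submodule.mem_sup.mp hmem
    obtain ⟨y, rfl⟩ := (Ideal.mem_span_range_iff_exists_fun).mp hw
    have hsum : (∑ i, C (lam i) * b i).IsHomogeneous D := by
      refine IsHomogeneous.sum _ _ _ fun i _ => ?_
      by_cases hi : dg i = D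
      · rw [← hi]
        exact (hb i).C_mul _
      · rw [hlam i hi, C_0, zero_mul]
        exact isHomogeneous_zero _ _ _
    -- homogeneous component of degree `D`
    have h1 : v - ∑ i, C (lam i) * b i = homogeneousComponent D u +
        ∑ s, homogeneousComponent D (y s * z s) := by
      rw [← map_sum, ← map_add, huw]
      exact (homogeneousComponent_eq_self (hv.sub hsum)).symm
    have h2 : ∀ s, ∃ Q : β → MvPolynomial ρ k, (∀ i, (Q i).IsHomogeneous (D - dg i)) ∧
        (∀ i, D < dg i → Q i = 0) ∧
        homogeneousComponent D (y s * z s) - ∑ i, aeval z (Q i) * b i ∈ I := by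
      intro s
      by_cases hD : 1 ≤ D
      · obtain ⟨P, hP1, hP2, hP3⟩ := ih (D - 1) (by omega) (homogeneousComponent (D - 1) (y s))
          (homogeneousComponent_isHomogeneous _ _)
        refine ⟨fun i => X s * P i, ?_, ?_, ?_⟩
        · intro i
          by_cases hi : dg i ≤ D - 1
          · have h3 := (isHomogeneous_X k s).mul (hP1 i)
            have h4 : 1 + (D - 1 - dg i) = D - dg i := by omega
            rwa [h4] at h3
          · have h3 : P i = 0 := hP2 i (by omega)
            simp only [h3, mul_zero]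
            exact isHomogeneous_zero _ _ _
        · intro i hi
          simp only [hP2 i (by omega), mul_zero]
        · rw [hc_mul (hz s) _ hD]
          have h3 : homogeneousComponent (D - 1) (y s) * z s -
              ∑ i, aeval z (X s * P i) * b i =
              (homogeneousComponent (D - 1) (y s) - ∑ i, aeval z (P i) * b i) * z s := by
            rw [sub_mul, Finset.sum_mul]
            congr 1
            refine Finset.sum_congr rfl fun i _ => ?_
            rw [map_mul, aeval_X]
            ring
          rw [h3]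
          exact Ideal.mul_mem_right _ _ hP3
      · refine ⟨fun _ => 0, fun i => isHomogeneous_zero _ _ _, fun _ _ => rfl, ?_⟩
        rw [hc_mul_zero (hz s) _ hD]
        simp
    choose Q hQ1 hQ2 hQ3 using h2
    refine ⟨fun i => C (lam i) + ∑ s, Q s i, ?_, ?_, ?_⟩
    · intro i
      refine IsHomogeneous.add ?_ (IsHomogeneous.sum _ _ _ fun s _ => hQ1 s i)
      by_cases hi : dg i = D
      · rw [hi, Nat.sub_self]
        exact isHomogeneous_C _ _
      · rw [hlam i hi, C_0]
        exact isHomogeneous_zero _ _ _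
    · intro i hi
      have h3 : lam i = 0 := hlam i (by omega)
      simp only [h3, C_0, zero_add]
      exact Finset.sum_eq_zero fun s _ => hQ2 s i hi
    · have h3 : v - ∑ i, aeval z (C (lam i) + ∑ s, Q s i) * b i =
          homogeneousComponent D u + ∑ s, (homogeneousComponent D (y s * z s) -
            ∑ i, aeval z (Q s i) * b i) := by
        have h4 : ∑ i, aeval z (C (lam i) + ∑ s, Q s i) * b i =
            ∑ i, C (lam i) * b i + ∑ s, ∑ i, aeval z (Q s i) * b i := by
          rw [Finset.sum_comm, ← Finset.sum_add_distrib]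
          refine Finset.sum_congr rfl fun i _ => ?_
          rw [map_add, map_sum, add_mul, Finset.sum_mul, aeval_C]
          rfl
        rw [h4, Finset.sum_sub_distrib, ← add_sub_assoc, ← h1]
        ring
      rw [h3]
      refine Ideal.add_mem _ (homogeneousComponent_mem_of_mem hI hu D) ?_
      exact Ideal.sum_mem _ fun s _ => hQ3 s

/-- exponents of degree `D` -/
abbrev Mo (τ : Type*) (D : ℕ) : Type _ := {m : τ →₀ ℕ // m.degree = D}

noncomputable instance (τ : Type*) [Finite τ] (D : ℕ) : Fintype (Mo τ D) := by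
  have h : {m : τ →₀ ℕ | m.degree = D}.Finite :=
    (Finsupp.finite_of_degree_le (σ := τ) D).subset
      fun m hm => le_of_eq (Set.mem_ofPred.mp hm)
  exact h.fintype

theorem mo_sum [Finite τ] {D : ℕ} {f : MvPolynomial τ k} (hf : f.IsHomogeneous D) :
    f = ∑ m : Mo τ D, C (coeff m.1 f) * monomial m.1 1 := by
  classical
  ext a
  rw [coeff_sum]
  simp only [coeff_C_mul, coeff_monomial]
  by_cases ha : a.degree = D
  · rw [Finset.sum_eq_single (⟨a, ha⟩ : Mo τ D)]
    · simp
    · intro b _ hb
      have : b.1 ≠ a := fun h => hb (Subtype.ext h)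
      simp [this]
    · simp
  · rw [hf.coeff_eq_zero ha, Finset.sum_eq_zero]
    intro b _
    have : b.1 ≠ a := by
      rintro rfl
      exact ha b.2
    simp [this]

/-- perturbation of representations of the monomials of degree `D` modulo a linear family -/
theorem pert [Finite τ] {J Γ : Type*} [Fintype J] [Fintype Γ] (c : J → Γ → MvPolynomial τ k)
    (δ : J → ℕ) (hc : ∀ j γ, (c j γ).IsHomogeneous (δ j)) (x₀ : Γ → k) (D : ℕ)
    (r0 : Mo τ D → MvPolynomial τ k) (hr : ∀ m, (r0 m).IsHomogeneous D)
    (h : ∀ m : Mo τ D, monomial m.1 1 - r0 m ∈ Ideal.span (Set.range (lin c x₀))) :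
    ∃ B : Mo τ D → Mo τ D → (Γ → k) → k, (∀ m m', Reg x₀ (B m m')) ∧
      Near x₀ (fun x => ∀ m : Mo τ D, monomial m.1 1 - ∑ m', C (B m m' x) * r0 m' ∈
        Ideal.span (Set.range (lin c x))) := by
  classical
  have h1 : ∀ m : Mo τ D, ∃ u : J → MvPolynomial τ k,
      monomial m.1 1 - r0 m = ∑ j, u j * lin c x₀ j := by
    intro m
    obtain ⟨u, hu⟩ := (Ideal.mem_span_range_iff_exists_fun).mp (h m)
    exact ⟨u, hu.symm⟩
  choose u hu using h1
  let r : (Γ → k) → Mo τ D → MvPolynomial τ k := fun x m => ∑ j, u m j * lin c x j + r0 m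
  have hr0 : ∀ m, r x₀ m = monomial m.1 1 := by
    intro m
    change ∑ j, u m j * lin c x₀ j + r0 m = _
    rw [← hu m]
    ring
  let A : Matrix (Mo τ D) (Mo τ D) (MvPolynomial Γ k) := fun m m' =>
    ∑ γ, X γ * C (coeff m'.1 (∑ j, u m j * c j γ)) + C (coeff m'.1 (r0 m))
  have hA : ∀ x m m', eval x (A m m') = coeff m'.1 (r x m) := by
    intro x m m'
    simp only [A, map_add, map_sum, map_mul, eval_X, eval_C, r, coeff_add]
    congr 1
    have h2 : ∑ j, u m j * lin c x j = ∑ γ, C (x γ) * ∑ j, u m j * c j γ := by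
      simp only [lin, Finset.mul_sum]
      rw [Finset.sum_comm]
      refine Finset.sum_congr rfl fun γ _ => Finset.sum_congr rfl fun j _ => ?_
      ring
    rw [h2, coeff_sum]
    refine Finset.sum_congr rfl fun γ _ => ?_
    rw [coeff_C_mul, coeff_sum]
  have hdet0 : eval x₀ A.det ≠ 0 := by
    rw [RingHom.map_det]
    have : (eval x₀).mapMatrix A = 1 := by
      ext m m'
      rw [RingHom.mapMatrix_apply, Matrix.map_apply, hA, hr0, coeff_monomial, Matrix.one_apply]
      by_cases h : m = m'
      · simp [h]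
      · have : m.1 ≠ m'.1 := fun e => h (Subtype.ext e)
        simp [h, this]
    rw [this, Matrix.det_one]
    exact one_ne_zero
  refine ⟨fun m m' x => eval x (A.adjugate m m') / eval x A.det, ?_, A.det, hdet0, ?_⟩
  · intro m m'
    exact Reg.div x₀ _ _ hdet0
  · intro x hx m
    have hinv : ∀ m₁ m₂, ∑ m', eval x (A.adjugate m₁ m') / eval x A.det * coeff m₂.1 (r x m') =
        if m₁ = m₂ then 1 else 0 := by
      intro m₁ m₂
      have h2 := congrFun (congrFun (Matrix.adjugate_mul A) m₁) m₂
      have h3 := congrArg (eval x) h2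
      rw [Matrix.mul_apply, map_sum, Matrix.smul_apply, Matrix.one_apply, smul_eq_mul,
        map_mul] at h3
      simp only [map_mul, hA] at h3
      have h4 : ∑ m', eval x (A.adjugate m₁ m') / eval x A.det * coeff m₂.1 (r x m') =
          (∑ m', eval x (A.adjugate m₁ m') * coeff m₂.1 (r x m')) / eval x A.det := by
        rw [Finset.sum_div]
        refine Finset.sum_congr rfl fun m' _ => ?_
        ring
      rw [h4, h3]
      split_ifs
      · rw [map_one, mul_one, div_self hx]
      · rw [map_zero, mul_zero, zero_div]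
    set I := Ideal.span (Set.range (lin c x)) with hI
    have hIh : I.IsHomogeneous (homogeneousSubmodule τ k) := isHomogeneous_span _ δ (lin_hom hc x)
    set w := ∑ m', C (eval x (A.adjugate m m') / eval x A.det) * r x m' with hw
    have h5 : homogeneousComponent D w = monomial m.1 1 := by
      ext a
      rw [coeff_homogeneousComponent, coeff_monomial]
      split_ifs with h6 h7 h7
      · have := hinv m ⟨a, h6⟩
        rw [if_pos (Subtype.ext h7)] at this
        rw [hw, coeff_sum, ← this]
        exact Finset.sum_congr rfl fun m' _ => coeff_C_mul _ _ _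
      · have := hinv m ⟨a, h6⟩
        rw [if_neg (fun e => h7 (congrArg Subtype.val e))] at this
        rw [hw, coeff_sum, ← this]
        exact Finset.sum_congr rfl fun m' _ => coeff_C_mul _ _ _
      · exfalso
        subst h7
        exact h6 m.2
      · rfl
    have h6 : w - ∑ m', C (eval x (A.adjugate m m') / eval x A.det) * r0 m' ∈ I := by
      rw [hw, ← Finset.sum_sub_distrib]
      refine Ideal.sum_mem _ fun m' _ => ?_
      rw [← mul_sub]
      refine Ideal.mul_mem_left _ _ ?_
      change ∑ j, u m' j * lin c x j + r0 m' - r0 m' ∈ I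
      rw [add_sub_cancel_right]
      exact Ideal.sum_mem _ fun j _ => Ideal.mul_mem_left _ _ (Ideal.subset_span ⟨j, rfl⟩)
    have h7 := homogeneousComponent_mem_of_mem hIh h6 D
    rw [map_sub, h5] at h7
    have h8 : homogeneousComponent D
        (∑ m', C (eval x (A.adjugate m m') / eval x A.det) * r0 m') =
        ∑ m', C (eval x (A.adjugate m m') / eval x A.det) * r0 m' :=
      homogeneousComponent_eq_self (IsHomogeneous.sum _ _ _ fun m' _ => (hr m').C_mul _)
    rw [h8] at h7
    exact h7

/-- representation of a fixed form with regular coefficients -/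
theorem rep [Finite τ] {J Γ ρ β : Type*} [Fintype J] [Fintype Γ] [Fintype ρ] [Fintype β]
    (c : J → Γ → MvPolynomial τ k) (δ : J → ℕ) (hc : ∀ j γ, (c j γ).IsHomogeneous (δ j))
    (x₀ : Γ → k) (z : ρ → MvPolynomial τ k) (hz : ∀ i, (z i).IsHomogeneous 1)
    (b : β → MvPolynomial τ k) (dg : β → ℕ) (hb : ∀ i, (b i).IsHomogeneous (dg i))
    (hS : SpanMod (Ideal.span (Set.range (lin c x₀)) ⊔ Ideal.span (Set.range z)) b dg)
    (D : ℕ) (v : MvPolynomial τ k) (hv : v.IsHomogeneous D) :
    ∃ P : β → (Γ → k) → MvPolynomial ρ k, (∀ i x, (P i x).IsHomogeneous (D - dg i)) ∧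
      (∀ i x, D < dg i → P i x = 0) ∧ (∀ i, RegP x₀ (P i)) ∧
      Near x₀ (fun x => v - ∑ i, aeval z (P i x) * b i ∈ Ideal.span (Set.range (lin c x))) := by
  classical
  have h1 : ∀ m : Mo τ D, ∃ P : β → MvPolynomial ρ k,
      (∀ i, (P i).IsHomogeneous (D - dg i)) ∧ (∀ i, D < dg i → P i = 0) ∧
      monomial m.1 1 - ∑ i, aeval z (P i) * b i ∈ Ideal.span (Set.range (lin c x₀)) :=
    fun m => span_over _ (isHomogeneous_span _ δ (lin_hom hc x₀)) z hz b dg hb hS D _
      (isHomogeneous_monomial _ m.2)
  choose P₀ hP1 hP2 hP3 using h1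
  have hhom : ∀ m, (∑ i, aeval z (P₀ m i) * b i).IsHomogeneous D := by
    intro m
    refine IsHomogeneous.sum _ _ _ fun i _ => ?_
    by_cases hi : dg i ≤ D
    · have h2 := ((hP1 m i).aeval z hz).mul (hb i)
      have h3 : 1 * (D - dg i) + dg i = D := by omega
      rwa [h3] at h2
    · rw [hP2 m i (by omega), map_zero, zero_mul]
      exact isHomogeneous_zero _ _ _
  obtain ⟨B, hB1, hB2⟩ := pert c δ hc x₀ D _ hhom hP3
  refine ⟨fun i x => ∑ m : Mo τ D, C (coeff m.1 v) * ∑ m', C (B m m' x) * P₀ m' i,
    ?_, ?_, ?_, ?_⟩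
  · intro i x
    refine IsHomogeneous.sum _ _ _ fun m _ => IsHomogeneous.C_mul ?_ _
    exact IsHomogeneous.sum _ _ _ fun m' _ => (hP1 m' i).C_mul _
  · intro i x hi
    refine Finset.sum_eq_zero fun m _ => ?_
    rw [Finset.sum_eq_zero, mul_zero]
    intro m' _
    rw [hP2 m' i hi, mul_zero]
  · intro i
    refine RegP.sum _ fun m _ => RegP.mul (RegP.const _ _) ?_
    refine RegP.sum _ fun m' _ => RegP.mul ?_ (RegP.const _ _)
    intro a
    by_cases ha : a = 0
    · subst ha
      simpa using hB1 m m'
    · have : (fun x : Γ → k => coeff a (C (B m m' x) : MvPolynomial ρ k)) = fun _ => 0 := by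
        funext x
        rw [coeff_C, if_neg (fun e => ha e.symm)]
      rw [this]
      exact Reg.const _ _
  · refine hB2.mono fun x hx => ?_
    have h2 : v - ∑ i, aeval z (∑ m : Mo τ D, C (coeff m.1 v) * ∑ m', C (B m m' x) * P₀ m' i) *
        b i = ∑ m : Mo τ D, C (coeff m.1 v) * (monomial m.1 1 -
          ∑ m', C (B m m' x) * ∑ i, aeval z (P₀ m' i) * b i) := by
      conv_lhs => rw [mo_sum hv]
      simp only [mul_sub, Finset.sum_sub_distrib]
      rw [← mo_sum hv]
      congr 1
      simp only [map_sum, map_mul, aeval_C, Finset.mul_sum, Finset.sum_mul]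
      rw [Finset.sum_comm]
      refine Finset.sum_congr rfl fun m _ => ?_
      rw [Finset.sum_comm]
      refine Finset.sum_congr rfl fun m' _ => Finset.sum_congr rfl fun i _ => ?_
      rw [algebraMap_eq]
      ring
    rw [h2]
    exact Ideal.sum_mem _ fun m _ => Ideal.mul_mem_left _ _ (hx m)

end Pool.Agent.Helper30.RC
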