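import Mathlib
import Pool.Agent.Helper30.RC.Span
import Pool.Agent.Helper30.RC.HFE
import Pool.Agent.Helper30.RC.CMG
import Pool.Agent.Helper30.RC.IND

/-!
# Graded bases of quotients, uniformly near a point
-/

namespace Pool.Agent.Helper30.RC

open MvPolynomial

attribute [local instance] MvPolynomial.gradedAlgebra

section Graded

variable {k : Type} [Field k] {τ : Type} [Finite τ]

noncomputable instance (D : ℕ) : FiniteDimensional k (homogeneousSubmodule τ k D) :=
  Module.Finite.iff_fg.mpr (homogeneousSubmodule_fg τ k D)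

/-- the forms of degree `D` in `J`, as a subspace of the forms of degree `D` -/
noncomputable def gq (J : Ideal (MvPolynomial τ k)) (D : ℕ) :
    Submodule k (homogeneousSubmodule τ k D) :=
  (gp J D).comap (homogeneousSubmodule τ k D).subtype

omit [Finite τ] in
theorem mem_gq {J : Ideal (MvPolynomial τ k)} {D : ℕ} {v : homogeneousSubmodule τ k D} :
    v ∈ gq J D ↔ (v : MvPolynomial τ k) ∈ J := by
  constructor
  · intro h
    exact h.1
  · intro h
    exact ⟨h, v.2⟩

theorem finrank_gq (J : Ideal (MvPolynomial τ k)) (D : ℕ) :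
    Module.finrank k (homogeneousSubmodule τ k D ⧸ gq J D) + Module.finrank k (gp J D) =
      Module.finrank k (homogeneousSubmodule τ k D) := by
  have h1 : Module.finrank k (gq J D) = Module.finrank k (gp J D) :=
    LinearEquiv.finrank_eq (Submodule.comapSubtypeEquivOfLe (inf_le_right : gp J D ≤ _))
  rw [← h1]
  exact Submodule.finrank_quotient_add_finrank _

theorem exists_graded_basis (J : Ideal (MvPolynomial τ k)) (E : ℕ) (hE : (mx τ k) ^ E ≤ J) :
    ∃ (β : Type) (_ : Fintype β) (_ : DecidableEq β) (b : β → MvPolynomial τ k) (dg : β → ℕ),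
      (∀ i, (b i).IsHomogeneous (dg i)) ∧ SpanMod J b dg ∧
      ∀ D, (Finset.univ.filter (fun i => dg i = D)).card + Module.finrank k (gp J D) =
        Module.finrank k (homogeneousSubmodule τ k D) := by
  classical
  let n : ℕ → ℕ := fun D => Module.finrank k (homogeneousSubmodule τ k D ⧸ gq J D)
  let e : ∀ D, Module.Basis (Fin (n D)) k (homogeneousSubmodule τ k D ⧸ gq J D) :=
    fun D => Module.finBasis k _
  have hlift : ∀ D (j : Fin (n D)), ∃ v : homogeneousSubmodule τ k D, (gq J D).mkQ v = e D j :=
    fun D j => Submodule.mkQ_surjective _ _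
  choose v hv using hlift
  have hbig : ∀ D (w : MvPolynomial τ k), E ≤ D → w.IsHomogeneous D → w ∈ J := by
    intro D w hD hw
    apply hE
    rw [mem_pow_idealOfVars_iff]
    intro m hm
    have h2 : m.degree = D := by
      by_contra hne
      exact (mem_support_iff.mp hm) (hw.coeff_eq_zero hne)
    omega
  refine ⟨Σ D : Fin E, Fin (n D), inferInstance, inferInstance, fun i => (v i.1 i.2 : _),
    fun i => i.1, fun i => (v i.1 i.2).2, ?_, ?_⟩
  · intro D w hw
    by_cases hD : D < E
    · let w' : homogeneousSubmodule τ k D := ⟨w, hw⟩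
      let co := (e D).repr ((gq J D).mkQ w')
      refine ⟨fun i => if h : (i.1 : ℕ) = D then co (Fin.cast (by rw [h]) i.2) else 0, ?_, ?_⟩
      · intro i hi
        exact dif_neg hi
      · have h1 : ∑ i : Σ D : Fin E, Fin (n D), C (if h : (i.1 : ℕ) = D then
            co (Fin.cast (by rw [h]) i.2) else 0) * (v i.1 i.2 : MvPolynomial τ k) =
            ∑ j : Fin (n D), C (co j) * (v D j : MvPolynomial τ k) := by
          rw [Fintype.sum_sigma, Finset.sum_eq_single (⟨D, hD⟩ : Fin E)]
          · refine Finset.sum_congr rfl fun j _ => ?_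
            rw [dif_pos rfl]
            rfl
          · intro D' _ hne
            have : (D' : ℕ) ≠ D := fun h => hne (Fin.ext h)
            refine Finset.sum_eq_zero fun j _ => ?_
            rw [dif_neg this, C_0, zero_mul]
          · intro h
            exact absurd (Finset.mem_univ _) h
        rw [h1]
        have h2 : w' - ∑ j, co j • v D j ∈ gq J D := by
          rw [← Submodule.ker_mkQ (gq J D), LinearMap.mem_ker, map_sub, map_sum]
          simp only [map_smul, hv]
          rw [(e D).sum_repr, sub_self]
        have h3 := mem_gq.mp h2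
        simpa [w', smul_eq_C_mul] using h3
    · refine ⟨fun _ => 0, fun _ _ => rfl, ?_⟩
      simpa using hbig D w (not_lt.mp hD) hw
  · intro D
    rw [← finrank_gq J D]
    congr 1
    rw [Finset.card_filter, Fintype.sum_sigma]
    by_cases hD : D < E
    · rw [Finset.sum_eq_single (⟨D, hD⟩ : Fin E)]
      · simp [n]
      · intro D' _ hne
        have : (D' : ℕ) ≠ D := fun h => hne (Fin.ext h)
        simp [this]
      · intro h
        exact absurd (Finset.mem_univ _) h
    · rw [Finset.sum_eq_zero]
      · have h1 : gq J D = ⊤ := by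
          rw [eq_top_iff]
          rintro ⟨w, hw⟩ -
          exact mem_gq.mpr (hbig D w (not_lt.mp hD) hw)
        have h2 : Subsingleton (homogeneousSubmodule τ k D ⧸ gq J D) := by
          rw [h1]
          infer_instance
        exact (Module.finrank_zero_of_subsingleton).symm
      · intro D' _
        have : (D' : ℕ) ≠ D := by
          have := D'.2
          omega
        simp [this]

theorem sum_subtype_of_zero {β M : Type*} [Fintype β] [AddCommMonoid M] (p : β → Prop)
    [DecidablePred p] (f : β → M) (h : ∀ i, ¬ p i → f i = 0) :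
    ∑ i : {i // p i}, f i = ∑ i, f i := by
  rw [← Fintype.sum_subtype_add_sum_subtype p f]
  have : ∑ i : {i // ¬ p i}, f i = 0 := Finset.sum_eq_zero fun i _ => h i.1 i.2
  rw [this, add_zero]

theorem indep_of_card {β : Type} [Fintype β] (J : Ideal (MvPolynomial τ k))
    (hJ : J.IsHomogeneous (homogeneousSubmodule τ k)) (b : β → MvPolynomial τ k) (dg : β → ℕ)
    (hb : ∀ i, (b i).IsHomogeneous (dg i)) (hS : SpanMod J b dg)
    (hcard : ∀ D, (Finset.univ.filter (fun i => dg i = D)).card + Module.finrank k (gp J D) =
        Module.finrank k (homogeneousSubmodule τ k D)) :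
    LinearIndependent k fun i => Ideal.Quotient.mk J (b i) := by
  classical
  rw [Fintype.linearIndependent_iff]
  intro g hg i₀
  set D := dg i₀ with hD
  -- the family in degree `D`
  let β' := {i : β // dg i = D}
  let f : β' → (homogeneousSubmodule τ k D ⧸ gq J D) :=
    fun i => (gq J D).mkQ ⟨b i.1, by have := hb i.1; rwa [i.2] at this⟩
  have hspan : ⊤ ≤ Submodule.span k (Set.range f) := by
    rintro x -
    obtain ⟨⟨w, hw⟩, rfl⟩ := Submodule.mkQ_surjective _ x
    obtain ⟨lam, h1, h2⟩ := hS D w hw
    have h3 : (gq J D).mkQ ⟨w, hw⟩ = ∑ i : β', lam i.1 • f i := by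
      simp only [f, ← map_smul]
      rw [← map_sum, ← sub_eq_zero, ← map_sub, ← LinearMap.mem_ker, Submodule.ker_mkQ]
      rw [mem_gq]
      have h4 : ((⟨w, hw⟩ - ∑ i : β', lam i.1 • (⟨b i.1, by
          have := hb i.1; rwa [i.2] at this⟩ : homogeneousSubmodule τ k D) :
          homogeneousSubmodule τ k D) : MvPolynomial τ k) = w - ∑ i, C (lam i) * b i := by
        rw [Submodule.coe_sub, Submodule.coe_sum]
        congr 1
        simp only [Submodule.coe_smul, smul_eq_C_mul]
        exact sum_subtype_of_zero (fun i => dg i = D) (fun i => C (lam i) * b i)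
          (fun i hi => by rw [h1 i hi, C_0, zero_mul])
      rw [h4]
      exact h2
    rw [h3]
    exact Submodule.sum_mem _ fun i _ => Submodule.smul_mem _ _ (Submodule.subset_span ⟨i, rfl⟩)
  have hc : Fintype.card β' = Module.finrank k (homogeneousSubmodule τ k D ⧸ gq J D) := by
    have h1 := hcard D
    rw [← finrank_gq J D] at h1
    have h2 : Fintype.card β' = (Finset.univ.filter (fun i => dg i = D)).card :=
      Fintype.card_subtype _
    omega
  have hli := linearIndependent_of_top_le_span_of_card_eq_finrank hspan hc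
  rw [Fintype.linearIndependent_iff] at hli
  refine hli (fun i => g i.1) ?_ ⟨i₀, rfl⟩
  have h1 : ∑ i, C (g i) * b i ∈ J := by
    rw [← Ideal.Quotient.eq_zero_iff_mem, map_sum, ← hg]
    refine Finset.sum_congr rfl fun i _ => ?_
    rw [← smul_eq_C_mul]
    exact map_smul (Ideal.Quotient.mkₐ k J) (g i) (b i)
  have h2 := homogeneousComponent_mem_of_mem hJ h1 D
  have h3 : homogeneousComponent D (∑ i, C (g i) * b i) =
      ∑ i : β', C (g i.1) * b i.1 := by
    rw [map_sum]
    have h4 : ∀ i, homogeneousComponent D (C (g i) * b i) =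
        if dg i = D then C (g i) * b i else 0 := by
      intro i
      split_ifs with h
      · exact homogeneousComponent_eq_self (h ▸ (hb i).C_mul _)
      · rw [homogeneousComponent_of_mem ((hb i).C_mul _), if_neg (fun e => h e.symm)]
    rw [Finset.sum_congr rfl fun i _ => h4 i]
    rw [← sum_subtype_of_zero (fun i => dg i = D)]
    · refine Finset.sum_congr rfl fun i _ => ?_
      rw [if_pos i.2]
    · intro i hi
      rw [if_neg hi]
  have h5 : ∑ i : β', g i.1 • f i = (gq J D).mkQ (∑ i : β', g i.1 •
      (⟨b i.1, by have := hb i.1; rwa [i.2] at this⟩ : homogeneousSubmodule τ k D)) := by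
    rw [map_sum]
    refine Finset.sum_congr rfl fun i _ => ?_
    rw [map_smul]
  rw [h5, ← LinearMap.mem_ker, Submodule.ker_mkQ, mem_gq, Submodule.coe_sum]
  simp only [Submodule.coe_smul, smul_eq_C_mul]
  rw [← h3]
  exact h2

end Graded

end Pool.Agent.Helper30.RC
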