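import Mathlib
import Pool.Agent.Helper30.RC.Bas

/-!
# The same graded basis works near a point
-/

namespace Pool.Agent.Helper30.RC

open MvPolynomial

attribute [local instance] MvPolynomial.gradedAlgebra

variable {k : Type} [Field k] {τ : Type} [Finite τ] {Γ : Type} [Fintype Γ] {q r : ℕ}

omit [Finite τ] in
theorem ofList_ofFn {n : ℕ} (f : Fin n → MvPolynomial τ k) :
    Ideal.ofList (List.ofFn f) = Ideal.span (Set.range f) := by
  unfold Ideal.ofList
  congr 1
  ext x
  change x ∈ List.ofFn f ↔ x ∈ Set.range f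
  rw [List.mem_ofFn]
  rfl

/-- the ideal `(c(x), z)` -/
noncomputable def Jx (c : Fin q → Γ → MvPolynomial τ k) (z : Fin r → MvPolynomial τ k)
    (x : Γ → k) : Ideal (MvPolynomial τ k) :=
  Ideal.span (Set.range (lin c x)) ⊔ Ideal.span (Set.range z)

/-- the list `(c(x), z)` -/
noncomputable def lx (c : Fin q → Γ → MvPolynomial τ k) (z : Fin r → MvPolynomial τ k)
    (x : Γ → k) : List (MvPolynomial τ k) := List.ofFn (lin c x) ++ List.ofFn z

omit [Finite τ] in
theorem ofList_lx (c : Fin q → Γ → MvPolynomial τ k) (z : Fin r → MvPolynomial τ k) (x : Γ → k) :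
    Ideal.ofList (lx c z x) = Jx c z x := by
  rw [lx, Ideal.ofList_append, ofList_ofFn, ofList_ofFn, Jx]

theorem lx_regular (hcard : Nat.card τ = q + r) (c : Fin q → Γ → MvPolynomial τ k)
    (δ : Fin q → ℕ) (hδ : ∀ j, 0 < δ j) (hc : ∀ j γ, (c j γ).IsHomogeneous (δ j))
    (z : Fin r → MvPolynomial τ k) (hz : ∀ i, (z i).IsHomogeneous 1) (E : ℕ) (x : Γ → k)
    (hE : (mx τ k) ^ E ≤ Jx c z x) :
    RingTheory.Sequence.IsWeaklyRegular (MvPolynomial τ k) (lx c z x) := by
  apply graded_regular _ _ _ E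
  · rw [ofList_lx]
    exact hE
  · rw [hcard, lx, List.length_append, List.length_ofFn, List.length_ofFn]
  · intro y hy
    rw [lx, List.mem_append, List.mem_ofFn, List.mem_ofFn] at hy
    rcases hy with ⟨j, rfl⟩ | ⟨i, rfl⟩
    · exact ⟨δ j, hδ j, lin_hom hc x j⟩
    · exact ⟨1, one_pos, hz i⟩

omit [Finite τ] in
theorem forall₂_lx (c : Fin q → Γ → MvPolynomial τ k)
    (δ : Fin q → ℕ) (hc : ∀ j γ, (c j γ).IsHomogeneous (δ j))
    (z : Fin r → MvPolynomial τ k) (hz : ∀ i, (z i).IsHomogeneous 1) (x : Γ → k) :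
    List.Forall₂ (fun (y : MvPolynomial τ k) s => y.IsHomogeneous s) (lx c z x)
      (List.ofFn δ ++ List.ofFn (fun _ : Fin r => 1)) := by
  have h : ∀ {n : ℕ} (f : Fin n → MvPolynomial τ k) (g : Fin n → ℕ),
      (∀ i, (f i).IsHomogeneous (g i)) →
      List.Forall₂ (fun (y : MvPolynomial τ k) s => y.IsHomogeneous s) (List.ofFn f)
        (List.ofFn g) := by
    intro n f g h
    rw [List.forall₂_iff_get]
    refine ⟨by simp, fun i h1 h2 => ?_⟩
    simp only [List.get_eq_getElem, List.getElem_ofFn]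
    exact h _
  exact List.rel_append (h _ _ (lin_hom hc x)) (h _ _ hz)

theorem finrank_gp_eq (hcard : Nat.card τ = q + r) (c : Fin q → Γ → MvPolynomial τ k)
    (δ : Fin q → ℕ) (hδ : ∀ j, 0 < δ j) (hc : ∀ j γ, (c j γ).IsHomogeneous (δ j))
    (z : Fin r → MvPolynomial τ k) (hz : ∀ i, (z i).IsHomogeneous 1) (E : ℕ) (x x' : Γ → k)
    (hE : (mx τ k) ^ E ≤ Jx c z x) (hE' : (mx τ k) ^ E ≤ Jx c z x') (D : ℕ) :
    Module.finrank k (gp (Jx c z x) D) = Module.finrank k (gp (Jx c z x') D) := by
  rw [← ofList_lx, ← ofList_lx]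
  exact hf_eq _ _ _ (forall₂_lx c δ hc z hz x) (forall₂_lx c δ hc z hz x')
    (lx_regular hcard c δ hδ hc z hz E x hE) (lx_regular hcard c δ hδ hc z hz E x' hE') D

/-- spanning is an open condition -/
theorem near_spanMod (c : Fin q → Γ → MvPolynomial τ k)
    (δ : Fin q → ℕ) (hc : ∀ j γ, (c j γ).IsHomogeneous (δ j))
    (z : Fin r → MvPolynomial τ k) (hz : ∀ i, (z i).IsHomogeneous 1) (E : ℕ) (x₀ : Γ → k)
    (hE : (mx τ k) ^ E ≤ Jx c z x₀) {β : Type} [Fintype β] (b : β → MvPolynomial τ k)
    (dg : β → ℕ) (hb : ∀ i, (b i).IsHomogeneous (dg i)) (hS : SpanMod (Jx c z x₀) b dg) :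
    Near x₀ (fun x => (mx τ k) ^ E ≤ Jx c z x ∧ SpanMod (Jx c z x) b dg) := by
  classical
  have h1 : Near x₀ (fun x => (mx τ k) ^ E ≤ Jx c z x) :=
    open_pow_le c δ hc z (fun _ => 1) hz E x₀ hE
  have h2 : ∀ (D : Fin E) (m : Mo τ D), ∃ P : β → (Γ → k) → MvPolynomial (Fin r) k,
      (∀ i x, (P i x).IsHomogeneous (D - dg i)) ∧ (∀ i x, D < dg i → P i x = 0) ∧
      (∀ i, RegP x₀ (P i)) ∧ Near x₀ (fun x => monomial m.1 1 - ∑ i, aeval z (P i x) * b i ∈
        Ideal.span (Set.range (lin c x))) :=
    fun D m => rep c δ hc x₀ z hz b dg hb hS D _ (isHomogeneous_monomial _ m.2)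
  choose P hP1 hP2 _ hP4 using h2
  have h3 : Near x₀ (fun x => ∀ (D : Fin E) (m : Mo τ D),
      monomial m.1 1 - ∑ i, aeval z (P D m i x) * b i ∈ Ideal.span (Set.range (lin c x))) :=
    Near.all fun D => Near.all fun m => hP4 D m
  refine (h1.and h3).mono fun x hx => ⟨hx.1, ?_⟩
  intro D v hv
  by_cases hD : D < E
  · -- the monomials
    have h4 : ∀ m : Mo τ D, ∃ lam : β → k, (∀ i, dg i ≠ D → lam i = 0) ∧
        monomial m.1 1 - ∑ i, C (lam i) * b i ∈ Jx c z x := by
      intro m
      refine ⟨fun i => if dg i = D then coeff 0 (P ⟨D, hD⟩ m i x) else 0, ?_, ?_⟩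
      · intro i hi
        exact if_neg hi
      · have h5 := (le_sup_left : Ideal.span (Set.range (lin c x)) ≤ Jx c z x)
          (hx.2 ⟨D, hD⟩ m)
        have h6 : ∀ i, (aeval z (P ⟨D, hD⟩ m i x) -
            C (if dg i = D then coeff 0 (P ⟨D, hD⟩ m i x) else 0)) * b i ∈ Jx c z x := by
          intro i
          refine Ideal.mul_mem_right _ _ ?_
          have h7 := hP1 ⟨D, hD⟩ m i x
          have h8 := hP2 ⟨D, hD⟩ m i x
          simp only at h7 h8
          generalize P ⟨D, hD⟩ m i x = p at h7 h8 ⊢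
          by_cases hi : dg i = D
          · rw [if_pos hi]
            rw [hi, Nat.sub_self] at h7
            have h9 : p = C (coeff 0 p) := by
              rw [← totalDegree_zero_iff_isHomogeneous] at h7
              exact (totalDegree_eq_zero_iff_eq_C).mp h7
            rw [h9, aeval_C, coeff_C, if_pos rfl]
            simp
          · rw [if_neg hi, C_0, sub_zero]
            by_cases hi2 : D < dg i
            · rw [h8 hi2, map_zero]
              exact Ideal.zero_mem _
            · -- positive degree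
              have h9 : 0 < D - dg i := by omega
              refine (le_sup_right : Ideal.span (Set.range z) ≤ Jx c z x) ?_
              rw [p.as_sum, map_sum]
              refine Ideal.sum_mem _ fun a ha => ?_
              rw [aeval_monomial]
              refine Ideal.mul_mem_left _ _ ?_
              have h10 : a ≠ 0 := by
                rintro rfl
                have h11 : (0 : Fin r →₀ ℕ).degree = D - dg i := by
                  by_contra hne
                  exact (mem_support_iff.mp ha) (h7.coeff_eq_zero hne)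
                rw [map_zero] at h11
                omega
              obtain ⟨s, hs⟩ := Finsupp.ne_iff.mp h10
              rw [Finsupp.prod, ← Finset.mul_prod_erase _ _ (Finsupp.mem_support_iff.mpr hs)]
              refine Ideal.mul_mem_right _ _ ?_
              have hzs : z s ∈ Ideal.span (Set.range z) := Ideal.subset_span (Set.mem_range_self s)
              exact Ideal.pow_mem_of_mem _ hzs _ (Nat.pos_of_ne_zero hs)
        have h7 : monomial m.1 1 - ∑ i, C (if dg i = D then coeff 0 (P ⟨D, hD⟩ m i x) else 0) *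
            b i = (monomial m.1 1 - ∑ i, aeval z (P ⟨D, hD⟩ m i x) * b i) +
            ∑ i, (aeval z (P ⟨D, hD⟩ m i x) -
            C (if dg i = D then coeff 0 (P ⟨D, hD⟩ m i x) else 0)) * b i := by
          simp only [sub_mul, Finset.sum_sub_distrib]
          ring
        rw [h7]
        exact Ideal.add_mem _ h5 (Ideal.sum_mem _ fun i _ => h6 i)
    choose lam hl1 hl2 using h4
    refine ⟨fun i => ∑ m : Mo τ D, coeff m.1 v * lam m i, ?_, ?_⟩
    · intro i hi
      exact Finset.sum_eq_zero fun m _ => by rw [hl1 m i hi, mul_zero]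
    · have h5 : v - ∑ i, C (∑ m : Mo τ D, coeff m.1 v * lam m i) * b i =
          ∑ m : Mo τ D, C (coeff m.1 v) * (monomial m.1 1 - ∑ i, C (lam m i) * b i) := by
        simp only [mul_sub, Finset.sum_sub_distrib]
        rw [← mo_sum hv]
        congr 1
        simp only [map_sum, map_mul, Finset.mul_sum, Finset.sum_mul]
        rw [Finset.sum_comm]
        refine Finset.sum_congr rfl fun m _ => Finset.sum_congr rfl fun i _ => ?_
        ring
      rw [h5]
      exact Ideal.sum_mem _ fun m _ => Ideal.mul_mem_left _ _ (hl2 m)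
  · refine ⟨fun _ => 0, fun _ _ => rfl, ?_⟩
    have h4 : v ∈ Jx c z x := by
      apply hx.1
      rw [mem_pow_idealOfVars_iff]
      intro m hm
      have h2 : m.degree = D := by
        by_contra hne
        exact (mem_support_iff.mp hm) (hv.coeff_eq_zero hne)
      omega
    simpa using h4

end Pool.Agent.Helper30.RC
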