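import Mathlib
import Pool.Agent.Helper30.RC.Bas2

/-!
# The quotient `k[a] / (c(x))` is free over `k[z]`
-/

namespace Pool.Agent.Helper30.RC

open MvPolynomial

attribute [local instance] MvPolynomial.gradedAlgebra

variable {k : Type} [Field k] {τ : Type} [Finite τ] {Γ : Type} [Fintype Γ] {q r : ℕ}

/-- The quotient by `I` as an algebra over the polynomial ring in the `z i`. -/
def QZ (_z : Fin r → MvPolynomial τ k) (I : Ideal (MvPolynomial τ k)) : Type :=
  MvPolynomial τ k ⧸ I

noncomputable instance (z : Fin r → MvPolynomial τ k) (I : Ideal (MvPolynomial τ k)) :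
    CommRing (QZ z I) := inferInstanceAs (CommRing (MvPolynomial τ k ⧸ I))

/-- the projection -/
noncomputable def mkQZ (z : Fin r → MvPolynomial τ k) (I : Ideal (MvPolynomial τ k)) :
    MvPolynomial τ k →+* QZ z I := Ideal.Quotient.mk I

noncomputable instance (z : Fin r → MvPolynomial τ k) (I : Ideal (MvPolynomial τ k)) :
    Algebra (MvPolynomial (Fin r) k) (QZ z I) :=
  ((mkQZ z I).comp (aeval z : MvPolynomial (Fin r) k →ₐ[k] MvPolynomial τ k).toRingHom).toAlgebra

omit [Finite τ] in
theorem mkQZ_surjective (z : Fin r → MvPolynomial τ k) (I : Ideal (MvPolynomial τ k)) :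
    Function.Surjective (mkQZ z I) := Ideal.Quotient.mk_surjective

omit [Finite τ] in
theorem mkQZ_eq_zero {z : Fin r → MvPolynomial τ k} {I : Ideal (MvPolynomial τ k)}
    {p : MvPolynomial τ k} : mkQZ z I p = 0 ↔ p ∈ I := Ideal.Quotient.eq_zero_iff_mem

omit [Finite τ] in
theorem smul_mkQZ (z : Fin r → MvPolynomial τ k) (I : Ideal (MvPolynomial τ k))
    (p : MvPolynomial (Fin r) k) (v : MvPolynomial τ k) :
    p • mkQZ z I v = mkQZ z I (aeval z p * v) := by
  rw [Algebra.smul_def, map_mul]
  rfl

instance (z : Fin r → MvPolynomial τ k) (I : Ideal (MvPolynomial τ k)) :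
    IsNoetherianRing (QZ z I) := inferInstanceAs (IsNoetherianRing (MvPolynomial τ k ⧸ I))

omit [Finite τ] in
/-- regularity of `z` modulo `c(x)` from the regularity of the list -/
theorem reg_of_lx (c : Fin q → Γ → MvPolynomial τ k) (z : Fin r → MvPolynomial τ k) (x : Γ → k)
    (h : RingTheory.Sequence.IsWeaklyRegular (MvPolynomial τ k) (lx c z x)) (i : Fin r)
    (y : MvPolynomial τ k)
    (hy : z i * y ∈ Ideal.span (Set.range (lin c x)) ⊔ Ideal.span (z '' {j | j < i})) :
    y ∈ Ideal.span (Set.range (lin c x)) ⊔ Ideal.span (z '' {j | j < i}) := by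
  have hlen : q + (i : ℕ) < (lx c z x).length := by
    rw [lx, List.length_append, List.length_ofFn, List.length_ofFn]
    have := i.2
    omega
  have h1 := h.regular_mod_prev (q + i) hlen
  have h2 : (lx c z x)[q + (i : ℕ)] = z i := by
    simp only [lx]
    rw [List.getElem_append_right (by simp)]
    simp
  have h3 : Ideal.ofList ((lx c z x).take (q + i)) =
      Ideal.span (Set.range (lin c x)) ⊔ Ideal.span (z '' {j | j < i}) := by
    have h4 : (lx c z x).take (q + i) = List.ofFn (lin c x) ++ (List.ofFn z).take i := by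
      rw [lx, List.take_append]
      simp
    rw [h4, Ideal.ofList_append, ofList_ofFn]
    congr 1
    unfold Ideal.ofList
    congr 1
    ext p
    change p ∈ (List.ofFn z).take i ↔ p ∈ z '' {j | j < i}
    rw [List.mem_take_iff_getElem]
    constructor
    · rintro ⟨j, hj, rfl⟩
      rw [lt_min_iff, List.length_ofFn] at hj
      refine ⟨⟨j, hj.2⟩, hj.1, ?_⟩
      simp
    · rintro ⟨j, hj, rfl⟩
      have hj' : (j : ℕ) < i := hj
      refine ⟨j, ?_, ?_⟩
      · rw [lt_min_iff, List.length_ofFn]
        exact ⟨hj', j.2⟩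
      · simp
  rw [h2, h3] at h1
  set K := Ideal.span (Set.range (lin c x)) ⊔ Ideal.span (z '' {j | j < i}) with hK
  have h5 : (K • (⊤ : Submodule (MvPolynomial τ k) (MvPolynomial τ k))) = K := by
    rw [smul_eq_mul, Ideal.mul_top]
  rw [h5] at h1
  have h6 : (z i) • (Submodule.Quotient.mk y : MvPolynomial τ k ⧸ K) = 0 := by
    rw [← Submodule.Quotient.mk_smul, Submodule.Quotient.mk_eq_zero]
    exact hy
  have h7 := h1.right_eq_zero_of_smul h6
  exact (Submodule.Quotient.mk_eq_zero K).mp h7

/-- the basis over `k[z]` -/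
noncomputable def basisQZ (hcard : Nat.card τ = q + r) (c : Fin q → Γ → MvPolynomial τ k)
    (δ : Fin q → ℕ) (hδ : ∀ j, 0 < δ j) (hc : ∀ j γ, (c j γ).IsHomogeneous (δ j))
    (z : Fin r → MvPolynomial τ k) (hz : ∀ i, (z i).IsHomogeneous 1) (E : ℕ) (x : Γ → k)
    (hE : (mx τ k) ^ E ≤ Jx c z x) {β : Type} [Fintype β] (b : β → MvPolynomial τ k)
    (dg : β → ℕ) (hb : ∀ i, (b i).IsHomogeneous (dg i)) (hS : SpanMod (Jx c z x) b dg)
    (hcount : ∀ D, (Finset.univ.filter (fun i => dg i = D)).card +
      Module.finrank k (gp (Jx c z x) D) = Module.finrank k (homogeneousSubmodule τ k D)) :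
    Module.Basis β (MvPolynomial (Fin r) k) (QZ z (Ideal.span (Set.range (lin c x)))) :=
  Module.Basis.mk (v := fun i => mkQZ z (Ideal.span (Set.range (lin c x))) (b i))
    (by
      classical
      rw [Fintype.linearIndependent_iff]
      intro g hg
      have hreg := lx_regular hcard c δ hδ hc z hz E x hE
      have hJh : (Jx c z x).IsHomogeneous (homogeneousSubmodule τ k) :=
        (isHomogeneous_span _ δ (lin_hom hc x)).sup (isHomogeneous_span _ (fun _ => 1) hz)
      have hind := indep_of_card (Jx c z x) hJh b dg hb hS hcount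
      have h1 := indep_of_regular r (Ideal.span (Set.range (lin c x))) z
        (fun i y hy => reg_of_lx c z x hreg i y hy) b hind (Finsupp.equivFunOnFinite.symm g) (by
          rw [Finsupp.sum_fintype]
          · rw [← mkQZ_eq_zero (z := z), map_sum, ← hg]
            refine Finset.sum_congr rfl fun i _ => ?_
            rw [smul_mkQZ]
            rfl
          · intro i
            rw [map_zero, zero_mul])
      intro i
      have := DFunLike.congr_fun h1 i
      simpa using this)
    (by
      rintro y -
      obtain ⟨v, rfl⟩ := mkQZ_surjective z _ y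
      rw [← sum_homogeneousComponent v, map_sum]
      refine Submodule.sum_mem _ fun D _ => ?_
      obtain ⟨P, -, -, hP⟩ := span_over _ (isHomogeneous_span _ δ (lin_hom hc x)) z hz b dg hb hS
        D _ (homogeneousComponent_isHomogeneous D v)
      have h1 : mkQZ z (Ideal.span (Set.range (lin c x))) (homogeneousComponent D v) =
          ∑ i, P i • mkQZ z (Ideal.span (Set.range (lin c x))) (b i) := by
        rw [← sub_eq_zero]
        simp only [smul_mkQZ]
        rw [← map_sum, ← map_sub, mkQZ_eq_zero]
        exact hP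
      rw [h1]
      exact Submodule.sum_mem _ fun i _ => Submodule.smul_mem _ _ (Submodule.subset_span ⟨i, rfl⟩))

end Pool.Agent.Helper30.RC
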