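import Mathlib
import Pool.Agent.Helper30.RC.Bas3

/-!
# The characteristic polynomial as a regular family
-/

namespace Pool.Agent.Helper30.RC

open MvPolynomial

attribute [local instance] MvPolynomial.gradedAlgebra

/-- polynomials in `X` over `k[z]` as polynomials in one more variable -/
noncomputable def toOpt (k : Type) [Field k] (r : ℕ) :
    Polynomial (MvPolynomial (Fin r) k) ≃ₐ[k] MvPolynomial (Option (Fin r)) k :=
  (optionEquivLeft k (Fin r)).symm

section

variable {k : Type} [Field k] {r : ℕ}

theorem toOpt_X : toOpt k r Polynomial.X = X none := optionEquivLeft_symm_X _ _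

theorem toOpt_C (p : MvPolynomial (Fin r) k) : toOpt k r (Polynomial.C p) = rename some p := by
  induction p using MvPolynomial.induction_on with
  | C a =>
    rw [rename_C]
    exact optionEquivLeft_symm_C_C _ _ a
  | add p q hp hq => rw [map_add, map_add, map_add, hp, hq]
  | mul_X p i hp =>
    rw [map_mul, map_mul, map_mul, hp, rename_X]
    congr 1
    exact optionEquivLeft_symm_C_X _ _ i

theorem coeff_toOpt (P : Polynomial (MvPolynomial (Fin r) k)) (m : Option (Fin r) →₀ ℕ) :
    coeff m (toOpt k r P) = coeff m.some (P.coeff (m none)) := by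
  rw [← optionEquivLeft_coeff_some_coeff_none]
  congr 2
  exact AlgEquiv.apply_symm_apply (optionEquivLeft k (Fin r)) P

theorem toOpt_hom_C {p : MvPolynomial (Fin r) k} {D : ℕ} (hp : p.IsHomogeneous D) :
    (toOpt k r (Polynomial.C p)).IsHomogeneous D := by
  rw [toOpt_C]
  exact IsHomogeneous.rename_isHomogeneous hp

end

section

variable {k : Type} [Field k] {r : ℕ} {β : Type} [Fintype β] [DecidableEq β] {Γ : Type}

/-- the entries of the characteristic matrix -/
noncomputable def ent (M : Matrix β β (MvPolynomial (Fin r) k)) (j i : β) :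
    MvPolynomial (Option (Fin r)) k :=
  (if j = i then X none else 0) - toOpt k r (Polynomial.C (M j i))

theorem toOpt_charpoly (M : Matrix β β (MvPolynomial (Fin r) k)) :
    toOpt k r M.charpoly = (Matrix.of (ent M)).det := by
  have h := (toOpt k r).toAlgHom.toRingHom.map_det M.charmatrix
  have h1 : (toOpt k r).toAlgHom.toRingHom M.charmatrix.det = toOpt k r M.charpoly := rfl
  rw [h1] at h
  rw [h]
  congr 1
  ext1 j i
  change toOpt k r (M.charmatrix j i) = ent M j i
  rw [Matrix.charmatrix_apply, map_sub, ent]
  congr 1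
  by_cases hji : j = i
  · subst hji
    rw [Matrix.diagonal_apply_eq, if_pos rfl, toOpt_X]
  · rw [Matrix.diagonal_apply_ne _ hji, if_neg hji, map_zero]

/-- graded matrices: the entry `(j, i)` is a form of degree `1 + dg i - dg j` -/
def GMat (M : Matrix β β (MvPolynomial (Fin r) k)) (dg : β → ℕ) : Prop :=
  ∀ j i, (M j i).IsHomogeneous (1 + dg i - dg j) ∧ (1 + dg i < dg j → M j i = 0)

theorem charpoly_hom {M : Matrix β β (MvPolynomial (Fin r) k)} {dg : β → ℕ} (h : GMat M dg) :
    (toOpt k r M.charpoly).IsHomogeneous (Fintype.card β) := by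
  rw [toOpt_charpoly, Matrix.det_apply]
  refine IsHomogeneous.sum _ _ _ fun s _ => ?_
  have h1 : (∏ i, Matrix.of (ent M) (s i) i).IsHomogeneous (Fintype.card β) := by
    by_cases hs : ∃ i, 1 + dg i < dg (s i)
    · obtain ⟨i, hi⟩ := hs
      have h2 : Matrix.of (ent M) (s i) i = 0 := by
        change ent M (s i) i = 0
        have hne : s i ≠ i := by
          intro he
          rw [he] at hi
          omega
        rw [ent, if_neg hne, (h (s i) i).2 hi]
        simp
      have h3 : ∏ i, Matrix.of (ent M) (s i) i = 0 :=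
        Finset.prod_eq_zero (f := fun i => Matrix.of (ent M) (s i) i) (Finset.mem_univ i) h2
      rw [h3]
      exact isHomogeneous_zero _ _ _
    · push Not at hs
      have h2 : ∀ i, (Matrix.of (ent M) (s i) i).IsHomogeneous (1 + dg i - dg (s i)) := by
        intro i
        change (ent M (s i) i).IsHomogeneous _
        rw [ent]
        refine IsHomogeneous.sub ?_ (toOpt_hom_C (h (s i) i).1)
        split_ifs with he
        · rw [he]
          have : 1 + dg i - dg i = 1 := by omega
          rw [this]
          exact isHomogeneous_X _ _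
        · exact isHomogeneous_zero _ _ _
      have h3 := IsHomogeneous.prod Finset.univ (fun i => Matrix.of (ent M) (s i) i)
        (fun i => 1 + dg i - dg (s i)) (fun i _ => h2 i)
      have h4 : ∑ i, (1 + dg i - dg (s i)) = Fintype.card β := by
        have h5 : ∑ i, (1 + dg i - dg (s i)) + ∑ i, dg (s i) = ∑ i, (1 + dg i) := by
          rw [← Finset.sum_add_distrib]
          refine Finset.sum_congr rfl fun i _ => ?_
          have := hs i
          omega
        rw [Equiv.sum_comp s dg, Finset.sum_add_distrib] at h5
        simp only [Finset.sum_const, Finset.card_univ, smul_eq_mul, mul_one] at h5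
        omega
      rwa [h4] at h3
  rw [Units.smul_def, zsmul_eq_mul]
  have h2 : ((((Equiv.Perm.sign s : ℤˣ) : ℤ) : MvPolynomial (Option (Fin r)) k)) =
      C (((Equiv.Perm.sign s : ℤˣ) : ℤ) : k) := by simp
  rw [h2]
  exact h1.C_mul _

theorem coeff_charpoly (M : Matrix β β (MvPolynomial (Fin r) k)) :
    coeff (Finsupp.single none (Fintype.card β)) (toOpt k r M.charpoly) = 1 := by
  rw [coeff_toOpt]
  have h1 : (Finsupp.single none (Fintype.card β) : Option (Fin r) →₀ ℕ).some = 0 := by
    ext i
    simp
  have h2 : (Finsupp.single none (Fintype.card β) : Option (Fin r) →₀ ℕ) none =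
      Fintype.card β := by simp
  rw [h1, h2]
  have h3 : M.charpoly.coeff (Fintype.card β) = 1 := by
    have h4 := Matrix.charpoly_monic M
    rw [Polynomial.Monic, Polynomial.leadingCoeff, Matrix.charpoly_natDegree_eq_dim] at h4
    exact h4
  rw [h3]
  simp

theorem regP_toOpt_C {x₀ : Γ → k} {F : (Γ → k) → MvPolynomial (Fin r) k} (h : RegP x₀ F) :
    RegP x₀ (fun x => toOpt k r (Polynomial.C (F x))) := by
  intro m
  simp only [coeff_toOpt]
  by_cases hm : m none = 0
  · simp only [hm, Polynomial.coeff_C_zero]
    exact h _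
  · have : (fun x => coeff m.some ((Polynomial.C (F x)).coeff (m none))) = fun _ => 0 := by
      funext x
      rw [Polynomial.coeff_C, if_neg hm, coeff_zero]
    rw [this]
    exact Reg.const _ _

theorem RegP.neg {σ : Type*} {x₀ : Γ → k} {F : (Γ → k) → MvPolynomial σ k} (h : RegP x₀ F) :
    RegP x₀ (fun x => - F x) := by
  have h1 := (RegP.const x₀ (C (-1) : MvPolynomial σ k)).mul h
  have h2 : (fun x => C (-1) * F x) = fun x => - F x := by
    funext x
    simp
  rwa [h2] at h1

theorem charpoly_regP {x₀ : Γ → k} (M : (Γ → k) → Matrix β β (MvPolynomial (Fin r) k))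
    (h : ∀ j i, RegP x₀ (fun x => M x j i)) : RegP x₀ (fun x => toOpt k r (M x).charpoly) := by
  simp only [toOpt_charpoly, Matrix.det_apply]
  refine RegP.sum _ fun s _ => ?_
  have h2 : ∀ x, Equiv.Perm.sign s • ∏ i, Matrix.of (ent (M x)) (s i) i =
      C (((Equiv.Perm.sign s : ℤˣ) : ℤ) : k) * ∏ i, Matrix.of (ent (M x)) (s i) i := by
    intro x
    rw [Units.smul_def, zsmul_eq_mul]
    simp
  simp only [h2]
  refine (RegP.const _ _).mul (RegP.prod _ fun i _ => ?_)
  change RegP x₀ (fun x => ent (M x) (s i) i)
  have h3 : (fun x => ent (M x) (s i) i) = fun x => (if s i = i then X none else 0) +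
      - toOpt k r (Polynomial.C (M x (s i) i)) := by
    funext x
    rw [ent, sub_eq_add_neg]
  rw [h3]
  exact (RegP.const _ _).add (regP_toOpt_C (h _ _)).neg

end

end Pool.Agent.Helper30.RC
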