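import Mathlib
import Pool.Agent.Helper30.RC.GenDim

/-!
# Every component of the zero set passes through the marked point
-/

namespace Pool.Agent.Helper30.RC

open MvPolynomial

attribute [local instance] MvPolynomial.gradedAlgebra

variable {k : Type*} [Field k] {τ : Type*}

theorem minimalPrime_homogeneous (I : Ideal (MvPolynomial τ k))
    (hI : I.IsHomogeneous (homogeneousSubmodule τ k)) (P : Ideal (MvPolynomial τ k))
    (hP : P ∈ I.minimalPrimes) : P.IsHomogeneous (homogeneousSubmodule τ k) := by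
  have hPp : P.IsPrime := hP.1.1
  have h1 : (P.homogeneousCore (homogeneousSubmodule τ k)).toIdeal.IsPrime :=
    hPp.homogeneousCore
  have h2 : I ≤ (P.homogeneousCore (homogeneousSubmodule τ k)).toIdeal := by
    rw [← hI.toIdeal_homogeneousCore_eq_self]
    exact Ideal.homogeneousCore_mono _ hP.1.2
  have h3 := hP.2 ⟨h1, h2⟩ (Ideal.toIdeal_homogeneousCore_le _ P)
  rw [Ideal.IsHomogeneous.iff_eq]
  exact le_antisymm (Ideal.toIdeal_homogeneousCore_le _ P) h3

theorem eval_smul_hom {p : MvPolynomial τ k} {D : ℕ} (hp : p.IsHomogeneous D) (s : k)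
    (W : τ → k) : eval (s • W) p = s ^ D * eval W p := by
  classical
  rw [eval_eq, eval_eq, Finset.mul_sum]
  refine Finset.sum_congr rfl fun m hm => ?_
  have h1 : m.degree = D := by
    by_contra hne
    exact (mem_support_iff.mp hm) (hp.coeff_eq_zero hne)
  have h2 : ∏ i ∈ m.support, (s • W) i ^ m i = s ^ D * ∏ i ∈ m.support, W i ^ m i := by
    rw [← h1, Finsupp.degree_apply, ← Finset.prod_pow_eq_pow_sum, ← Finset.prod_mul_distrib]
    refine Finset.prod_congr rfl fun i _ => ?_
    rw [Pi.smul_apply, smul_eq_mul, mul_pow]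
  rw [h2]
  ring

theorem comp_contains [IsAlgClosed k] [Finite τ] {J ρ : Type*} [Fintype J] [Fintype ρ]
    (c : J → MvPolynomial τ k) (δ : J → ℕ) (hc : ∀ j, (c j).IsHomogeneous (δ j))
    (z : ρ → MvPolynomial τ k) (ε : ρ → ℕ) (hε : ∀ i, 0 < ε i)
    (hz : ∀ i, (z i).IsHomogeneous (ε i))
    (hcard : Nat.card τ = Fintype.card J + Fintype.card ρ + 1) (W : τ → k)
    (h1 : ∀ a : τ → k, (∀ j, eval a (c j) = 0) → (∀ i, eval a (z i) = 0) → ∃ s : k, a = s • W)
    (P : Ideal (MvPolynomial τ k)) (hP : P ∈ (Ideal.span (Set.range c)).minimalPrimes)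
    (p : MvPolynomial τ k) (hp : p ∈ P) : eval W p = 0 := by
  by_contra hne
  have hPp : P.IsPrime := hP.1.1
  have hPh := minimalPrime_homogeneous _ (isHomogeneous_span c δ hc) P hP
  -- a homogeneous element of `P` not vanishing at `W`
  obtain ⟨D, hD⟩ : ∃ D, eval W (homogeneousComponent D p) ≠ 0 := by
    by_contra hcon
    push Not at hcon
    apply hne
    rw [← sum_homogeneousComponent p, map_sum]
    exact Finset.sum_eq_zero fun i _ => hcon i
  have hDP : homogeneousComponent D p ∈ P := homogeneousComponent_mem_of_mem hPh hp D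
  have hDh := homogeneousComponent_isHomogeneous D p
  -- the ideal `P + (z)` has only the trivial zero
  have hle : Ideal.span (Set.range c) ≤ P := hP.1.2
  obtain ⟨E, hE⟩ := pow_le_of_zero (P ⊔ Ideal.span (Set.range z)) (by
    intro a ha
    obtain ⟨s, rfl⟩ := h1 a
      (fun j => ha _ ((le_sup_left : P ≤ _) (hle (Ideal.subset_span ⟨j, rfl⟩))))
      (fun i => ha _ ((le_sup_right : Ideal.span (Set.range z) ≤ _)
        (Ideal.subset_span ⟨i, rfl⟩)))
    have h2 := ha _ ((le_sup_left : P ≤ _) hDP)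
    rw [eval_smul_hom hDh] at h2
    have h3 : s ^ D = 0 := (mul_eq_zero.mp h2).resolve_right hD
    have h4 : s = 0 := by
      by_contra hs
      exact pow_ne_zero D hs h3
    rw [h4, zero_smul])
  have hfin := finite_of_pow_le P hPh z ε hε hz E hE
  have h2 : ringKrullDim (MvPolynomial τ k ⧸ P) ≤ Fintype.card ρ := by
    have h3 : ringKrullDim (MvPolynomial ρ k) = Fintype.card ρ := by
      rw [dim_mvPoly, Nat.card_eq_fintype_card]
    rw [← h3]
    have h1' : RingHom.Finite ((Ideal.Quotient.mkₐ k P).comp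
      (aeval z : MvPolynomial ρ k →ₐ[k] MvPolynomial τ k)).toRingHom := hfin
    exact dim_le_of_integral _ h1'.to_isIntegral
  have h4 := le_dim_of_minimalPrimes c P hP
  have h5 : ((Fintype.card J + Fintype.card ρ + 1 : ℕ) : WithBot ℕ∞) ≤
      ((Fintype.card ρ + Fintype.card J : ℕ) : WithBot ℕ∞) := by
    rw [hcard] at h4
    refine h4.trans ?_
    push_cast
    exact add_le_add h2 le_rfl
  have h6 : Fintype.card J + Fintype.card ρ + 1 ≤ Fintype.card ρ + Fintype.card J := by
    exact_mod_cast h5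
  omega

end Pool.Agent.Helper30.RC
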