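import Mathlib

/-!
# Differentials at a point and Nakayama's lemma
-/

namespace Pool.Agent.Helper30.RC

open MvPolynomial

variable {k : Type*} [Field k] {τ : Type*} [Fintype τ]

/-- the derivative of `p` at `W` in the direction `Z` -/
noncomputable def dd (W Z : τ → k) (p : MvPolynomial τ k) : k :=
  ∑ t, Z t * eval W (pderiv t p)

theorem dd_add (W Z : τ → k) (p q : MvPolynomial τ k) : dd W Z (p + q) = dd W Z p + dd W Z q := by
  simp [dd, mul_add, Finset.sum_add_distrib]

theorem dd_mul (W Z : τ → k) (p q : MvPolynomial τ k) :
    dd W Z (p * q) = eval W p * dd W Z q + eval W q * dd W Z p := by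
  simp only [dd, Derivation.leibniz, smul_eq_mul, map_add, map_mul, Finset.mul_sum]
  rw [← Finset.sum_add_distrib]
  refine Finset.sum_congr rfl fun t _ => ?_
  ring

theorem dd_C (W Z : τ → k) (c : k) : dd W Z (C c) = 0 := by
  simp [dd]

theorem dd_X (W Z : τ → k) (t : τ) : dd W Z (X t) = Z t := by
  classical
  simp [dd, pderiv_X, Pi.single_apply, apply_ite]

theorem dd_add_right (W Z Z' : τ → k) (p : MvPolynomial τ k) :
    dd W (Z + Z') p = dd W Z p + dd W Z' p := by
  simp [dd, add_mul, Finset.sum_add_distrib]

theorem dd_smul_right (W Z : τ → k) (c : k) (p : MvPolynomial τ k) :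
    dd W (c • Z) p = c * dd W Z p := by
  simp [dd, Finset.mul_sum, mul_assoc]

/-- the maximal ideal of a point -/
noncomputable def mpt (W : τ → k) : Ideal (MvPolynomial τ k) := RingHom.ker (eval W)

omit [Fintype τ] in
theorem mem_mpt {W : τ → k} {p : MvPolynomial τ k} : p ∈ mpt W ↔ eval W p = 0 := RingHom.mem_ker

omit [Fintype τ] in
theorem X_sub_mem (W : τ → k) (t : τ) : X t - C (W t) ∈ mpt W := by
  rw [mem_mpt]
  simp

/-- Taylor expansion to first order -/
theorem taylor (W : τ → k) (p : MvPolynomial τ k) :
    p - C (eval W p) - ∑ t, C (eval W (pderiv t p)) * (X t - C (W t)) ∈ mpt W * mpt W := by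
  classical
  induction p using MvPolynomial.induction_on with
  | C a => simp
  | add p q hp hq =>
    have := Ideal.add_mem _ hp hq
    convert this using 1
    simp only [map_add, add_mul, Finset.sum_add_distrib]
    ring
  | mul_X p s hp =>
    set L := ∑ t, C (eval W (pderiv t p)) * (X t - C (W t)) with hL
    have hLm : L ∈ mpt W := Ideal.sum_mem _ fun t _ => Ideal.mul_mem_left _ _ (X_sub_mem W t)
    have h1 : ∑ t, C (eval W (pderiv t (p * X s))) * (X t - C (W t)) =
        C (eval W p) * (X s - C (W s)) + C (W s) * L := by
      rw [hL, Finset.mul_sum]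
      have h2 : ∀ t, C (eval W (pderiv t (p * X s))) * (X t - C (W t)) =
          (if t = s then C (eval W p) * (X s - C (W s)) else 0) +
            C (W s) * (C (eval W (pderiv t p)) * (X t - C (W t))) := by
        intro t
        rw [Derivation.leibniz, pderiv_X, smul_eq_mul, smul_eq_mul, map_add, map_mul, map_mul,
          eval_X, Pi.single_apply]
        by_cases h : t = s
        · subst h
          simp only [if_true, map_one, map_add, map_mul]
          ring
        · have h' : s ≠ t := fun e => h e.symm
          simp only [if_neg h, if_neg h', map_zero, map_add, map_mul]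
          ring
      rw [Finset.sum_congr rfl fun t _ => h2 t, Finset.sum_add_distrib]
      simp
    rw [h1]
    have h3 : p * X s - C (eval W (p * X s)) -
        (C (eval W p) * (X s - C (W s)) + C (W s) * L) =
        (p - C (eval W p) - L) * X s + L * (X s - C (W s)) := by
      rw [map_mul, eval_X, C_mul]
      ring
    rw [h3]
    exact Ideal.add_mem _ (Ideal.mul_mem_right _ _ hp) (Ideal.mul_mem_mul hLm (X_sub_mem W s))

/-- If the tangent space at `W` of the scheme defined by `I` is trivial then some function not
vanishing at `W` multiplies the maximal ideal of `W` into `I`. -/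
theorem exists_mul_mem (W : τ → k) (I : Ideal (MvPolynomial τ k)) (hI : I ≤ mpt W)
    (h : ∀ Z : τ → k, (∀ p ∈ I, dd W Z p = 0) → Z = 0) :
    ∃ s : MvPolynomial τ k, eval W s = 1 ∧ ∀ x, eval W x = 0 → s * x ∈ I := by
  classical
  -- the differentials of the elements of `I`
  let T : MvPolynomial τ k →ₗ[k] (τ → k) :=
    { toFun := fun p t => eval W (pderiv t p)
      map_add' := by intro p q; ext t; simp
      map_smul' := by intro c p; ext t; simp [smul_eval] }
  let U : Submodule k (τ → k) := (I.restrictScalars k).map T
  have hU : U = ⊤ := by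
    by_contra hne
    obtain ⟨f, hf, hfU⟩ := Submodule.exists_le_ker_of_lt_top U (lt_top_iff_ne_top.mpr hne)
    apply hf
    have h1 : (fun t => f (Pi.single t 1)) = 0 := by
      apply h
      intro p hp
      have h2 : f (T p) = 0 := hfU ⟨p, hp, rfl⟩
      have h3 : T p = ∑ t, (T p) t • (Pi.single t 1 : τ → k) := by
        ext s
        simp [Finset.sum_apply, Pi.single_apply]
      rw [h3, map_sum] at h2
      rw [← h2]
      simp only [dd, map_smul, smul_eq_mul]
      refine Finset.sum_congr rfl fun t _ => ?_
      rw [mul_comm]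
      rfl
    apply LinearMap.pi_ext'
    intro t
    ext
    have := congrFun h1 t
    simpa using this
  have hX : ∀ t, X t - C (W t) ∈ I ⊔ mpt W * mpt W := by
    intro t
    have h1 : (Pi.single t 1 : τ → k) ∈ U := by rw [hU]; trivial
    obtain ⟨p, hp, hpt⟩ := h1
    have h2 := taylor W p
    have h3 : eval W p = 0 := mem_mpt.mp (hI hp)
    have h4 : ∑ s, C (eval W (pderiv s p)) * (X s - C (W s)) = X t - C (W t) := by
      have h5 : ∀ s, eval W (pderiv s p) = (Pi.single t 1 : τ → k) s := fun s => congrFun hpt s
      simp only [h5, Pi.single_apply]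
      rw [Finset.sum_eq_single t]
      · simp
      · intro b _ hb
        simp [hb]
      · simp
    rw [h3, C_0, sub_zero, h4] at h2
    have h5 : X t - C (W t) = p - (p - (X t - C (W t))) := by ring
    rw [h5]
    exact Ideal.sub_mem _ ((le_sup_left : I ≤ _) hp) ((le_sup_right : mpt W * mpt W ≤ _) h2)
  have hm : mpt W = Ideal.span (Set.range fun t => X t - C (W t)) := by
    apply le_antisymm
    · intro p hp
      have h0 := mem_mpt.mp hp
      -- write `p` as a combination
      have : ∀ q : MvPolynomial τ k, q - C (eval W q) ∈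
          Ideal.span (Set.range fun t => (X t - C (W t) : MvPolynomial τ k)) := by
        intro q
        induction q using MvPolynomial.induction_on with
        | C a => simp
        | add p q hp hq =>
          have := Ideal.add_mem _ hp hq
          convert this using 1
          simp only [map_add]
          ring
        | mul_X p s hp =>
          have h1 : p * X s - C (eval W (p * X s)) =
              (p - C (eval W p)) * X s + C (eval W p) * (X s - C (W s)) := by
            rw [map_mul, eval_X, C_mul]
            ring
          rw [h1]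
          exact Ideal.add_mem _ (Ideal.mul_mem_right _ _ hp)
            (Ideal.mul_mem_left _ _ (Ideal.subset_span ⟨s, rfl⟩))
      have h1 := this p
      rwa [h0, C_0, sub_zero] at h1
    · rw [Ideal.span_le]
      rintro _ ⟨t, rfl⟩
      exact X_sub_mem W t
  have hle : mpt W ≤ I ⊔ mpt W * mpt W := by
    conv_lhs => rw [hm]
    rw [Ideal.span_le]
    rintro _ ⟨t, rfl⟩
    exact hX t
  -- Nakayama in the quotient
  let N : Submodule (MvPolynomial τ k) (MvPolynomial τ k ⧸ I) :=
    Submodule.map I.mkQ (mpt W)
  have hNfg : N.FG := (IsNoetherian.noetherian (mpt W)).map _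
  have hN : N ≤ mpt W • N := by
    rintro _ ⟨x, hx, rfl⟩
    obtain ⟨u, hu, v, hv, rfl⟩ := Submodule.mem_sup.mp (hle hx)
    have h1 : I.mkQ u = 0 := (Submodule.Quotient.mk_eq_zero I).mpr hu
    rw [map_add, h1, zero_add]
    refine Submodule.mul_induction_on hv ?_ ?_
    · intro a ha b hb
      have : I.mkQ (a * b) = a • I.mkQ b := by
        rw [← map_smul, smul_eq_mul]
      rw [this]
      exact Submodule.smul_mem_smul ha ⟨b, hb, rfl⟩
    · intro a b ha hb
      rw [map_add]
      exact Submodule.add_mem _ ha hb
  obtain ⟨r, hr, hrN⟩ :=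
    Submodule.exists_sub_one_mem_and_smul_eq_zero_of_fg_of_le_smul (mpt W) N hNfg hN
  refine ⟨r, ?_, ?_⟩
  · have := mem_mpt.mp hr
    rw [map_sub, map_one, sub_eq_zero] at this
    exact this
  · intro x hx
    have h1 := hrN (I.mkQ x) ⟨x, mem_mpt.mpr hx, rfl⟩
    rw [← map_smul, smul_eq_mul] at h1
    exact (Submodule.Quotient.mk_eq_zero I).mp h1

end Pool.Agent.Helper30.RC
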