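import Mathlib
import Pool.Agent.Helper30.RC.Bas2
import Pool.Agent.Helper30.RC.Jac
import Pool.Agent.Helper30.RC.Comp

/-!
# Choice of the projection `z` and of the separating linear form
-/

namespace Pool.Agent.Helper30.RC

open MvPolynomial

variable {k : Type} [Field k] {τ : Type} [Fintype τ] {q r : ℕ}

/-- the linear forms with coefficients `ζ` -/
noncomputable def lf (ζ : Fin r × τ → k) (i : Fin r) : MvPolynomial τ k :=
  ∑ t, C (ζ (i, t)) * X t

theorem lf_hom (ζ : Fin r × τ → k) (i : Fin r) : (lf ζ i).IsHomogeneous 1 :=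
  IsHomogeneous.sum _ _ _ fun t _ => (isHomogeneous_X k t).C_mul _

theorem eval_lf (ζ : Fin r × τ → k) (i : Fin r) (a : τ → k) :
    eval a (lf ζ i) = ∑ t, ζ (i, t) * a t := by
  simp [lf]

theorem dd_sum {ι : Type*} (W Z : τ → k) (s : Finset ι) (f : ι → MvPolynomial τ k) :
    dd W Z (∑ i ∈ s, f i) = ∑ i ∈ s, dd W Z (f i) := by
  classical
  induction s using Finset.induction_on with
  | empty =>
    have := dd_C W Z (0 : k)
    rw [C_0] at this
    simpa using this
  | insert a s ha ih => rw [Finset.sum_insert ha, Finset.sum_insert ha, dd_add, ih]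

theorem dd_lf (ζ : Fin r × τ → k) (i : Fin r) (W Z : τ → k) :
    dd W Z (lf ζ i) = ∑ t, ζ (i, t) * Z t := by
  rw [lf, dd_sum]
  refine Finset.sum_congr rfl fun t _ => ?_
  rw [dd_mul, dd_C, dd_X, eval_C, mul_zero, add_zero]

/-- a linear form is determined by its coefficients -/
theorem linear_rep {p : MvPolynomial τ k} (hp : p.IsHomogeneous 1) :
    ∃ co : τ → k, p = ∑ t, C (co t) * X t := by
  have h1 : p ∈ homogeneousSubmodule τ k 1 := hp
  rw [homogeneousSubmodule_one_eq_span_X, Submodule.mem_span_range_iff_exists_fun] at h1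
  obtain ⟨co, hco⟩ := h1
  refine ⟨co, ?_⟩
  rw [← hco]
  refine Finset.sum_congr rfl fun t _ => ?_
  rw [smul_eq_C_mul]

/-- zero set conditions for the chosen projection -/
theorem exists_choice [IsAlgClosed k] {ρ : Type} [Fintype ρ]
    (c : Fin q → MvPolynomial τ k) (δ : Fin q → ℕ) (hc : ∀ j, (c j).IsHomogeneous (δ j))
    (z' : ρ → MvPolynomial τ k) (hz' : ∀ i, (z' i).IsHomogeneous 1)
    (hcard : Fintype.card τ = q + Fintype.card ρ + 1) (W : τ → k) (hW : W ≠ 0)
    (h1 : ∀ a : τ → k, (∀ j, eval a (c j) = 0) → (∀ i, eval a (z' i) = 0) → ∃ s : k, a = s • W)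
    (hsurj : ∀ y : Fin q → k, ∃ Z : τ → k, ∀ j, dd W Z (c j) = y j) :
    ∃ z : Fin (Fintype.card ρ + 1) → MvPolynomial τ k, (∀ i, (z i).IsHomogeneous 1) ∧
      (∃ E, (mx τ k) ^ E ≤ Ideal.span (Set.range c) ⊔ Ideal.span (Set.range z)) ∧
      (∀ Z : τ → k, (∀ j, dd W Z (c j) = 0) → (∀ i, dd W Z (z i) = 0) → Z = 0) := by
  classical
  let r := Fintype.card ρ + 1
  have hinf : Infinite k := IsAlgClosed.instInfinite
  -- the kernel of the differential
  let L : (τ → k) →ₗ[k] (Fin q → k) :=
    { toFun := fun Z j => dd W Z (c j)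
      map_add' := by intro Z Z'; ext j; exact dd_add_right _ _ _ _
      map_smul' := by intro a Z; ext j; exact dd_smul_right _ _ _ _ }
  have hLs : Function.Surjective L := by
    intro y
    obtain ⟨Z, hZ⟩ := hsurj y
    exact ⟨Z, funext hZ⟩
  have hker : Module.finrank k (LinearMap.ker L) = r := by
    have h2 := LinearMap.finrank_range_add_finrank_ker L
    rw [LinearMap.range_eq_top.mpr hLs, finrank_top, Module.finrank_fintype_fun_eq_card,
      Module.finrank_fintype_fun_eq_card, Fintype.card_fin, hcard] at h2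
    omega
  let v : Module.Basis (Fin r) k (LinearMap.ker L) := Module.finBasisOfFinrankEq _ _ hker
  -- condition (b)
  let Mb : Matrix (Fin r) (Fin r) (MvPolynomial (Fin r × τ) k) :=
    fun i j => ∑ t, X (i, t) * C ((v j : τ → k) t)
  have hMb : ∀ ζ : Fin r × τ → k, ∀ i j, eval ζ (Mb i j) = ∑ t, ζ (i, t) * (v j : τ → k) t := by
    intro ζ i j
    simp [Mb]
  have hb1 : ∀ ζ : Fin r × τ → k, eval ζ Mb.det ≠ 0 →
      ∀ Z : τ → k, (∀ j, dd W Z (c j) = 0) → (∀ i, dd W Z (lf ζ i) = 0) → Z = 0 := by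
    intro ζ hζ Z hZ1 hZ2
    have hZk : Z ∈ LinearMap.ker L := by
      rw [LinearMap.mem_ker]
      exact funext hZ1
    have h2 : ((eval ζ).mapMatrix Mb).mulVec (v.repr ⟨Z, hZk⟩) = 0 := by
      ext i
      rw [Pi.zero_apply, ← hZ2 i, dd_lf, Matrix.mulVec, dotProduct]
      simp only [RingHom.mapMatrix_apply, Matrix.map_apply, hMb]
      have h3 : Z = ∑ j, v.repr ⟨Z, hZk⟩ j • (v j : τ → k) := by
        have h4 := congrArg (Submodule.subtype _) (v.sum_repr ⟨Z, hZk⟩)
        rw [map_sum] at h4
        exact h4.symm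
      have h5 : ∀ t, Z t = ∑ j, v.repr ⟨Z, hZk⟩ j * (v j : τ → k) t := by
        intro t
        have h6 := congrFun h3 t
        rw [Finset.sum_apply] at h6
        exact h6
      simp only [Finset.sum_mul]
      rw [Finset.sum_comm]
      refine Finset.sum_congr rfl fun t _ => ?_
      rw [h5 t, Finset.mul_sum]
      refine Finset.sum_congr rfl fun j _ => ?_
      ring
    have h3 : ((eval ζ).mapMatrix Mb).det ≠ 0 := by
      rw [← RingHom.map_det]
      exact hζ
    have h4 := Matrix.eq_zero_of_mulVec_eq_zero h3 h2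
    have h5 : v.repr ⟨Z, hZk⟩ = 0 := DFunLike.coe_injective h4
    have h6 : (⟨Z, hZk⟩ : LinearMap.ker L) = 0 := v.repr.map_eq_zero_iff.mp h5
    exact congrArg Subtype.val h6
  have hb2 : ∃ ζ : Fin r × τ → k, eval ζ Mb.det ≠ 0 := by
    have h2 : ∀ i : Fin r, ∃ g : (τ → k) →ₗ[k] k, g.comp (LinearMap.ker L).subtype = v.coord i :=
      fun i => LinearMap.exists_extend (v.coord i)
    choose g hg using h2
    refine ⟨fun p => g p.1 (Pi.single p.2 1), ?_⟩
    rw [RingHom.map_det]
    have h3 : (eval fun p : Fin r × τ => g p.1 (Pi.single p.2 1)).mapMatrix Mb = 1 := by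
      ext i j
      rw [RingHom.mapMatrix_apply, Matrix.map_apply, hMb]
      have h4 : ∑ t, g i (Pi.single t 1) * (v j : τ → k) t = g i (v j : τ → k) := by
        conv_rhs => rw [pi_eq_sum_univ' (v j : τ → k)]
        rw [map_sum]
        refine Finset.sum_congr rfl fun t _ => ?_
        rw [map_smul, smul_eq_mul, mul_comm]
      rw [h4]
      have h5 := LinearMap.congr_fun (hg i) (v j)
      rw [LinearMap.comp_apply, Submodule.subtype_apply] at h5
      rw [h5, Module.Basis.coord_apply, Module.Basis.repr_self, Matrix.one_apply,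
        Finsupp.single_apply]
      by_cases hij : i = j
      · rw [if_pos hij, if_pos hij.symm]
      · rw [if_neg hij, if_neg (fun e => hij e.symm)]
    rw [h3, Matrix.det_one]
    exact one_ne_zero
  -- condition (a)
  obtain ⟨t₀, ht₀⟩ := Function.ne_iff.mp hW
  have hrep : ∀ i, ∃ co : τ → k, z' i = ∑ t, C (co t) * X t := fun i => linear_rep (hz' i)
  choose co hco using hrep
  let e : Fin r ≃ Option ρ := Fintype.equivOfCardEq (by simp [r])
  let co' : Option ρ → τ → k := fun o => o.elim (Pi.single t₀ 1) co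
  let ζ₀ : Fin r × τ → k := fun p => co' (e p.1) p.2
  let c' : Fin r → (Fin r × τ) → MvPolynomial τ k := fun i p => if i = p.1 then X p.2 else 0
  have hlin : ∀ ζ : Fin r × τ → k, lin c' ζ = lf ζ := by
    intro ζ
    funext i
    rw [lin, lf, Fintype.sum_prod_type, Finset.sum_eq_single i]
    · refine Finset.sum_congr rfl fun t _ => ?_
      simp [c']
    · intro i' _ hne
      refine Finset.sum_eq_zero fun t _ => ?_
      have : i ≠ i' := fun h => hne h.symm
      simp [c', this]
    · simp
  have hc' : ∀ i p, (c' i p).IsHomogeneous 1 := by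
    intro i p
    simp only [c']
    split_ifs
    · exact isHomogeneous_X _ _
    · exact isHomogeneous_zero _ _ _
  obtain ⟨E, hE⟩ := pow_le_of_zero (Ideal.span (Set.range (lin c' ζ₀)) ⊔
      Ideal.span (Set.range c)) (by
    intro a ha
    have h2 : ∀ j, eval a (c j) = 0 := fun j => ha _ ((le_sup_right :
      Ideal.span (Set.range c) ≤ _) (Ideal.subset_span (Set.mem_range_self j)))
    have h3 : ∀ i, eval a (lf ζ₀ i) = 0 := fun i => ha _ ((le_sup_left :
      Ideal.span (Set.range (lin c' ζ₀)) ≤ _) (Ideal.subset_span ⟨i, by rw [hlin]⟩))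
    have h4 : ∀ o : Option ρ, ∑ t, co' o t * a t = 0 := by
      intro o
      have := h3 (e.symm o)
      rw [eval_lf] at this
      simpa [ζ₀] using this
    obtain ⟨s, rfl⟩ := h1 a h2 (by
      intro i
      rw [hco i]
      have := h4 (some i)
      simpa [co'] using this)
    have h5 := h4 none
    have h6 : s * W t₀ = 0 := by
      simpa [co', Pi.single_apply] using h5
    have h7 : s = 0 := (mul_eq_zero.mp h6).resolve_right (by simpa using ht₀)
    rw [h7, zero_smul])
  obtain ⟨Da, hDa0, hDa⟩ := open_pow_le c' (fun _ => 1) hc' c δ hc E ζ₀ hE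
  -- combine
  have hDne : Da * Mb.det ≠ 0 := by
    obtain ⟨ζ, hζ⟩ := hb2
    refine mul_ne_zero ?_ ?_
    · rintro rfl
      exact hDa0 (map_zero _)
    · intro h
      rw [h] at hζ
      exact hζ (map_zero _)
  obtain ⟨ζ, hζ⟩ : ∃ ζ : Fin r × τ → k, eval ζ (Da * Mb.det) ≠ 0 := by
    by_contra hcon
    push Not at hcon
    exact hDne (MvPolynomial.funext fun ζ => by rw [hcon ζ, map_zero])
  rw [map_mul] at hζ
  refine ⟨lf ζ, lf_hom ζ, ⟨E, ?_⟩, hb1 ζ (right_ne_zero_of_mul hζ)⟩
  have h2 := hDa ζ (left_ne_zero_of_mul hζ)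
  rw [hlin, sup_comm] at h2
  exact h2

/-- a linear form vanishing at `W` and at no other point of the fibre through `W` -/
theorem exists_l [IsAlgClosed k] (c : Fin q → MvPolynomial τ k) (δ : Fin q → ℕ)
    (hc : ∀ j, (c j).IsHomogeneous (δ j)) (z : Fin r → MvPolynomial τ k)
    (hz : ∀ i, (z i).IsHomogeneous 1) (E : ℕ)
    (hE : (mx τ k) ^ E ≤ Ideal.span (Set.range c) ⊔ Ideal.span (Set.range z))
    (W : τ → k) (hW : W ≠ 0) (hcW : ∀ j, eval W (c j) = 0) :
    ∃ l : MvPolynomial τ k, l.IsHomogeneous 1 ∧ eval W l = 0 ∧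
      ∀ a : τ → k, (∀ j, eval a (c j) = 0) → (∀ i, eval a (z i) = eval W (z i)) →
        eval a l = 0 → a = W := by
  classical
  have hinf : Infinite k := IsAlgClosed.instInfinite
  -- `z(W)` is nonzero
  have hzW : ∃ i, eval W (z i) ≠ 0 := by
    by_contra hcon
    push Not at hcon
    apply hW
    ext t
    have h1 : (X t : MvPolynomial τ k) ^ E ∈
        Ideal.span (Set.range c) ⊔ Ideal.span (Set.range z) :=
      hE (Ideal.pow_mem_pow (Ideal.subset_span (Set.mem_range_self t)) E)
    have h2 : Ideal.span (Set.range c) ⊔ Ideal.span (Set.range z) ≤ mpt W := by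
      refine sup_le ?_ ?_
      · rw [Ideal.span_le]
        rintro _ ⟨j, rfl⟩
        exact mem_mpt.mpr (hcW j)
      · rw [Ideal.span_le]
        rintro _ ⟨i, rfl⟩
        exact mem_mpt.mpr (hcon i)
    have h3 := mem_mpt.mp (h2 h1)
    rw [map_pow, eval_X] at h3
    exact by_contra fun hne => pow_ne_zero E hne h3
  -- the fibre is finite
  let S : Set (τ → k) := {a | (∀ j, eval a (c j) = 0) ∧ ∀ i, eval a (z i) = eval W (z i)}
  have hfinite : S.Finite := by
    have hfin := finite_of_pow_le (Ideal.span (Set.range c)) (isHomogeneous_span c δ hc) z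
      (fun _ => 1) (fun _ => one_pos) hz E hE
    have h1' : RingHom.Finite ((Ideal.Quotient.mkₐ k (Ideal.span (Set.range c))).comp
      (aeval z : MvPolynomial (Fin r) k →ₐ[k] MvPolynomial τ k)).toRingHom := hfin
    have hint := h1'.to_isIntegral
    have h2 : ∀ t : τ, ∃ p : Polynomial (MvPolynomial (Fin r) k), p.Monic ∧
        p.eval₂ ((Ideal.Quotient.mkₐ k (Ideal.span (Set.range c))).comp
          (aeval z : MvPolynomial (Fin r) k →ₐ[k] MvPolynomial τ k)).toRingHom
          (Ideal.Quotient.mk _ (X t)) = 0 := fun t => hint _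
    choose p hp1 hp2 using h2
    have h3 : S ⊆ Set.univ.pi fun t => {y : k | y ∈ ((p t).map
        (eval fun i => eval W (z i))).roots} := by
      rintro a ⟨ha1, ha2⟩ t -
      rw [Set.mem_ofPred, Polynomial.mem_roots ((hp1 t).map _).ne_zero, Polynomial.IsRoot.def,
        Polynomial.eval_map]
      let ev : (MvPolynomial τ k ⧸ Ideal.span (Set.range c)) →+* k :=
        Ideal.Quotient.lift _ (eval a) (by
          intro x hx
          have h4 : Ideal.span (Set.range c) ≤ mpt a := by
            rw [Ideal.span_le]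
            rintro _ ⟨j, rfl⟩
            exact mem_mpt.mpr (ha1 j)
          exact mem_mpt.mp (h4 hx))
      have h4 := congrArg ev (hp2 t)
      rw [map_zero, Polynomial.hom_eval₂] at h4
      have h5 : ev (Ideal.Quotient.mk _ (X t)) = a t := by
        change eval a (X t) = a t
        rw [eval_X]
      have h6 : ev.comp ((Ideal.Quotient.mkₐ k (Ideal.span (Set.range c))).comp
          (aeval z : MvPolynomial (Fin r) k →ₐ[k] MvPolynomial τ k)).toRingHom =
          eval fun i => eval W (z i) := by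
        apply ringHom_ext
        · intro b
          change eval a (aeval z (C b)) = _
          rw [aeval_C, algebraMap_eq, eval_C, eval_C]
        · intro i
          change eval a (aeval z (X i)) = _
          rw [aeval_X, eval_X]
          exact ha2 i
      rw [h5, h6] at h4
      exact h4
    exact (Set.Finite.pi fun t => Multiset.finite_toSet _).subset h3
  -- the linear form
  have hSf : Finite {a : τ → k // a ∈ S ∧ a ≠ W} :=
    (hfinite.subset (fun a (ha : a ∈ S ∧ a ≠ W) => ha.1)).to_subtype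
  obtain ⟨f, hf⟩ := Module.exists_dual_forall_apply_ne_zero (K := k)
    (fun a : {a : τ → k // a ∈ S ∧ a ≠ W} =>
      (Submodule.Quotient.mk a.1 : (τ → k) ⧸ Submodule.span k {W})) (by
    rintro ⟨a, ha, hne⟩ h
    rw [Submodule.Quotient.mk_eq_zero, Submodule.mem_span_singleton] at h
    obtain ⟨s, rfl⟩ := h
    obtain ⟨i, hi⟩ := hzW
    have h1 := ha.2 i
    rw [eval_smul_hom (hz i), pow_one] at h1
    have h2 : s = 1 := by
      have h3 : (s - 1) * eval W (z i) = 0 := by rw [sub_mul, h1]; ring
      have h4 := (mul_eq_zero.mp h3).resolve_right hi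
      exact sub_eq_zero.mp h4
    exact hne (by rw [h2, one_smul]))
  let g : (τ → k) →ₗ[k] k := f.comp (Submodule.span k {W}).mkQ
  have hg : ∀ a : τ → k, eval a (∑ t, C (g (Pi.single t 1)) * X t) = g a := by
    intro a
    conv_rhs => rw [pi_eq_sum_univ' a]
    rw [map_sum, map_sum]
    refine Finset.sum_congr rfl fun t _ => ?_
    rw [map_smul, smul_eq_mul, map_mul, eval_C, eval_X, mul_comm]
  refine ⟨∑ t, C (g (Pi.single t 1)) * X t, ?_, ?_, ?_⟩
  · exact IsHomogeneous.sum _ _ _ fun t _ => (isHomogeneous_X k t).C_mul _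
  · rw [hg]
    change f ((Submodule.span k {W}).mkQ W) = 0
    have : (Submodule.span k {W}).mkQ W = 0 := by
      rw [← LinearMap.mem_ker, Submodule.ker_mkQ]
      exact Submodule.mem_span_singleton_self W
    rw [this, map_zero]
  · intro a ha1 ha2 hal
    by_contra hne
    rw [hg] at hal
    exact hf ⟨a, ⟨ha1, ha2⟩, hne⟩ hal

end Pool.Agent.Helper30.RC
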