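import Mathlib

/-!
# A finite free algebra with an element of irreducible characteristic polynomial is a domain
-/

namespace Pool.Agent.Helper30.RC

open Polynomial

theorem cyclic_of_irreducible {K ι : Type*} [Field K] [Fintype ι] [DecidableEq ι]
    (M : Matrix ι ι K) (h : Irreducible M.charpoly) (v : ι → K) (hv : v ≠ 0) (w : ι → K) :
    ∃ P : K[X], (aeval M P).mulVec v = w := by
  classical
  let n := Fintype.card ι
  let T : degreeLT K n →ₗ[K] (ι → K) :=
    { toFun := fun P => (aeval M (P : K[X])).mulVec v
      map_add' := by
        intro P Q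
        simp [Matrix.add_mulVec]
      map_smul' := by
        intro c P
        simp [Matrix.smul_mulVec] }
  have hinj : Function.Injective T := by
    rw [injective_iff_map_eq_zero]
    intro P hP
    by_contra hne
    have hP0 : (P : K[X]) ≠ 0 := fun h => hne (Subtype.ext h)
    have hdeg : (P : K[X]).degree < n := mem_degreeLT.mp P.2
    have hcop : IsCoprime M.charpoly (P : K[X]) := by
      rw [Irreducible.coprime_iff_not_dvd h]
      intro hdvd
      have h1 := degree_le_of_dvd hdvd hP0
      rw [Matrix.charpoly_degree_eq_dim] at h1
      exact absurd (lt_of_le_of_lt h1 hdeg) (lt_irrefl _)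
    obtain ⟨a, c, hac⟩ := hcop
    apply hv
    have h2 : (aeval M (a * M.charpoly + c * (P : K[X]))).mulVec v = v := by
      rw [hac, map_one, Matrix.one_mulVec]
    rw [← h2, map_add, map_mul, map_mul, Matrix.aeval_self_charpoly, mul_zero, zero_add,
      ← Matrix.mulVec_mulVec]
    have h3 : (aeval M (P : K[X])).mulVec v = 0 := hP
    rw [h3, Matrix.mulVec_zero]
  have hfin : Module.finrank K (degreeLT K n) = Module.finrank K (ι → K) := by
    rw [Module.finrank_fintype_fun_eq_card, LinearEquiv.finrank_eq (degreeLTEquiv K n)]
    simp [n]
  have _ : FiniteDimensional K (degreeLT K n) :=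
    Module.Finite.equiv (degreeLTEquiv K n).symm
  have hsurj : Function.Surjective T :=
    (LinearMap.injective_iff_surjective_of_finrank_eq_finrank hfin).mp hinj
  obtain ⟨P, hP⟩ := hsurj w
  exact ⟨P, hP⟩

theorem isDomain_of_irreducible {A R ι : Type*} [CommRing A] [IsDomain A] [IsIntegrallyClosed A]
    [CommRing R] [Algebra A R] [Fintype ι] [DecidableEq ι] (b : Module.Basis ι A R) (l : R)
    (h : Irreducible (Algebra.leftMulMatrix b l).charpoly) : IsDomain R := by
  let K := FractionRing A
  let f : A →+* K := algebraMap A K
  have hf : Function.Injective f := IsFractionRing.injective _ _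
  set M := Algebra.leftMulMatrix b l with hM
  have hM1 : (f.mapMatrix M).charpoly = M.charpoly.map f := Matrix.charpoly_map M f
  have hirr : Irreducible (f.mapMatrix M).charpoly := by
    rw [hM1]
    exact (Matrix.charpoly_monic M).irreducible_iff_irreducible_map_fraction_map.mp h
  have hne : Nonempty ι := by
    by_contra hcon
    rw [not_nonempty_iff] at hcon
    apply h.not_isUnit
    have : M.charpoly = 1 := by
      rw [Matrix.charpoly, Matrix.det_isEmpty]
    rw [this]
    exact isUnit_one
  have hnt : Nontrivial R := by
    obtain ⟨i⟩ := hne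
    exact ⟨b i, 0, b.ne_zero i⟩
  have key : ∀ x y : R, x * y = 0 → y ≠ 0 → x = 0 := by
    intro x y hxy hy
    let v : ι → K := fun i => f (b.repr y i)
    have hv : v ≠ 0 := by
      intro hv
      apply hy
      apply b.repr.injective
      rw [map_zero]
      ext i
      apply hf
      rw [Finsupp.zero_apply, map_zero]
      exact congrFun hv i
    have hmv : ∀ z : R, (f.mapMatrix (Algebra.leftMulMatrix b z)).mulVec v =
        fun i => f (b.repr (z * y) i) := by
      intro z
      ext i
      rw [← Algebra.leftMulMatrix_mulVec_repr, RingHom.map_mulVec]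
      rfl
    have hXv : (f.mapMatrix (Algebra.leftMulMatrix b x)).mulVec v = 0 := by
      rw [hmv, hxy]
      ext i
      simp
    have hX : f.mapMatrix (Algebra.leftMulMatrix b x) = 0 := by
      have hcomm : Commute (f.mapMatrix (Algebra.leftMulMatrix b x)) (f.mapMatrix M) := by
        change _ * _ = _ * _
        rw [← map_mul, ← map_mul, hM, ← map_mul, ← map_mul, mul_comm]
      refine Matrix.ext_iff_mulVec.mpr fun w => ?_
      obtain ⟨P, rfl⟩ := cyclic_of_irreducible _ hirr v hv w
      have hc2 : Commute (f.mapMatrix (Algebra.leftMulMatrix b x))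
          (aeval (f.mapMatrix M) P) := by
        induction P using Polynomial.induction_on' with
        | add p q hp hq =>
          rw [map_add]
          exact hp.add_right hq
        | monomial n a =>
          rw [aeval_monomial]
          have h5 : Commute (f.mapMatrix (Algebra.leftMulMatrix b x))
              (algebraMap K (Matrix ι ι K) a) := (Algebra.commutes a _).symm
          exact h5.mul_right (hcomm.pow_right n)
      rw [Matrix.mulVec_mulVec, hc2.eq, ← Matrix.mulVec_mulVec, hXv, Matrix.mulVec_zero,
        Matrix.zero_mulVec]
    have h1 : Algebra.leftMulMatrix b x = 0 := by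
      ext i j
      apply hf
      have := congrFun (congrFun hX i) j
      simpa using this
    exact (Algebra.leftMulMatrix_injective b) (by rw [h1, map_zero])
  have hnzd : NoZeroDivisors R := ⟨by
    intro x y hxy
    by_cases hy : y = 0
    · exact Or.inr hy
    · exact Or.inl (key x y hxy hy)⟩
  exact NoZeroDivisors.to_isDomain R

end Pool.Agent.Helper30.RC
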