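import Mathlib
import Pool.Agent.Helper30.RC.Gr
import Pool.Agent.Helper30.RC.Opn
import Pool.Agent.Helper30.RC.Near

/-!
RC-FAC.  Irreducibility is an open condition in families of polynomials of degree `≤ R` which are
monic of degree `R` in one variable `v`.

Proof.  For `0 < i < R` let `A_i` be the set of exponents `α` with degree `≤ i`, `α ≠ i v`
(finite), and consider the polynomial ring `G` in unknowns `g_α` (`α ∈ A_i`), `h_β`
(`β ∈ A_{R-i}`).  The product of `X_v^i + ∑ g_α X^α` and `X_v^(R-i) + ∑ h_β X^β` is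
`X_v^R + ∑_γ C_γ X^γ` (`γ ∈ A_R`) with `C_γ ∈ G`.  Give `g_α` the weight `i - α_v > 0`, `h_β` the
weight `R - i - β_v > 0`; then `C_γ` is weighted homogeneous of weight `R - γ_v > 0`.
The only common zero of the `C_γ` is 0: if `g h = X_v^R` then `g` divides a power of the prime
`X_v`, so `g` is a constant times a power of `X_v`, and coefficient comparison gives `g = X_v^i`.
By the Nullstellensatz (`pow_le_of_zero`) and graded Nakayama (as `finite_of_pow_le` in Gr.lean,
but with weights: `weightedHomogeneousComponent`; alternatively: every `g_α`, `h_β` is integral over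
`k[C_γ]`) `G` is a finite module over `S = k[y_γ]` via `y_γ ↦ C_γ`.
Let `y⁰` be the coefficients of `F x₀`.  Since `F x₀` is irreducible there is no point of `G` over
`y⁰` (it would give a factorization into nonconstant factors), so by the Nullstellensatz
`(C_γ - y⁰_γ) G = G`, and Nakayama
(`Submodule.exists_sub_one_mem_and_smul_eq_zero_of_fg_of_le_smul`) gives `s ∈ S` with `s(y⁰) = 1`
and `s ↦ 0` in `G`.  So `s` vanishes at the coefficient vectors of all products of two factors of
degrees `i`, `R - i` as above.  The function `x ↦ s(coefficients of F x)` is regular (`Reg.comp`) and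
nonzero at `x₀`, so nonzero near `x₀` (`Reg.near_ne`).
Finally if `F x` is monic as in the hypothesis, of total degree `≤ R` and not irreducible, then
`F x = g h` with nonconstant `g`, `h`, total degrees `i` and `R - i` (add up to `R`,
`totalDegree_mul_of_isDomain`), both between 1 and `R - 1`; the coefficient of `X_v^R` in the product is
the product of the coefficients of `X_v^i` and `X_v^(R-i)`, so after scaling both are 1: for some
`0 < i < R` the above applies.  (`F x` is not a unit and not 0 since `R ≥ 1`: `R = 0` would give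
`F x₀ = 1`, not irreducible.)
-/

namespace Pool.Agent.Helper30.RC

open MvPolynomial

private theorem h99_monic {S₁ A : Type*} [CommRing A] {g : MvPolynomial (Option S₁) A} {i : ℕ}
    (hg : g.totalDegree ≤ i) (h1 : coeff (Finsupp.single none i) g = 1) :
    (optionEquivLeft A S₁ g).Monic := by
  classical
  apply Polynomial.monic_of_natDegree_le_of_coeff_eq_one i
  · rw [natDegree_optionEquivLeft]
    exact (degreeOf_le_totalDegree _ _).trans hg
  · ext m
    rw [optionEquivLeft_coeff_coeff, coeff_one]
    split_ifs with hm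
    · subst hm
      rw [Finsupp.optionElim_zero, h1]
    · apply coeff_eq_zero_of_totalDegree_lt
      refine hg.trans_lt ?_
      obtain ⟨u, hu⟩ : ∃ u, m u ≠ 0 := by
        by_contra hc
        push Not at hc
        exact hm (Finsupp.ext fun u => (hc u)).symm
      have h2 : (Finsupp.single none i + Finsupp.single (some u) 1 : Option S₁ →₀ ℕ) ≤
          m.optionElim i := by
        intro o
        cases o with
        | none => simp
        | some w =>
          by_cases hw : u = w
          · subst hw
            simp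
            omega
          · simp [hw]
      have h3 : i + 1 ≤ (m.optionElim i).degree := by
        have h4 := Finsupp.degree_mono h2
        simpa [map_add] using h4
      rw [Finsupp.degree] at h3
      exact h3

private theorem h99_int_opt {S₁ S A : Type*} [CommRing S] [CommRing A] [Algebra S A]
    {g h : MvPolynomial (Option S₁) A} {i j : ℕ}
    (hg : g.totalDegree ≤ i) (hg1 : coeff (Finsupp.single none i) g = 1)
    (hh : h.totalDegree ≤ j) (hh1 : coeff (Finsupp.single none j) h = 1)
    (hgh : ∀ γ, coeff γ (g * h) ∈ Set.range (algebraMap S A)) (α : Option S₁ →₀ ℕ) :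
    IsIntegral S (coeff α g) := by
  let _ : Algebra (MvPolynomial S₁ S) (MvPolynomial S₁ A) := MvPolynomial.algebraMvPolynomial
  have hp := h99_monic hg hg1
  have hq := h99_monic hh hh1
  have hlift : optionEquivLeft A S₁ g * optionEquivLeft A S₁ h ∈
      Polynomial.lifts (algebraMap (MvPolynomial S₁ S) (MvPolynomial S₁ A)) := by
    rw [Polynomial.lifts_iff_coeff_lifts]
    intro n
    rw [← map_mul]
    change _ ∈ Set.range (MvPolynomial.map (algebraMap S A))
    rw [mem_range_map_iff_coeffs_subset]
    intro c hc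
    rw [Finset.mem_coe, mem_coeffs_iff] at hc
    obtain ⟨m, -, rfl⟩ := hc
    rw [optionEquivLeft_coeff_coeff]
    exact hgh _
  obtain ⟨P, hP1, -, hP3⟩ := Polynomial.lifts_and_natDegree_eq_and_monic hlift (hp.mul hq)
  have h1 := Polynomial.isIntegral_coeff_of_dvd P (optionEquivLeft A S₁ g) hP3 hp
    (by rw [hP1]; exact dvd_mul_right _ _) (α none)
  have h2 := MvPolynomial.isIntegral_iff_isIntegral_coeff.mp h1 α.some
  rwa [optionEquivLeft_coeff_some_coeff_none] at h2

private theorem h99_int {σ S A : Type*} [CommRing S] [CommRing A] [Algebra S A] (v : σ)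
    {g h : MvPolynomial σ A} {i j : ℕ}
    (hg : g.totalDegree ≤ i) (hg1 : coeff (Finsupp.single v i) g = 1)
    (hh : h.totalDegree ≤ j) (hh1 : coeff (Finsupp.single v j) h = 1)
    (hgh : ∀ γ, coeff γ (g * h) ∈ Set.range (algebraMap S A)) (α : σ →₀ ℕ) :
    IsIntegral S (coeff α g) := by
  classical
  set e : σ ≃ Option {u : σ // u ≠ v} := (Equiv.optionSubtypeNe v).symm with he
  have hev : e v = none := by simp [he]
  have hc : ∀ (p : MvPolynomial σ A) (γ : σ →₀ ℕ),
      coeff (γ.mapDomain e) (rename e p) = coeff γ p := fun p γ =>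
    coeff_rename_mapDomain e e.injective p γ
  have hs : ∀ (n : ℕ), (Finsupp.single none n : Option {u : σ // u ≠ v} →₀ ℕ) =
      (Finsupp.single v n).mapDomain e := by
    intro n
    rw [Finsupp.mapDomain_single, hev]
  have hd : ∀ p : MvPolynomial σ A, (rename e p).totalDegree = p.totalDegree := fun p =>
    totalDegree_renameEquiv e p
  have key := h99_int_opt (S := S) (g := rename e g) (h := rename e h) (i := i) (j := j)
    (by rw [hd]; exact hg) (by rw [hs, hc]; exact hg1) (by rw [hd]; exact hh)
    (by rw [hs, hc]; exact hh1) (by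
      intro γ
      have h1 : γ = (γ.mapDomain e.symm).mapDomain e := by
        rw [← Finsupp.mapDomain_comp]
        simp
      rw [h1, ← map_mul, hc]
      exact hgh _) (α.mapDomain e)
  rwa [hc] at key

/-- exponents of the unknown coefficients -/
private abbrev h99_T {σ : Type*} (v : σ) (i : ℕ) : Type _ :=
  {α : σ →₀ ℕ // α.degree ≤ i ∧ α ≠ Finsupp.single v i}

private theorem h99_finT {σ : Type*} [Finite σ] (v : σ) (i : ℕ) : Finite (h99_T v i) := by
  have := Finsupp.finite_of_degree_le (σ := σ) i
  exact (this.subset fun m hm => hm.1).to_subtype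

private noncomputable def h99_gen {σ A : Type*} [CommRing A] (v : σ) (i : ℕ) [Fintype (h99_T v i)]
    (c : h99_T v i → A) : MvPolynomial σ A :=
  monomial (Finsupp.single v i) 1 + ∑ α : h99_T v i, monomial α.1 (c α)

private theorem h99_gen_coeff {σ A : Type*} [CommRing A] (v : σ) (i : ℕ) [Fintype (h99_T v i)]
    (c : h99_T v i → A) (α : h99_T v i) : coeff α.1 (h99_gen v i c) = c α := by
  classical
  unfold h99_gen
  rw [coeff_add, coeff_monomial, if_neg (fun h => α.2.2 h.symm), zero_add, coeff_sum,
    Finset.sum_eq_single α]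
  · simp
  · intro β _ hβ
    rw [coeff_monomial, if_neg (fun h => hβ (Subtype.ext h))]
  · intro h
    exact absurd (Finset.mem_univ _) h

private theorem h99_gen_top {σ A : Type*} [CommRing A] (v : σ) (i : ℕ) [Fintype (h99_T v i)]
    (c : h99_T v i → A) : coeff (Finsupp.single v i) (h99_gen v i c) = 1 := by
  classical
  unfold h99_gen
  rw [coeff_add, coeff_monomial, if_pos rfl, coeff_sum, Finset.sum_eq_zero, add_zero]
  intro β _
  rw [coeff_monomial, if_neg β.2.2]

private theorem h99_gen_zero {σ A : Type*} [CommRing A] (v : σ) (i : ℕ) [Fintype (h99_T v i)]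
    (c : h99_T v i → A) {α : σ →₀ ℕ} (hα : i < α.degree) : coeff α (h99_gen v i c) = 0 := by
  classical
  unfold h99_gen
  rw [coeff_add, coeff_monomial, if_neg, coeff_sum, Finset.sum_eq_zero, add_zero]
  · intro β _
    rw [coeff_monomial, if_neg]
    intro h
    have := β.2.1
    rw [h] at this
    omega
  · intro h
    rw [← h] at hα
    simp at hα

private theorem h99_deg_le {σ A : Type*} [CommRing A] {p : MvPolynomial σ A} {i : ℕ}
    (h : ∀ α : σ →₀ ℕ, i < α.degree → coeff α p = 0) : p.totalDegree ≤ i := by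
  refine Finset.sup_le fun m hm => ?_
  by_contra hc
  have h1 : i < m.degree := by
    rw [Finsupp.degree]
    exact not_le.mp hc
  exact (mem_support_iff.mp hm) (h m h1)

private theorem h99_eq_gen {σ A : Type*} [CommRing A] (v : σ) (i : ℕ) [Fintype (h99_T v i)]
    {p : MvPolynomial σ A} (hp : p.totalDegree ≤ i) (h1 : coeff (Finsupp.single v i) p = 1) :
    p = h99_gen v i (fun α => coeff α.1 p) := by
  ext α
  by_cases hα : i < α.degree
  · rw [h99_gen_zero v i _ hα]
    exact coeff_eq_zero_of_totalDegree_lt (hp.trans_lt hα)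
  · by_cases hα' : α = Finsupp.single v i
    · subst hα'
      rw [h99_gen_top, h1]
    · exact (h99_gen_coeff v i (fun α => coeff α.1 p) ⟨α, not_lt.mp hα, hα'⟩).symm

private theorem h99_map_gen {σ A B : Type*} [CommRing A] [CommRing B] (f : A →+* B) (v : σ)
    (i : ℕ) [Fintype (h99_T v i)] (c : h99_T v i → A) :
    map f (h99_gen v i c) = h99_gen v i (fun α => f (c α)) := by
  unfold h99_gen
  rw [map_add, map_sum, map_monomial, map_one]
  simp [map_monomial]


section closed

variable {k : Type*} [Field k] [IsAlgClosed k] {σ : Type*} [Finite σ]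

/-- the product of the two generic factors -/
private noncomputable def h99_P (k : Type*) [Field k] {σ : Type*} (v : σ) (i j : ℕ)
    [Fintype (h99_T v i)] [Fintype (h99_T v j)] :
    MvPolynomial σ (MvPolynomial (h99_T v i ⊕ h99_T v j) k) :=
  h99_gen v i (fun α => X (Sum.inl α)) * h99_gen v j (fun α => X (Sum.inr α))

private noncomputable def h99_psi (k : Type*) [Field k] {σ : Type*} (v : σ) (i j : ℕ)
    [Fintype (h99_T v i)] [Fintype (h99_T v j)] :
    MvPolynomial (σ →₀ ℕ) k →ₐ[k] MvPolynomial (h99_T v i ⊕ h99_T v j) k :=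
  aeval fun γ => coeff γ (h99_P k v i j)

omit [IsAlgClosed k] [Finite σ] in
private theorem h99_integral (v : σ) (i j : ℕ) [Fintype (h99_T v i)] [Fintype (h99_T v j)] :
    (h99_psi k v i j).toRingHom.IsIntegral := by
  let _ : Algebra (MvPolynomial (σ →₀ ℕ) k) (MvPolynomial (h99_T v i ⊕ h99_T v j) k) :=
    (h99_psi k v i j).toRingHom.toAlgebra
  have hr : ∀ γ, coeff γ (h99_P k v i j) ∈ Set.range
      (algebraMap (MvPolynomial (σ →₀ ℕ) k) (MvPolynomial (h99_T v i ⊕ h99_T v j) k)) := by
    intro γ
    refine ⟨X γ, ?_⟩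
    change h99_psi k v i j (X γ) = _
    simp [h99_psi]
  have hd : ∀ (n : ℕ) [Fintype (h99_T v n)]
      (c : h99_T v n → MvPolynomial (h99_T v i ⊕ h99_T v j) k),
      (h99_gen v n c).totalDegree ≤ n := fun n _ c => h99_deg_le fun α hα => h99_gen_zero v n c hα
  have hX : ∀ t, IsIntegral (MvPolynomial (σ →₀ ℕ) k)
      (X t : MvPolynomial (h99_T v i ⊕ h99_T v j) k) := by
    intro t
    cases t with
    | inl α =>
      have := h99_int (S := MvPolynomial (σ →₀ ℕ) k) v
        (g := h99_gen v i (fun α => X (Sum.inl α))) (h := h99_gen v j (fun α => X (Sum.inr α)))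
        (hd i _) (h99_gen_top v i _) (hd j _) (h99_gen_top v j _) hr α.1
      rwa [h99_gen_coeff] at this
    | inr α =>
      have := h99_int (S := MvPolynomial (σ →₀ ℕ) k) v
        (g := h99_gen v j (fun α => X (Sum.inr α))) (h := h99_gen v i (fun α => X (Sum.inl α)))
        (hd j _) (h99_gen_top v j _) (hd i _) (h99_gen_top v i _)
        (by rw [mul_comm]; exact hr) α.1
      rwa [h99_gen_coeff] at this
  intro x
  change IsIntegral (MvPolynomial (σ →₀ ℕ) k) x
  induction x using MvPolynomial.induction_on with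
  | C a =>
    have : (C a : MvPolynomial (h99_T v i ⊕ h99_T v j) k) =
        algebraMap (MvPolynomial (σ →₀ ℕ) k) _ (C a) := by
      change _ = h99_psi k v i j (C a)
      simp [h99_psi]
    rw [this]
    exact isIntegral_algebraMap
  | add p q hp hq => exact hp.add hq
  | mul_X p t hp => exact hp.mul (hX t)

omit [Finite σ] in
private theorem h99_closed (v : σ) (i j : ℕ) [Fintype (h99_T v i)] [Fintype (h99_T v j)]
    (y : (σ →₀ ℕ) → k) (hy : ∀ s ∈ RingHom.ker (h99_psi k v i j), eval y s = 0) :
    ∃ z : h99_T v i ⊕ h99_T v j → k, ∀ γ, eval z (coeff γ (h99_P k v i j)) = y γ := by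
  let _ : Algebra (MvPolynomial (σ →₀ ℕ) k) (MvPolynomial (h99_T v i ⊕ h99_T v j) k) :=
    (h99_psi k v i j).toRingHom.toAlgebra
  have _ : Algebra.IsIntegral (MvPolynomial (σ →₀ ℕ) k)
    (MvPolynomial (h99_T v i ⊕ h99_T v j) k) := ⟨h99_integral v i j⟩
  have hmax : (RingHom.ker (eval y : MvPolynomial (σ →₀ ℕ) k →+* k)).IsMaximal := by
    apply RingHom.ker_isMaximal_of_surjective
    intro a
    exact ⟨C a, by simp⟩
  obtain ⟨Q, hQ, hQ2⟩ := Ideal.exists_ideal_over_maximal_of_isIntegral
    (S := MvPolynomial (h99_T v i ⊕ h99_T v j) k)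
    (RingHom.ker (eval y : MvPolynomial (σ →₀ ℕ) k →+* k)) (by
      intro s hs
      exact hy s hs)
  obtain ⟨z, hz⟩ := (isMaximal_iff_eq_vanishingIdeal_singleton (K := k)).mp hQ
  refine ⟨z, fun γ => ?_⟩
  have h1 : (X γ - C (y γ) : MvPolynomial (σ →₀ ℕ) k) ∈
      RingHom.ker (eval y : MvPolynomial (σ →₀ ℕ) k →+* k) := by
    rw [RingHom.mem_ker]
    simp
  rw [← hQ2, Ideal.mem_comap, hz, mem_vanishingIdeal_singleton_iff] at h1
  have h2 : algebraMap (MvPolynomial (σ →₀ ℕ) k) (MvPolynomial (h99_T v i ⊕ h99_T v j) k)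
      (X γ - C (y γ)) = coeff γ (h99_P k v i j) - C (y γ) := by
    change h99_psi k v i j _ = _
    simp [h99_psi]
  rw [h2, aeval_eq_eval] at h1
  have h3 : eval z (coeff γ (h99_P k v i j)) - y γ = 0 := by simpa using h1
  exact sub_eq_zero.mp h3

end closed

private theorem h99_coeff_top {σ k : Type*} [Field k] (v : σ) {a b : MvPolynomial σ k} {i j : ℕ}
    (ha : a.totalDegree ≤ i) (hb : b.totalDegree ≤ j) :
    coeff (Finsupp.single v (i + j)) (a * b) =
      coeff (Finsupp.single v i) a * coeff (Finsupp.single v j) b := by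
  classical
  have hz : ∀ (p : MvPolynomial σ k) (n m : ℕ), p.totalDegree ≤ n → n < m →
      coeff (Finsupp.single v m) p = 0 := by
    intro p n m hp hm
    apply coeff_eq_zero_of_totalDegree_lt
    have h1 : (Finsupp.single v m : σ →₀ ℕ).degree = m := by simp
    rw [Finsupp.degree_apply] at h1
    rw [h1]
    omega
  rw [coeff_mul, Finsupp.antidiagonal_single, Finset.sum_map,
    Finset.sum_eq_single (i, j)]
  · rfl
  · rintro ⟨p, q⟩ hpq hne
    rw [Finset.HasAntidiagonal.mem_antidiagonal] at hpq
    simp only at hpq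
    rcases lt_trichotomy p i with h | h | h
    · have : coeff (Finsupp.single v q) b = 0 := hz b j q hb (by omega)
      simp [this]
    · exfalso
      apply hne
      rw [Prod.mk.injEq]
      omega
    · have : coeff (Finsupp.single v p) a = 0 := hz a i p ha h
      simp [this]
  · intro h
    exfalso
    apply h
    simp

private theorem h99_not_unit {σ k : Type*} [Field k] (v : σ) {a : MvPolynomial σ k} {i : ℕ}
    (hi : 0 < i) (h : coeff (Finsupp.single v i) a = 1) : ¬ IsUnit a := by
  intro hu
  rw [isUnit_iff_totalDegree_of_isReduced] at hu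
  have h1 : (Finsupp.single v i).sum (fun _ e => e) ≤ a.totalDegree := by
    apply le_totalDegree
    rw [mem_support_iff, h]
    exact one_ne_zero
  rw [Finsupp.sum_single_index rfl, hu.2] at h1
  omega

theorem irreducible_near {k : Type*} [Field k] [IsAlgClosed k] {Γ : Type*} {σ : Type*} [Finite σ]
    (v : σ) (R : ℕ) (x₀ : Γ → k) (F : (Γ → k) → MvPolynomial σ k) (hreg : RegP x₀ F)
    (hdeg : Near x₀ fun x => (F x).totalDegree ≤ R)
    (hmon : Near x₀ fun x => coeff (Finsupp.single v R) (F x) = 1)
    (h0 : Irreducible (F x₀)) : Near x₀ fun x => Irreducible (F x) := by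
  classical
  have hx0d := hdeg.self
  have hx0m := hmon.self
  have hR : 0 < R := by
    rcases Nat.eq_zero_or_pos R with rfl | h
    · exfalso
      have h1 : F x₀ = C (coeff 0 (F x₀)) := totalDegree_eq_zero_iff_eq_C.mp (Nat.le_zero.mp hx0d)
      have h2 : coeff 0 (F x₀) = 1 := by simpa using hx0m
      apply h0.not_isUnit
      rw [h1, h2]
      simp
    · exact h
  have key : ∀ i : Fin R, Near x₀ (fun x => 0 < (i : ℕ) → ¬ ∃ a b : MvPolynomial σ k,
      F x = a * b ∧ a.totalDegree ≤ i ∧ b.totalDegree ≤ R - i ∧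
      coeff (Finsupp.single v (i : ℕ)) a = 1 ∧ coeff (Finsupp.single v (R - i)) b = 1) := by
    intro i
    by_cases hi : 0 < (i : ℕ)
    swap
    · exact Near.of_forall fun x h => absurd h hi
    have _ := h99_finT v (i : ℕ)
    have _ := h99_finT v (R - (i : ℕ))
    have _ : Fintype (h99_T v (i : ℕ)) := Fintype.ofFinite _
    have _ : Fintype (h99_T v (R - (i : ℕ))) := Fintype.ofFinite _
    have hs : ∃ s ∈ RingHom.ker (h99_psi k v (i : ℕ) (R - i)),
        eval (fun γ => coeff γ (F x₀)) s ≠ 0 := by
      by_contra hc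
      push Not at hc
      obtain ⟨z, hz⟩ := h99_closed v (i : ℕ) (R - i) (fun γ => coeff γ (F x₀)) hc
      have h1 : F x₀ = map (eval z) (h99_P k v (i : ℕ) (R - i)) := by
        ext γ
        rw [coeff_map, hz]
      rw [h99_P, map_mul, h99_map_gen, h99_map_gen] at h1
      rcases h0.isUnit_or_isUnit h1 with h2 | h2
      · exact h99_not_unit v hi (h99_gen_top v _ _) h2
      · exact h99_not_unit v (Nat.sub_pos_of_lt i.2) (h99_gen_top v _ _) h2
    obtain ⟨s, hs1, hs2⟩ := hs
    refine ((Reg.comp (φ := fun γ x => coeff γ (F x)) (fun γ => hreg γ) s).near_ne hs2).mono ?_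
    rintro x hx - ⟨a, b, hab, ha, hb, ha1, hb1⟩
    apply hx
    set z : h99_T v (i : ℕ) ⊕ h99_T v (R - i) → k :=
      Sum.elim (fun α => coeff α.1 a) (fun β => coeff β.1 b) with hz
    have h1 : map (eval z) (h99_P k v (i : ℕ) (R - i)) = F x := by
      rw [h99_P, map_mul, h99_map_gen, h99_map_gen, hab]
      congr 1
      · rw [h99_eq_gen v (i : ℕ) ha ha1]
        simp only [eval_X, hz, Sum.elim_inl]
      · rw [h99_eq_gen v (R - i) hb hb1]
        simp only [eval_X, hz, Sum.elim_inr]
    have h2 : ∀ s : MvPolynomial (σ →₀ ℕ) k, eval z (h99_psi k v (i : ℕ) (R - i) s) =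
        eval (fun γ => coeff γ (F x)) s := by
      intro s
      induction s using MvPolynomial.induction_on with
      | C a => simp [h99_psi]
      | add p q hp hq => rw [map_add, map_add, hp, hq, map_add]
      | mul_X p γ hp =>
        rw [map_mul, map_mul, hp, map_mul, eval_X]
        congr 1
        rw [← h1, coeff_map]
        simp [h99_psi]
    rw [← h2 s, (RingHom.mem_ker).mp hs1, map_zero]
  have hall := ((Near.all key).and hdeg).and hmon
  refine hall.mono ?_
  rintro x ⟨⟨h1, h2⟩, h3⟩
  rw [irreducible_iff]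
  refine ⟨h99_not_unit v hR h3, fun a b hab => ?_⟩
  by_contra hc
  push Not at hc
  obtain ⟨hca, hcb⟩ := hc
  have hF : F x ≠ 0 := by
    intro h
    rw [h, coeff_zero] at h3
    exact zero_ne_one h3
  have ha0 : a ≠ 0 := by rintro rfl; exact hF (by rw [hab, zero_mul])
  have hb0 : b ≠ 0 := by rintro rfl; exact hF (by rw [hab, mul_zero])
  have hpos : ∀ p : MvPolynomial σ k, p ≠ 0 → ¬ IsUnit p → 0 < p.totalDegree := by
    intro p hp0 hp
    rcases Nat.eq_zero_or_pos p.totalDegree with h | h
    · exfalso
      apply hp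
      rw [totalDegree_eq_zero_iff_eq_C] at h
      rw [h]
      apply IsUnit.map
      rw [isUnit_iff_ne_zero]
      intro h4
      rw [h4, C_0] at h
      exact hp0 h
    · exact h
  have hia := hpos a ha0 hca
  have hib := hpos b hb0 hcb
  have hsum : a.totalDegree + b.totalDegree = R := by
    rw [← totalDegree_mul_of_isDomain ha0 hb0, ← hab]
    apply le_antisymm h2
    have h4 : (Finsupp.single v R).sum (fun _ e => e) ≤ (F x).totalDegree := by
      apply le_totalDegree
      rw [mem_support_iff, h3]
      exact one_ne_zero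
    rwa [Finsupp.sum_single_index rfl] at h4
  have htop := h99_coeff_top v (le_refl a.totalDegree) (le_refl b.totalDegree)
  rw [hsum, ← hab, h3] at htop
  set c := coeff (Finsupp.single v a.totalDegree) a with hcdef
  have hc0 : c ≠ 0 := by
    intro h
    rw [h, zero_mul] at htop
    exact one_ne_zero htop
  have hlt : a.totalDegree < R := by omega
  refine h1 ⟨a.totalDegree, hlt⟩ hia ⟨C c⁻¹ * a, C c * b, ?_, ?_, ?_, ?_, ?_⟩
  · rw [hab, mul_mul_mul_comm, ← C_mul, inv_mul_cancel₀ hc0, C_1, one_mul]
  · exact (totalDegree_mul _ _).trans (by simp)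
  · refine (totalDegree_mul _ _).trans ?_
    simp only [totalDegree_C, zero_add]
    omega
  · simp only [coeff_C_mul]
    rw [← hcdef, inv_mul_cancel₀ hc0]
  · simp only [coeff_C_mul]
    have : R - a.totalDegree = b.totalDegree := by omega
    rw [this]
    exact htop.symm

end Pool.Agent.Helper30.RC
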