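import Mathlib

/-!
# Factors of the characteristic polynomial and components
-/

namespace Pool.Agent.Helper30.RC

open Polynomial

theorem det_aeval_field {K ι : Type*} [Field K] [Fintype ι] [DecidableEq ι] (M : Matrix ι ι K)
    (G : K[X]) (l : K) (hG : G.IsRoot l) (hl : M.charpoly.IsRoot l) :
    (aeval M G).det = 0 := by
  obtain ⟨Q, rfl⟩ := Polynomial.dvd_iff_isRoot.mpr hG
  rw [map_mul, Matrix.det_mul, map_sub, aeval_X, aeval_C]
  have h1 : (M - algebraMap K (Matrix ι ι K) l).det = 0 := by
    have h2 : (algebraMap K (Matrix ι ι K) l - M).det = 0 := by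
      have h3 := Matrix.eval_charpoly M l
      rw [Polynomial.IsRoot.def] at hl
      rw [hl] at h3
      exact h3.symm
    rw [← neg_sub, Matrix.det_neg, h2, mul_zero]
  rw [h1, zero_mul]

theorem det_aeval_eq_zero {A ι : Type*} [CommRing A] [IsDomain A] [Fintype ι] [DecidableEq ι]
    (M : Matrix ι ι A) (G : A[X]) (hG : G ∣ M.charpoly) (hdeg : 0 < G.natDegree) :
    (aeval M G).det = 0 := by
  let K := AlgebraicClosure (FractionRing A)
  let f : A →+* K := algebraMap A K
  have hf : Function.Injective f := by
    have h1 : Function.Injective (algebraMap A (FractionRing A)) := IsFractionRing.injective _ _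
    have h2 : Function.Injective (algebraMap (FractionRing A) K) :=
      (algebraMap (FractionRing A) K).injective
    have h3 : f = (algebraMap (FractionRing A) K).comp (algebraMap A (FractionRing A)) :=
      IsScalarTower.algebraMap_eq A (FractionRing A) K
    rw [h3]
    exact h2.comp h1
  have hdeg' : (G.map f).degree ≠ 0 := by
    rw [degree_map_eq_of_injective hf]
    intro h
    rw [natDegree_eq_of_degree_eq_some h] at hdeg
    exact lt_irrefl _ hdeg
  obtain ⟨l, hl⟩ := IsAlgClosed.exists_root (G.map f) hdeg'
  have h1 : (f.mapMatrix M).charpoly = M.charpoly.map f := Matrix.charpoly_map M f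
  have h2 : (f.mapMatrix M).charpoly.IsRoot l := by
    rw [h1]
    exact hl.dvd (Polynomial.map_dvd f hG)
  have h3 := det_aeval_field (f.mapMatrix M) (G.map f) l hl h2
  apply hf
  rw [map_zero, RingHom.map_det, ← h3]
  congr 1
  have h4 : ∀ G : A[X], f.mapMatrix (aeval M G) = aeval (f.mapMatrix M) (G.map f) := by
    intro G
    induction G using Polynomial.induction_on' with
    | add p q hp hq => simp only [map_add, Polynomial.map_add, hp, hq]
    | monomial n a =>
      rw [aeval_monomial, Polynomial.map_monomial, aeval_monomial, map_mul, map_pow]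
      congr 1
      ext i j
      simp only [RingHom.mapMatrix_apply, Matrix.map_apply, Matrix.algebraMap_matrix_apply]
      split_ifs <;> simp
  exact h4 G

/-- if `G` divides the characteristic polynomial of `l` then `G(l)` is a zero divisor -/
theorem exists_mul_eq_zero {A R ι : Type*} [CommRing A] [IsDomain A] [CommRing R] [Algebra A R]
    [Fintype ι] [DecidableEq ι] (b : Module.Basis ι A R) (l : R) (G : A[X])
    (hG : G ∣ (Algebra.leftMulMatrix b l).charpoly) (hdeg : 0 < G.natDegree) :
    ∃ y : R, y ≠ 0 ∧ aeval l G * y = 0 := by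
  have h1 := det_aeval_eq_zero _ G hG hdeg
  have h2 : aeval (Algebra.leftMulMatrix b l) G = Algebra.leftMulMatrix b (aeval l G) := by
    rw [aeval_algHom_apply]
  rw [h2] at h1
  obtain ⟨v, hv, hv0⟩ := Matrix.exists_mulVec_eq_zero_iff.mpr h1
  refine ⟨b.equivFun.symm v, ?_, ?_⟩
  · intro h
    apply hv
    have := congrArg b.equivFun h
    rwa [LinearEquiv.apply_symm_apply, map_zero] at this
  · have h3 := Algebra.leftMulMatrix_mulVec_repr b (aeval l G) (b.equivFun.symm v)
    have h4 : (b.repr (b.equivFun.symm v) : ι → A) = v := by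
      have := LinearEquiv.apply_symm_apply b.equivFun v
      exact this
    rw [h4, hv0] at h3
    apply b.repr.injective
    rw [map_zero]
    exact DFunLike.coe_injective h3.symm

/-- a zero divisor in a torsion free finite algebra over a domain lies in a minimal prime -/
theorem mem_minimalPrime {A R : Type*} [CommRing A] [IsDomain A] [CommRing R] [Algebra A R]
    [Module.Finite A R] [IsNoetherianRing R] [Module.IsTorsionFree A R] (g y : R) (hy : y ≠ 0)
    (hgy : g * y = 0) : ∃ q ∈ minimalPrimes R, g ∈ q := by
  have h1 : g ∈ ⋃ p ∈ associatedPrimes R R, (p : Set R) := by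
    rw [biUnion_associatedPrimes_eq_zero_divisors]
    exact ⟨y, hy, hgy⟩
  simp only [Set.mem_iUnion, SetLike.mem_coe] at h1
  obtain ⟨p, hp, hgp⟩ := h1
  have hpp : p.IsPrime := hp.isPrime
  have h2 : p.comap (algebraMap A R) = ⊥ := by
    rw [eq_bot_iff]
    intro a ha
    obtain ⟨-, x, hx⟩ := isAssociatedPrime_iff.mp hp
    have hx0 : x ≠ 0 := by
      rintro rfl
      apply hpp.ne_top
      rw [hx, eq_top_iff]
      intro r _
      rw [Submodule.mem_colon_singleton, smul_zero]
      exact Submodule.zero_mem _
    have h3 : algebraMap A R a ∈ p := ha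
    rw [hx, Submodule.mem_colon_singleton, Submodule.mem_bot, smul_eq_mul,
      ← Algebra.smul_def] at h3
    exact (smul_eq_zero.mp h3).resolve_right hx0
  obtain ⟨q, hq, hqp⟩ := Ideal.exists_minimalPrimes_le (bot_le : (⊥ : Ideal R) ≤ p)
  refine ⟨q, hq, ?_⟩
  have hqq : q.IsPrime := hq.1.1
  have h3 : q = p := by
    by_contra hne
    have hlt : q < p := lt_of_le_of_ne hqp hne
    have := Ideal.IsIntegral.comap_lt_comap (R := A) (A := R) hlt
    rw [h2] at this
    exact not_lt_bot this
  rw [h3]
  exact hgp

end Pool.Agent.Helper30.RC
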