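import Mathlib

/-!
RC-ROOT.  Let `A` be a finite dimensional commutative `k`-algebra, `w : A → k` a `k`-algebra map at
whose kernel the local ring is `k` (some `s` with `w s ≠ 0` kills the kernel), and `u` an element with
`w u = 0` which lies in no other maximal ideal.  Then 0 is a simple root of the characteristic
polynomial of multiplication by `u`.

Proof.  Let `y` with `u ^ 2 y = 0` and let `𝔞` be the annihilator of `y`.  Every maximal ideal
containing `𝔞` contains `u ^ 2`, so `u`, hence is `ker w`; `s` is not in it, so `𝔞 + (s) = A`:
`1 = a + t s`, `a y = 0`, so `y = t s y`.  Hence `ker w` kills `y` (as `s` kills `ker w`), so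
`u y = 0`; and writing `y = w(y) + y'` with `y' ∈ ker w`: `y = t s y = w(y) t s`.
So the kernel of `u ^ 2` equals the kernel of `u` and has dimension at most 1 (it is spanned by
`t s` for one fixed nonzero `y`, or: any two elements are proportional).  Hence the generalized
eigenspace of the eigenvalue 0 has dimension at most 1, and this dimension is the order of vanishing of
the characteristic polynomial at 0 (`LinearMap.finrank_maxGenEigenspace` in
Mathlib/LinearAlgebra/Eigenspace/Zero.lean, `natTrailingDegree`).
-/

namespace Pool.Agent.Helper30.RC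

theorem simple_root {k A : Type*} [Field k] [CommRing A] [Algebra k A] [FiniteDimensional k A]
    (w : A →ₐ[k] k) (s : A) (hs : w s ≠ 0) (hs' : ∀ x, w x = 0 → s * x = 0) (u : A)
    (hwu : w u = 0) (hu : ∀ M : Ideal A, M.IsMaximal → u ∈ M → ∀ x ∈ M, w x = 0) :
    ¬ (Polynomial.X ^ 2 ∣ (LinearMap.mulLeft k u).charpoly) := by
  intro hdvd
  have key : ∀ x : A, s * x = algebraMap k A (w x) * s := by
    intro x
    have h1 := hs' (x - algebraMap k A (w x)) (by
      rw [map_sub, AlgHom.commutes]
      exact sub_self _)
    rw [mul_sub, sub_eq_zero] at h1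
    rw [h1, mul_comm]
  have hpow : ∀ (n : ℕ) (y : A), ((LinearMap.mulLeft k u) ^ n) y = u ^ n * y := by
    intro n
    induction n with
    | zero => intro y; simp
    | succ n ih =>
      intro y
      rw [pow_succ', Module.End.mul_apply, ih, LinearMap.mulLeft_apply, pow_succ']
      ring
  have hle : Module.End.maxGenEigenspace (LinearMap.mulLeft k u) 0 ≤ Submodule.span k {s} := by
    intro y hy
    rw [Module.End.mem_maxGenEigenspace] at hy
    obtain ⟨n, hn⟩ := hy
    rw [zero_smul, sub_zero, hpow] at hn
    -- the annihilator of `y`
    let I : Ideal A :=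
      { carrier := {a | a * y = 0}
        add_mem' := fun {a b} ha hb => by
          change (a + b) * y = 0
          rw [add_mul, show a * y = 0 from ha, show b * y = 0 from hb, add_zero]
        zero_mem' := zero_mul y
        smul_mem' := fun c a ha => by
          change c * a * y = 0
          rw [mul_assoc, show a * y = 0 from ha, mul_zero] }
    have hI : I ⊔ Ideal.span {s} = ⊤ := by
      by_contra hne
      obtain ⟨M, hM, hle⟩ := Ideal.exists_le_maximal _ hne
      have huM : u ∈ M := by
        have h1 : u ^ n ∈ M := hle (Ideal.mem_sup_left (show u ^ n ∈ I from hn))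
        exact hM.isPrime.mem_of_pow_mem n h1
      have hsM : s ∈ M := hle (Ideal.mem_sup_right (Ideal.mem_span_singleton_self s))
      exact hs (hu M hM huM s hsM)
    obtain ⟨a, ha, b, hb, hab⟩ := Submodule.mem_sup.1 ((Ideal.eq_top_iff_one _).1 hI)
    obtain ⟨t, rfl⟩ := Ideal.mem_span_singleton'.1 hb
    have h1 : y = t * s * y := by
      have h2 : (a + t * s) * y = y := by rw [hab, one_mul]
      rw [add_mul, show a * y = 0 from ha, zero_add] at h2
      exact h2.symm
    have h3 : y = (w y * w t) • s := by
      calc y = t * (s * y) := by rw [← mul_assoc]; exact h1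
        _ = algebraMap k A (w y) * (s * t) := by rw [key y]; ring
        _ = (w y * w t) • s := by rw [key t, Algebra.smul_def, map_mul]; ring
    rw [h3]
    exact Submodule.smul_mem _ _ (Submodule.mem_span_singleton_self s)
  have h1 : Module.finrank k (Module.End.maxGenEigenspace (LinearMap.mulLeft k u) 0) ≤ 1 :=
    by
    classical
    refine (Submodule.finrank_mono hle).trans ((finrank_span_le_card _).trans ?_)
    simp
  rw [LinearMap.finrank_maxGenEigenspace_zero_eq] at h1
  have h2 : (LinearMap.mulLeft k u : Module.End k A).charpoly ≠ 0 := (LinearMap.charpoly_monic _).ne_zero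
  obtain ⟨q, hq⟩ := hdvd
  have hq0 : q ≠ 0 := by
    rintro rfl
    rw [mul_zero] at hq
    exact h2 hq
  rw [hq, Polynomial.natTrailingDegree_mul (pow_ne_zero 2 Polynomial.X_ne_zero) hq0,
    Polynomial.natTrailingDegree_X_pow] at h1
  omega

end Pool.Agent.Helper30.RC
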