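import Mathlib
import Pool.Agent.Helper30.RC.Bas3
import Pool.Agent.Helper30.RC.Chi
import Pool.Agent.Helper30.RC.Jac
import Pool.Agent.Helper30.RC.ROOT

/-!
# Irreducibility of the characteristic polynomial at the special point
-/

namespace Pool.Agent.Helper30.RC

open MvPolynomial

variable {k : Type} [Field k] {τ : Type} [Fintype τ] {q r : ℕ}

/-- the ideal of the fibre through `W` -/
noncomputable def IW (c : Fin q → MvPolynomial τ k) (z : Fin r → MvPolynomial τ k) (W : τ → k) :
    Ideal (MvPolynomial τ k) :=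
  Ideal.span (Set.range c) ⊔ Ideal.span (Set.range fun i => z i - C (eval W (z i)))

omit [Fintype τ] in
theorem IW_le (c : Fin q → MvPolynomial τ k) (z : Fin r → MvPolynomial τ k) (W : τ → k)
    (hcW : ∀ j, eval W (c j) = 0) : IW c z W ≤ mpt W := by
  refine sup_le ?_ ?_
  · rw [Ideal.span_le]
    rintro _ ⟨j, rfl⟩
    exact mem_mpt.mpr (hcW j)
  · rw [Ideal.span_le]
    rintro _ ⟨i, rfl⟩
    exact mem_mpt.mpr (by simp)

/-- the projection from the total space to the fibre -/
noncomputable def toFib (c : Fin q → MvPolynomial τ k) (z : Fin r → MvPolynomial τ k)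
    (W : τ → k) : QZ z (Ideal.span (Set.range c)) →+* MvPolynomial τ k ⧸ IW c z W :=
  Ideal.Quotient.factor (le_sup_left : Ideal.span (Set.range c) ≤ IW c z W)

omit [Fintype τ] in
theorem toFib_mk (c : Fin q → MvPolynomial τ k) (z : Fin r → MvPolynomial τ k)
    (W : τ → k) (v : MvPolynomial τ k) :
    toFib c z W (mkQZ z _ v) = Ideal.Quotient.mk (IW c z W) v := rfl

/-- evaluation at the base point -/
noncomputable abbrev ez (z : Fin r → MvPolynomial τ k) (W : τ → k) :
    MvPolynomial (Fin r) k →+* k := eval fun i => eval W (z i)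

omit [Fintype τ] in
theorem aeval_sub_mem (c : Fin q → MvPolynomial τ k) (z : Fin r → MvPolynomial τ k) (W : τ → k)
    (p : MvPolynomial (Fin r) k) : aeval z p - C (ez z W p) ∈ IW c z W := by
  induction p using MvPolynomial.induction_on with
  | C a =>
    rw [aeval_C, eval_C, algebraMap_eq, sub_self]
    exact Ideal.zero_mem _
  | add p q hp hq =>
    have := Ideal.add_mem _ hp hq
    convert this using 1
    simp only [map_add]
    ring
  | mul_X p i hp =>
    have h1 : aeval z (p * X i) - C (ez z W (p * X i)) =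
        (aeval z p - C (ez z W p)) * z i + C (ez z W p) * (z i - C (eval W (z i))) := by
      rw [map_mul, aeval_X, map_mul, eval_X, C_mul]
      ring
    rw [h1]
    refine Ideal.add_mem _ (Ideal.mul_mem_right _ _ hp) (Ideal.mul_mem_left _ _ ?_)
    have h2 : z i - C (eval W (z i)) ∈
        Ideal.span (Set.range fun i => z i - C (eval W (z i))) :=
      Ideal.subset_span ⟨i, rfl⟩
    exact (le_sup_right : _ ≤ IW c z W) h2

omit [Fintype τ] in
theorem toFib_smul (c : Fin q → MvPolynomial τ k) (z : Fin r → MvPolynomial τ k) (W : τ → k)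
    (p : MvPolynomial (Fin r) k) (y : QZ z (Ideal.span (Set.range c))) :
    toFib c z W (p • y) = ez z W p • toFib c z W y := by
  obtain ⟨v, rfl⟩ := mkQZ_surjective z _ y
  rw [smul_mkQZ, toFib_mk, toFib_mk]
  have h1 : ez z W p • (Ideal.Quotient.mk (IW c z W) v) =
      Ideal.Quotient.mk (IW c z W) (C (ez z W p) * v) := by
    rw [← smul_eq_C_mul]
    exact (map_smul (Ideal.Quotient.mkₐ k (IW c z W)) (ez z W p) v).symm
  rw [h1, Ideal.Quotient.eq, ← sub_mul]
  exact Ideal.mul_mem_right _ _ (aeval_sub_mem c z W p)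

omit [Fintype τ] in
theorem toFib_surjective (c : Fin q → MvPolynomial τ k) (z : Fin r → MvPolynomial τ k)
    (W : τ → k) : Function.Surjective (toFib c z W) := by
  intro y
  obtain ⟨v, rfl⟩ := Ideal.Quotient.mk_surjective y
  exact ⟨mkQZ z _ v, rfl⟩

variable {β : Type} [Fintype β] [DecidableEq β]

/-- the basis of the fibre -/
noncomputable def basisFib (c : Fin q → MvPolynomial τ k) (z : Fin r → MvPolynomial τ k)
    (W : τ → k) (B : Module.Basis β (MvPolynomial (Fin r) k) (QZ z (Ideal.span (Set.range c)))) :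
    Module.Basis β k (MvPolynomial τ k ⧸ IW c z W) :=
  Module.Basis.mk (v := fun i => toFib c z W (B i))
    (by
      rw [Fintype.linearIndependent_iff]
      intro g hg
      -- the combination lies in the ideal generated by the `Z s - z s (W)`
      have h1 : toFib c z W (∑ i, (C (g i) : MvPolynomial (Fin r) k) • B i) = 0 := by
        rw [← hg, map_sum]
        refine Finset.sum_congr rfl fun i _ => ?_
        rw [toFib_smul, eval_C]
      have h2 : ∀ y : QZ z (Ideal.span (Set.range c)), toFib c z W y = 0 →
          ∀ i, ez z W (B.repr y i) = 0 := by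
        intro y hy
        obtain ⟨v, rfl⟩ := mkQZ_surjective z _ y
        rw [toFib_mk, Ideal.Quotient.eq_zero_iff_mem] at hy
        obtain ⟨a, ha, w, hw, rfl⟩ := Submodule.mem_sup.mp hy
        obtain ⟨t, rfl⟩ := (Ideal.mem_span_range_iff_exists_fun).mp hw
        have h3 : mkQZ z (Ideal.span (Set.range c)) (a + ∑ s, t s * (z s - C (eval W (z s)))) =
            ∑ s, (X s - C (eval W (z s)) : MvPolynomial (Fin r) k) • mkQZ z _ (t s) := by
          rw [map_add, mkQZ_eq_zero.mpr ha, zero_add, map_sum]
          refine Finset.sum_congr rfl fun s _ => ?_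
          rw [smul_mkQZ, map_sub, aeval_X, aeval_C, algebraMap_eq, mul_comm]
        intro i
        rw [h3, map_sum, Finsupp.finsetSum_apply, map_sum]
        refine Finset.sum_eq_zero fun s _ => ?_
        rw [map_smul, Finsupp.smul_apply, smul_eq_mul, map_mul, map_sub, eval_X, eval_C, sub_self,
          zero_mul]
      intro i
      have h3 := h2 _ h1 i
      rw [map_sum, Finsupp.finsetSum_apply, map_sum] at h3
      simp only [map_smul, Module.Basis.repr_self, Finsupp.smul_apply, smul_eq_mul, map_mul,
        eval_C] at h3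
      rw [Finset.sum_eq_single i] at h3
      · simpa using h3
      · intro b _ hb
        rw [Finsupp.single_eq_of_ne (by exact fun e => hb e.symm)]
        simp
      · simp)
    (by
      rintro y -
      obtain ⟨x, rfl⟩ := toFib_surjective c z W y
      rw [← B.sum_repr x, map_sum]
      refine Submodule.sum_mem _ fun i _ => ?_
      rw [toFib_smul]
      exact Submodule.smul_mem _ _ (Submodule.subset_span ⟨i, rfl⟩))

omit [Fintype τ] in
theorem finite_fib (c : Fin q → MvPolynomial τ k) (z : Fin r → MvPolynomial τ k)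
    (W : τ → k) (B : Module.Basis β (MvPolynomial (Fin r) k) (QZ z (Ideal.span (Set.range c)))) :
    Module.Finite k (MvPolynomial τ k ⧸ IW c z W) :=
  Module.Finite.of_basis (basisFib c z W B)

omit [Fintype τ] in
theorem charpoly_fib (c : Fin q → MvPolynomial τ k) (z : Fin r → MvPolynomial τ k)
    (W : τ → k) (B : Module.Basis β (MvPolynomial (Fin r) k) (QZ z (Ideal.span (Set.range c))))
    (l : MvPolynomial τ k) [Module.Finite k (MvPolynomial τ k ⧸ IW c z W)] :
    (LinearMap.mulLeft k (Ideal.Quotient.mk (IW c z W) l)).charpoly =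
      (Algebra.leftMulMatrix B (mkQZ z _ l)).charpoly.map (ez z W) := by
  have hv : ∀ i, basisFib c z W B i = toFib c z W (B i) := fun i => by
    rw [basisFib, Module.Basis.mk_apply]
  rw [← LinearMap.charpoly_toMatrix _ (basisFib c z W B), ← Matrix.charpoly_map]
  congr 1
  ext i j
  rw [LinearMap.toMatrix_apply, LinearMap.mulLeft_apply, hv, Matrix.map_apply]
  have h1 : Ideal.Quotient.mk (IW c z W) l * toFib c z W (B j) =
      ∑ i, ez z W (Algebra.leftMulMatrix B (mkQZ z _ l) i j) • basisFib c z W B i := by
    rw [← toFib_mk, ← map_mul]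
    have h2 : mkQZ z _ l * B j = ∑ i, Algebra.leftMulMatrix B (mkQZ z _ l) i j • B i := by
      simp only [Algebra.leftMulMatrix_eq_repr_mul]
      exact (B.sum_repr _).symm
    rw [h2, map_sum]
    refine Finset.sum_congr rfl fun i _ => ?_
    rw [toFib_smul, hv]
  rw [h1, map_sum, Finsupp.finsetSum_apply]
  simp only [map_smul, Module.Basis.repr_self, Finsupp.smul_apply, smul_eq_mul]
  rw [Finset.sum_eq_single i]
  · simp
  · intro b _ hb
    rw [Finsupp.single_eq_of_ne (by exact fun e => hb e.symm)]
    simp
  · simp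

theorem irr0 [IsAlgClosed k] (c : Fin q → MvPolynomial τ k) (z : Fin r → MvPolynomial τ k)
    (W : τ → k) (B : Module.Basis β (MvPolynomial (Fin r) k) (QZ z (Ideal.span (Set.range c))))
    (l : MvPolynomial τ k) (hcW : ∀ j, eval W (c j) = 0)
    (hmin : ∀ P ∈ (Ideal.span (Set.range c)).minimalPrimes, ∀ p ∈ P, eval W p = 0)
    (htan : ∀ Z : τ → k, (∀ j, dd W Z (c j) = 0) → (∀ i, dd W Z (z i) = 0) → Z = 0)
    (hlW : eval W l = 0)
    (hl : ∀ a : τ → k, (∀ j, eval a (c j) = 0) → (∀ i, eval a (z i) = eval W (z i)) →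
      eval a l = 0 → a = W) :
    Irreducible (Algebra.leftMulMatrix B (mkQZ z _ l)).charpoly := by
  set ch := (Algebra.leftMulMatrix B (mkQZ z _ l)).charpoly with hch
  have hmonic : ch.Monic := Matrix.charpoly_monic _
  have hfinB : Module.Finite (MvPolynomial (Fin r) k) (QZ z (Ideal.span (Set.range c))) :=
    Module.Finite.of_basis B
  have hfree : Module.Free (MvPolynomial (Fin r) k) (QZ z (Ideal.span (Set.range c))) :=
    Module.Free.of_basis B
  have hmpt : mpt W ≠ ⊤ := by
    intro h
    have h1 : (1 : MvPolynomial τ k) ∈ mpt W := by rw [h]; trivial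
    rw [mem_mpt, map_one] at h1
    exact one_ne_zero h1
  have hI1 : (1 : MvPolynomial τ k) ∉ Ideal.span (Set.range c) := by
    intro h
    exact hmpt ((Ideal.eq_top_iff_one _).mpr (IW_le c z W hcW ((le_sup_left : _ ≤ IW c z W) h)))
  have hnt : Nontrivial (QZ z (Ideal.span (Set.range c))) := by
    refine ⟨mkQZ z _ 1, 0, fun h => hI1 (mkQZ_eq_zero.mp h)⟩
  -- every divisor of positive degree vanishes at `(z(W), 0)`
  have key : ∀ f : Polynomial (MvPolynomial (Fin r) k), f ∣ ch → 0 < f.natDegree →
      Polynomial.X ∣ f.map (ez z W) := by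
    intro f hf hdeg
    obtain ⟨y, hy, hfy⟩ := exists_mul_eq_zero B (mkQZ z _ l) f hf hdeg
    obtain ⟨Q, hQ, hfQ⟩ := mem_minimalPrime (A := MvPolynomial (Fin r) k)
      (Polynomial.aeval (mkQZ z _ l) f) y hy hfy
    have hP : Q.comap (mkQZ z (Ideal.span (Set.range c))) ∈
        (Ideal.span (Set.range c)).minimalPrimes := by
      have h1 := Ideal.comap_minimalPrimes_eq_of_surjective
        (mkQZ_surjective z (Ideal.span (Set.range c))) (⊥ : Ideal _)
      have h2 : Ideal.comap (mkQZ z (Ideal.span (Set.range c))) ⊥ = Ideal.span (Set.range c) := by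
        ext v
        rw [Ideal.mem_comap, Ideal.mem_bot, mkQZ_eq_zero]
      rw [h2] at h1
      rw [h1]
      exact ⟨Q, hQ, rfl⟩
    have h3 : mkQZ z (Ideal.span (Set.range c)) (∑ n ∈ Finset.range (f.natDegree + 1),
        aeval z (f.coeff n) * l ^ n) = Polynomial.aeval (mkQZ z _ l) f := by
      rw [Polynomial.aeval_eq_sum_range, map_sum]
      refine Finset.sum_congr rfl fun n _ => ?_
      rw [map_mul, map_pow, Algebra.smul_def]
      rfl
    have h4 := hmin _ hP _ (show _ ∈ Q from h3 ▸ hfQ)
    rw [map_sum, Finset.sum_eq_single 0] at h4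
    · rw [pow_zero, mul_one] at h4
      have h5 : eval W (aeval z (f.coeff 0)) = ez z W (f.coeff 0) := by
        have h6 := mem_mpt.mp (IW_le c z W hcW (aeval_sub_mem c z W (f.coeff 0)))
        rw [map_sub, eval_C, sub_eq_zero] at h6
        exact h6
      rw [h5] at h4
      rw [Polynomial.X_dvd_iff, Polynomial.coeff_map]
      exact h4
    · intro n _ hn
      rw [map_mul, map_pow, hlW, zero_pow hn, mul_zero]
    · intro h
      exact absurd (Finset.mem_range.mpr (Nat.succ_pos _)) h
  rw [hmonic.irreducible_iff_natDegree]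
  refine ⟨?_, ?_⟩
  · intro h1
    have h2 : ch.natDegree = Fintype.card β := Matrix.charpoly_natDegree_eq_dim _
    rw [h1, Polynomial.natDegree_one] at h2
    have h3 : IsEmpty β := Fintype.card_eq_zero_iff.mp h2.symm
    have h4 : Subsingleton (QZ z (Ideal.span (Set.range c))) :=
      B.repr.toEquiv.subsingleton
    exact false_of_nontrivial_of_subsingleton (QZ z (Ideal.span (Set.range c)))
  · intro f g hfm hgm hfg
    by_contra hcon
    push Not at hcon
    obtain ⟨hf0, hg0⟩ := hcon
    have h1 := key f (Dvd.intro _ hfg) (Nat.pos_of_ne_zero hf0)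
    have h2 := key g (Dvd.intro_left _ hfg) (Nat.pos_of_ne_zero hg0)
    have hfib := finite_fib c z W B
    have h3 : Polynomial.X ^ 2 ∣
        (LinearMap.mulLeft k (Ideal.Quotient.mk (IW c z W) l)).charpoly := by
      rw [charpoly_fib c z W B l, ← hch, ← hfg, Polynomial.map_mul, pow_two]
      exact mul_dvd_mul h1 h2
    -- the algebra map at `W`
    let w : (MvPolynomial τ k ⧸ IW c z W) →ₐ[k] k :=
      Ideal.Quotient.liftₐ (IW c z W) (aeval W) (fun a ha => by
        have := mem_mpt.mp (IW_le c z W hcW ha)
        rwa [aeval_eq_eval])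
    have hw : ∀ v : MvPolynomial τ k, w (Ideal.Quotient.mk (IW c z W) v) = eval W v := by
      intro v
      change aeval W v = _
      rw [aeval_eq_eval]
    obtain ⟨s, hs1, hs2⟩ := exists_mul_mem W (IW c z W) (IW_le c z W hcW) (by
      intro Z hZ
      refine htan Z ?_ ?_
      · intro j
        exact hZ _ ((le_sup_left : _ ≤ IW c z W) (Ideal.subset_span ⟨j, rfl⟩))
      · intro i
        have h4 := hZ (z i - C (eval W (z i))) ((le_sup_right : _ ≤ IW c z W)
          (Ideal.subset_span (Set.mem_range_self i)))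
        have h5 : dd W Z (z i) = dd W Z (z i - C (eval W (z i))) + dd W Z (C (eval W (z i))) := by
          rw [← dd_add, sub_add_cancel]
        rw [h5, h4, dd_C, add_zero])
    refine simple_root w (Ideal.Quotient.mk _ s) ?_ ?_ (Ideal.Quotient.mk _ l) ?_ ?_ h3
    · rw [hw, hs1]
      exact one_ne_zero
    · intro x hx
      obtain ⟨v, rfl⟩ := Ideal.Quotient.mk_surjective x
      rw [hw] at hx
      rw [← map_mul, Ideal.Quotient.eq_zero_iff_mem]
      exact hs2 v hx
    · rw [hw, hlW]
    · intro M hM hlM x hx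
      obtain ⟨v, rfl⟩ := Ideal.Quotient.mk_surjective x
      rw [hw]
      have hM2 : (M.comap (Ideal.Quotient.mk (IW c z W))).IsMaximal :=
        Ideal.comap_isMaximal_of_surjective _ Ideal.Quotient.mk_surjective
      obtain ⟨a, ha⟩ := (isMaximal_iff_eq_vanishingIdeal_singleton).mp hM2
      have h4 : ∀ p : MvPolynomial τ k, Ideal.Quotient.mk (IW c z W) p ∈ M → eval a p = 0 := by
        intro p hp
        have h5 : p ∈ vanishingIdeal k {a} := by
          rw [← ha]
          exact hp
        have h6 := (mem_vanishingIdeal_singleton_iff a p).mp h5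
        rwa [aeval_eq_eval] at h6
      have h5 : ∀ p ∈ IW c z W, eval a p = 0 := by
        intro p hp
        apply h4
        rw [Ideal.Quotient.eq_zero_iff_mem.mpr hp]
        exact Ideal.zero_mem _
      have h6 : a = W := by
        refine hl a ?_ ?_ (h4 l hlM)
        · intro j
          exact h5 _ ((le_sup_left : _ ≤ IW c z W) (Ideal.subset_span ⟨j, rfl⟩))
        · intro i
          have h7 := h5 (z i - C (eval W (z i))) ((le_sup_right : _ ≤ IW c z W)
            (Ideal.subset_span (Set.mem_range_self i)))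
          rw [map_sub, eval_C, sub_eq_zero] at h7
          exact h7
      rw [← h6]
      exact h4 v hx

end Pool.Agent.Helper30.RC
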