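import Mathlib
import Pool.Agent.Helper30.RC.Irr0
import Pool.Agent.Helper30.RC.Choice
import Pool.Agent.Helper30.RC.Bas4
import Pool.Agent.Helper30.RC.Dom
import Pool.Agent.Helper30.RC.FAC

/-!
# The ideal of a linear family is prime near a suitable special point
-/

namespace Pool.Agent.Helper30.RC

open MvPolynomial

attribute [local instance] MvPolynomial.gradedAlgebra

variable {k : Type} [Field k] {τ : Type} [Fintype τ] {Γ : Type} [Fintype Γ] {q r : ℕ}

omit [Fintype τ] in
theorem leftMul_eq {β : Type} [Fintype β] [DecidableEq β] (I : Ideal (MvPolynomial τ k))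
    (z : Fin r → MvPolynomial τ k) (b : β → MvPolynomial τ k)
    (B : Module.Basis β (MvPolynomial (Fin r) k) (QZ z I)) (hB : ∀ i, B i = mkQZ z I (b i))
    (l : MvPolynomial τ k) (P : β → β → MvPolynomial (Fin r) k)
    (hP : ∀ i, l * b i - ∑ j, aeval z (P i j) * b j ∈ I) :
    Algebra.leftMulMatrix B (mkQZ z I l) = Matrix.of fun j i => P i j := by
  ext1 j i
  rw [Algebra.leftMulMatrix_eq_repr_mul, Matrix.of_apply]
  have h1 : mkQZ z I l * B i = ∑ j, P i j • B j := by
    rw [hB, ← map_mul, ← sub_eq_zero]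
    simp only [hB, smul_mkQZ]
    rw [← map_sum, ← map_sub, mkQZ_eq_zero]
    exact hP i
  rw [h1, map_sum, Finsupp.finsetSum_apply]
  simp only [map_smul, Module.Basis.repr_self, Finsupp.smul_apply, smul_eq_mul]
  rw [Finset.sum_eq_single j]
  · simp
  · intro s _ hs
    rw [Finsupp.single_eq_of_ne (by exact fun e => hs e.symm), mul_zero]
  · simp

theorem prime_near [IsAlgClosed k] {ρ : Type} [Fintype ρ]
    (c : Fin q → Γ → MvPolynomial τ k) (δ : Fin q → ℕ) (hδ : ∀ j, 0 < δ j)
    (hc : ∀ j γ, (c j γ).IsHomogeneous (δ j))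
    (z' : ρ → MvPolynomial τ k) (hz' : ∀ i, (z' i).IsHomogeneous 1)
    (hcard : Fintype.card τ = q + Fintype.card ρ + 1) (x₀ : Γ → k) (W : τ → k) (hW : W ≠ 0)
    (h1 : ∀ a : τ → k, (∀ j, eval a (lin c x₀ j) = 0) → (∀ i, eval a (z' i) = 0) →
      ∃ s : k, a = s • W)
    (hcW : ∀ j, eval W (lin c x₀ j) = 0)
    (hsurj : ∀ y : Fin q → k, ∃ Z : τ → k, ∀ j, dd W Z (lin c x₀ j) = y j) :
    Near x₀ (fun x => (Ideal.span (Set.range (lin c x))).IsPrime) := by
  classical
  obtain ⟨z, hz, ⟨E, hE⟩, htan⟩ := exists_choice (lin c x₀) δ (lin_hom hc x₀) z' hz' hcard W hW h1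
    hsurj
  obtain ⟨l, hl1, hlW, hl⟩ := exists_l (lin c x₀) δ (lin_hom hc x₀) z hz E hE W hW hcW
  have hcard' : Nat.card τ = q + (Fintype.card ρ + 1) := by
    rw [Nat.card_eq_fintype_card, hcard, add_assoc]
  obtain ⟨β, _, _, b, dg, hb, hS, hcount⟩ := exists_graded_basis (Jx c z x₀) E hE
  have hrep : ∀ i : β, ∃ P : β → (Γ → k) → MvPolynomial (Fin (Fintype.card ρ + 1)) k,
      (∀ j x, (P j x).IsHomogeneous (1 + dg i - dg j)) ∧
      (∀ j x, 1 + dg i < dg j → P j x = 0) ∧ (∀ j, RegP x₀ (P j)) ∧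
      Near x₀ (fun x => l * b i - ∑ j, aeval z (P j x) * b j ∈
        Ideal.span (Set.range (lin c x))) :=
    fun i => rep c δ hc x₀ z hz b dg hb hS (1 + dg i) (l * b i) (hl1.mul (hb i))
  choose P hP1 hP2 hP3 hP4 using hrep
  let M : (Γ → k) → Matrix β β (MvPolynomial (Fin (Fintype.card ρ + 1)) k) :=
    fun x => Matrix.of fun j i => P i j x
  have hG : ∀ x, GMat (M x) dg := fun x j i => ⟨hP1 i j x, hP2 i j x⟩
  have hPnear : Near x₀ (fun x => ∀ i, l * b i - ∑ j, aeval z (P i j x) * b j ∈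
        Ideal.span (Set.range (lin c x))) := Near.all hP4
  -- the basis at a point of the good neighbourhood
  have hgood := near_spanMod c δ hc z hz E x₀ hE b dg hb hS
  have hBex : ∀ x, (mx τ k) ^ E ≤ Jx c z x ∧ SpanMod (Jx c z x) b dg →
      (∀ i, l * b i - ∑ j, aeval z (P i j x) * b j ∈ Ideal.span (Set.range (lin c x))) →
      ∃ B : Module.Basis β (MvPolynomial (Fin (Fintype.card ρ + 1)) k)
        (QZ z (Ideal.span (Set.range (lin c x)))),
        Algebra.leftMulMatrix B (mkQZ z _ l) = M x := by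
    intro x hx hPx
    have hcount' : ∀ D, (Finset.univ.filter (fun i => dg i = D)).card +
        Module.finrank k (gp (Jx c z x) D) = Module.finrank k (homogeneousSubmodule τ k D) := by
      intro D
      rw [finrank_gp_eq hcard' c δ hδ hc z hz E x x₀ hx.1 hE D]
      exact hcount D
    refine ⟨basisQZ hcard' c δ hδ hc z hz E x hx.1 b dg hb hx.2 hcount', ?_⟩
    refine leftMul_eq _ z b _ ?_ l _ hPx
    intro i
    rw [basisQZ, Module.Basis.mk_apply]
  -- irreducibility at the special point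
  have h0 : Irreducible (toOpt k (Fintype.card ρ + 1) (M x₀).charpoly) := by
    obtain ⟨B, hB⟩ := hBex x₀ hgood.self hPnear.self
    have h2 := irr0 (lin c x₀) z W B l hcW (by
      intro Q hQ p hp
      refine comp_contains (lin c x₀) δ (lin_hom hc x₀) z' (fun _ => 1) (fun _ => one_pos) hz'
        ?_ W h1 Q hQ p hp
      rw [Nat.card_eq_fintype_card, hcard, Fintype.card_fin]) htan hlW hl
    rw [hB] at h2
    exact (MulEquiv.irreducible_iff (toOpt k (Fintype.card ρ + 1))).mpr h2
  have hirr : Near x₀ (fun x => Irreducible (toOpt k (Fintype.card ρ + 1) (M x).charpoly)) :=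
    irreducible_near none (Fintype.card β) x₀ _
      (charpoly_regP M fun j i => hP3 i j)
      (Near.of_forall fun x => (charpoly_hom (hG x)).totalDegree_le)
      (Near.of_forall fun x => coeff_charpoly (M x)) h0
  refine ((hgood.and hPnear).and hirr).mono ?_
  rintro x ⟨⟨hx1, hx2⟩, hx3⟩
  obtain ⟨B, hB⟩ := hBex x hx1 hx2
  have h2 : Irreducible (Algebra.leftMulMatrix B (mkQZ z _ l)).charpoly := by
    rw [hB]
    exact (MulEquiv.irreducible_iff (toOpt k (Fintype.card ρ + 1))).mp hx3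
  have h3 : IsDomain (QZ z (Ideal.span (Set.range (lin c x)))) := isDomain_of_irreducible B _ h2
  have h4 : IsDomain (MvPolynomial τ k ⧸ Ideal.span (Set.range (lin c x))) := h3
  exact (Ideal.Quotient.isDomain_iff_prime _).mp h4

end Pool.Agent.Helper30.RC
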