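import Mathlib
import Pool.Agent.Helper30.RC.ThmA
import Pool.Agent.Helper30.RC.Jac

/-!
# The explicit data for irreducibility: `n ≥ 2 d + 1`, `d ≥ 3`

Here the degree is `d + 1` with `d ≥ 2`, and there are `2 d + 4 + m` variables:
`x_0`; `x_1, ..., x_d`; `x'_1, ..., x'_d`; `w_1, w_2, w_3`; and `m` more.
-/

namespace Pool.Agent.Helper30.RC

open MvPolynomial

variable {k : Type*} [Field k]

section

variable (d m : ℕ)

/-- the variable `x_{i+1}` -/
def bx (i : Fin d) : Fin (2 * d + 3 + m + 1) := ⟨i + 1, by have := i.2; omega⟩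

/-- the variable `x'_{i+1}` -/
def bx' (i : Fin d) : Fin (2 * d + 3 + m + 1) := ⟨d + 1 + i, by have := i.2; omega⟩

/-- the variables `w_1, w_2, w_3` -/
def bw (i : Fin 3) : Fin (2 * d + 3 + m + 1) := ⟨2 * d + 1 + i, by have := i.2; omega⟩

/-- the remaining variables -/
def bu (t : Fin m) : Fin (2 * d + 3 + m + 1) := ⟨2 * d + 4 + t, by have := t.2; omega⟩

/-- every variable is of one of the five kinds -/
theorem b_cases (v : Fin (2 * d + 3 + m + 1)) : v = 0 ∨ (∃ i, v = bx d m i) ∨
    (∃ i, v = bx' d m i) ∨ (∃ i, v = bw d m i) ∨ ∃ t, v = bu d m t := by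
  obtain ⟨v, hv⟩ := v
  by_cases h0 : v = 0
  · exact Or.inl (Fin.ext h0)
  · by_cases h1 : v < d + 1
    · refine Or.inr (Or.inl ⟨⟨v - 1, by omega⟩, Fin.ext ?_⟩)
      simp only [bx]
      omega
    · by_cases h2 : v < 2 * d + 1
      · refine Or.inr (Or.inr (Or.inl ⟨⟨v - (d + 1), by omega⟩, Fin.ext ?_⟩))
        simp only [bx']
        omega
      · by_cases h3 : v < 2 * d + 4
        · refine Or.inr (Or.inr (Or.inr (Or.inl ⟨⟨v - (2 * d + 1), by omega⟩, Fin.ext ?_⟩)))
          simp only [bw]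
          omega
        · refine Or.inr (Or.inr (Or.inr (Or.inr ⟨⟨v - (2 * d + 4), by omega⟩, Fin.ext ?_⟩)))
          simp only [bu]
          omega

/-- the special form of degree `d + 1` in `2 d + 4 + m` variables (`d ≥ 1`) -/
noncomputable def fB (k : Type*) [Field k] (d m : ℕ) (i₁ : Fin d) :
    MvPolynomial (Fin (2 * d + 3 + m + 1)) k :=
  X 0 ^ (d + 1) + ∑ i : Fin d, X (bx d m i) ^ (d - i) * X (bx' d m i) ^ ((i : ℕ) + 1) +
  (∑ i : Fin d, (X (bx' d m i) * X (bw d m 0) - X (bx d m i) * X (bw d m 1)) *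
    (X (bw d m 0) ^ (d - 1 - i) * X (bw d m 2) ^ (i : ℕ))) +
  X (bx d m i₁) * X (bw d m 2) ^ d

/-- the index type of the linear equations of `L'` -/
abbrev IB (d m e : ℕ) : Type := (Fin d × Fin (e + 2)) ⊕ (Fin m × Fin (e + 1)) ⊕ Fin e ⊕
  Fin (e + 1) ⊕ Fin (e + 1)

/-- the linear equations: `x'_i = T x_i`, unused variables vanish, and
`(w_1, w_2, w_3) = a (1, T, T ^ e)` for some constant `a` -/
noncomputable def zB (k : Type*) [Field k] (d m e : ℕ) : IB d m e → CoeffRing k (2 * d + 3 + m) e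
  | Sum.inl p => (tup k (2 * d + 3 + m) e (bx' d m p.1) -
      Polynomial.X * tup k (2 * d + 3 + m) e (bx d m p.1)).coeff p.2
  | Sum.inr (Sum.inl p) => X (bu d m p.1, p.2)
  | Sum.inr (Sum.inr (Sum.inl l)) => X (bw d m 0, l.succ)
  | Sum.inr (Sum.inr (Sum.inr (Sum.inl l))) => (tup k (2 * d + 3 + m) e (bw d m 1) -
      Polynomial.X * Polynomial.C (X (bw d m 0, 0))).coeff l
  | Sum.inr (Sum.inr (Sum.inr (Sum.inr l))) => (tup k (2 * d + 3 + m) e (bw d m 2) -
      Polynomial.X ^ e * Polynomial.C (X (bw d m 0, 0))).coeff l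

/-- the marked point: `w = (1, T, T ^ e)`, all `x` vanish -/
noncomputable def WB (k : Type*) [Field k] (d m e : ℕ) :
    Fin (2 * d + 3 + m + 1) × Fin (e + 1) → k := fun p =>
  if (p.1 = bw d m 0 ∧ (p.2 : ℕ) = 0) ∨ (p.1 = bw d m 1 ∧ (p.2 : ℕ) = 1) ∨
    (p.1 = bw d m 2 ∧ (p.2 : ℕ) = e) then 1 else 0

end

theorem fB_hom (d m : ℕ) (i₁ : Fin d) : (fB k d m i₁).IsHomogeneous (d + 1) := by
  unfold fB
  refine IsHomogeneous.add (IsHomogeneous.add (IsHomogeneous.add ?_ ?_) ?_) ?_
  · exact isHomogeneous_X_pow _ _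
  · refine IsHomogeneous.sum _ _ _ fun i _ => ?_
    have := (isHomogeneous_X_pow (R := k) (bx d m i) (d - i)).mul
      (isHomogeneous_X_pow (R := k) (bx' d m i) ((i : ℕ) + 1))
    have h2 : d - (i : ℕ) + ((i : ℕ) + 1) = d + 1 := by
      have := i.2
      omega
    rwa [h2] at this
  · refine IsHomogeneous.sum _ _ _ fun i _ => ?_
    have h1 := ((isHomogeneous_X k (bx' d m i)).mul (isHomogeneous_X k (bw d m 0))).sub
      ((isHomogeneous_X k (bx d m i)).mul (isHomogeneous_X k (bw d m 1)))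
    have h2 := (isHomogeneous_X_pow (R := k) (bw d m 0) (d - 1 - i)).mul
      (isHomogeneous_X_pow (R := k) (bw d m 2) (i : ℕ))
    have h3 := h1.mul h2
    have h4 : 1 + 1 + (d - 1 - (i : ℕ) + (i : ℕ)) = d + 1 := by
      have := i.2
      omega
    rwa [h4] at h3
  · have := (isHomogeneous_X k (bx d m i₁)).mul (isHomogeneous_X_pow (R := k) (bw d m 2) d)
    exact (Nat.add_comm 1 d) ▸ this

theorem zB_hom (d m e : ℕ) (i) : (zB k d m e i).IsHomogeneous 1 := by
  rcases i with p | p | l | l | l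
  · change ((tup k (2 * d + 3 + m) e (bx' d m p.1) -
      Polynomial.X * tup k (2 * d + 3 + m) e (bx d m p.1)).coeff p.2).IsHomogeneous 1
    rw [Polynomial.coeff_sub]
    refine IsHomogeneous.sub (tup_hom _ _ _ _) ?_
    rcases hp : (p.2 : ℕ) with _ | l
    · rw [Polynomial.mul_coeff_zero, Polynomial.coeff_X_zero, zero_mul]
      exact isHomogeneous_zero _ _ _
    · rw [Polynomial.coeff_X_mul]
      exact tup_hom _ _ _ _
  · exact isHomogeneous_X _ _
  · exact isHomogeneous_X _ _
  · change ((tup k (2 * d + 3 + m) e (bw d m 1) -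
      Polynomial.X * Polynomial.C (X (bw d m 0, 0))).coeff l).IsHomogeneous 1
    rw [Polynomial.coeff_sub, Polynomial.coeff_mul_C]
    refine IsHomogeneous.sub (tup_hom _ _ _ _) ?_
    rw [Polynomial.coeff_X]
    split_ifs
    · rw [one_mul]
      exact isHomogeneous_X _ _
    · rw [zero_mul]
      exact isHomogeneous_zero _ _ _
  · change ((tup k (2 * d + 3 + m) e (bw d m 2) -
      Polynomial.X ^ e * Polynomial.C (X (bw d m 0, 0))).coeff l).IsHomogeneous 1
    rw [Polynomial.coeff_sub, Polynomial.coeff_mul_C]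
    refine IsHomogeneous.sub (tup_hom _ _ _ _) ?_
    rw [Polynomial.coeff_X_pow]
    split_ifs
    · rw [one_mul]
      exact isHomogeneous_X _ _
    · rw [zero_mul]
      exact isHomogeneous_zero _ _ _

/-- a polynomial identity from the vanishing of finitely many coefficients -/
theorem map_eq_zero_of_coeff {τ : Type*} (a : τ → k) (G : Polynomial (MvPolynomial τ k)) (N : ℕ)
    (hG : G.natDegree < N) (h : ∀ j < N, eval a (G.coeff j) = 0) : G.map (eval a) = 0 := by
  ext j
  rw [Polynomial.coeff_map, Polynomial.coeff_zero]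
  by_cases hj : j < N
  · exact h j hj
  · rw [Polynomial.coeff_eq_zero_of_natDegree_lt (by omega), map_zero]

/-- what the linear equations say -/
theorem zB_spec (d m e : ℕ) (he : 1 ≤ e) (a : Fin (2 * d + 3 + m + 1) × Fin (e + 1) → k)
    (hz : ∀ i, eval a (zB k d m e i) = 0) :
    (∀ i, ptup a (bx' d m i) = Polynomial.X * ptup a (bx d m i)) ∧
    (∀ t, ptup a (bu d m t) = 0) ∧
    ptup a (bw d m 0) = Polynomial.C (a (bw d m 0, 0)) ∧
    ptup a (bw d m 1) = Polynomial.X * Polynomial.C (a (bw d m 0, 0)) ∧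
    ptup a (bw d m 2) = Polynomial.X ^ e * Polynomial.C (a (bw d m 0, 0)) := by
  refine ⟨?_, ?_, ?_, ?_, ?_⟩
  · intro i
    rw [← sub_eq_zero, ← map_tup a, ← map_tup a]
    have h2 : (tup k (2 * d + 3 + m) e (bx' d m i)).map (eval a) -
        Polynomial.X * (tup k (2 * d + 3 + m) e (bx d m i)).map (eval a) =
        (tup k (2 * d + 3 + m) e (bx' d m i) -
          Polynomial.X * tup k (2 * d + 3 + m) e (bx d m i)).map (eval a) := by
      rw [Polynomial.map_sub, Polynomial.map_mul, Polynomial.map_X]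
    rw [h2]
    refine map_eq_zero_of_coeff a _ (e + 2) ?_ fun j hj => hz (Sum.inl (i, ⟨j, hj⟩))
    have h3 := tup_natDegree (k := k) (2 * d + 3 + m) e (bx' d m i)
    have h4 := tup_natDegree (k := k) (2 * d + 3 + m) e (bx d m i)
    have h5 : (Polynomial.X * tup k (2 * d + 3 + m) e (bx d m i)).natDegree ≤ e + 1 := by
      refine Polynomial.natDegree_mul_le.trans ?_
      have := Polynomial.natDegree_X_le (R := CoeffRing k (2 * d + 3 + m) e)
      omega
    have h6 := Polynomial.natDegree_sub_le (tup k (2 * d + 3 + m) e (bx' d m i))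
      (Polynomial.X * tup k (2 * d + 3 + m) e (bx d m i))
    have h7 : max (tup k (2 * d + 3 + m) e (bx' d m i)).natDegree
      (Polynomial.X * tup k (2 * d + 3 + m) e (bx d m i)).natDegree ≤ e + 1 :=
      max_le (h3.trans (Nat.le_succ _)) h5
    omega
  · intro t
    ext j
    rw [Polynomial.coeff_zero]
    by_cases hj : j < e + 1
    · have h3 := ptup_coeff a (bu d m t) ⟨j, hj⟩
      have h4 := hz (Sum.inr (Sum.inl (t, ⟨j, hj⟩)))
      have h5 : eval a (X (bu d m t, ⟨j, hj⟩) : CoeffRing k (2 * d + 3 + m) e) = 0 := h4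
      rw [eval_X] at h5
      rw [← h5]
      exact h3
    · apply Polynomial.coeff_eq_zero_of_natDegree_lt
      have := ptup_natDegree a (bu d m t)
      omega
  · ext j
    rw [Polynomial.coeff_C]
    rcases j with _ | j
    · rw [if_pos rfl]
      exact ptup_coeff a (bw d m 0) 0
    · rw [if_neg (Nat.succ_ne_zero j)]
      by_cases hj : j < e
      · have h3 := ptup_coeff a (bw d m 0) (Fin.succ ⟨j, hj⟩)
        have h4 := hz (Sum.inr (Sum.inr (Sum.inl ⟨j, hj⟩)))
        have h5 : eval a (X (bw d m 0, Fin.succ ⟨j, hj⟩) :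
          CoeffRing k (2 * d + 3 + m) e) = 0 := h4
        rw [eval_X] at h5
        rw [← h5]
        exact h3
      · apply Polynomial.coeff_eq_zero_of_natDegree_lt
        have := ptup_natDegree a (bw d m 0)
        omega
  · rw [← sub_eq_zero, ← map_tup a]
    have h2 : (tup k (2 * d + 3 + m) e (bw d m 1)).map (eval a) -
        Polynomial.X * Polynomial.C (a (bw d m 0, 0)) =
        (tup k (2 * d + 3 + m) e (bw d m 1) -
          Polynomial.X * Polynomial.C (X (bw d m 0, 0))).map (eval a) := by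
      rw [Polynomial.map_sub, Polynomial.map_mul, Polynomial.map_X, Polynomial.map_C, eval_X]
    rw [h2]
    refine map_eq_zero_of_coeff a _ (e + 1) ?_
      fun j hj => hz (Sum.inr (Sum.inr (Sum.inr (Sum.inl ⟨j, hj⟩))))
    have h3 := tup_natDegree (k := k) (2 * d + 3 + m) e (bw d m 1)
    have h5 : (Polynomial.X * Polynomial.C (X (bw d m 0, 0) :
        CoeffRing k (2 * d + 3 + m) e)).natDegree ≤ e := by
      refine (Polynomial.natDegree_mul_C_le _ _).trans ?_
      exact Polynomial.natDegree_X_le.trans he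
    have h6 := Polynomial.natDegree_sub_le (tup k (2 * d + 3 + m) e (bw d m 1))
      (Polynomial.X * Polynomial.C (X (bw d m 0, 0)))
    have h7 := max_le h3 h5
    omega
  · rw [← sub_eq_zero, ← map_tup a]
    have h2 : (tup k (2 * d + 3 + m) e (bw d m 2)).map (eval a) -
        Polynomial.X ^ e * Polynomial.C (a (bw d m 0, 0)) =
        (tup k (2 * d + 3 + m) e (bw d m 2) -
          Polynomial.X ^ e * Polynomial.C (X (bw d m 0, 0))).map (eval a) := by
      rw [Polynomial.map_sub, Polynomial.map_mul, Polynomial.map_pow, Polynomial.map_X,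
        Polynomial.map_C, eval_X]
    rw [h2]
    refine map_eq_zero_of_coeff a _ (e + 1) ?_
      fun j hj => hz (Sum.inr (Sum.inr (Sum.inr (Sum.inr ⟨j, hj⟩))))
    have h3 := tup_natDegree (k := k) (2 * d + 3 + m) e (bw d m 2)
    have h5 : (Polynomial.X ^ e * Polynomial.C (X (bw d m 0, 0) :
        CoeffRing k (2 * d + 3 + m) e)).natDegree ≤ e := by
      refine (Polynomial.natDegree_mul_C_le _ _).trans ?_
      exact Polynomial.natDegree_X_pow_le _
    have h6 := Polynomial.natDegree_sub_le (tup k (2 * d + 3 + m) e (bw d m 2))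
      (Polynomial.X ^ e * Polynomial.C (X (bw d m 0, 0)))
    have h7 := max_le h3 h5
    omega

end Pool.Agent.Helper30.RC
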