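import Mathlib
import Pool.Agent.Helper30.RC.DataB

/-!
# Zeros of the special form on the special linear space
-/

namespace Pool.Agent.Helper30.RC

open MvPolynomial

variable {k : Type*} [Field k]

/-- the order argument -/
theorem order_zero (d e : ℕ) (hd : 2 ≤ d) (Y : Fin (d + 1) → Polynomial k)
    (hY : (Y 1).natDegree + 1 ≤ e) (μ : k)
    (h : ∑ i : Fin (d + 1), Polynomial.X ^ (i : ℕ) * Y i ^ (d + 1) +
      Polynomial.C μ * (Polynomial.X ^ (d * e) * Y 1) = 0) : ∀ i, Y i = 0 := by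
  classical
  by_contra hcon
  push Not at hcon
  -- the orders
  let P : Fin (d + 1) → Polynomial k := fun i => Polynomial.X ^ (i : ℕ) * Y i ^ (d + 1)
  have hPdef : ∀ i, P i = Polynomial.X ^ (i : ℕ) * Y i ^ (d + 1) := fun i => rfl
  have hP0 : ∀ i, Y i ≠ 0 → P i ≠ 0 := fun i hi =>
    mul_ne_zero (pow_ne_zero _ Polynomial.X_ne_zero) (pow_ne_zero _ hi)
  have hPz : ∀ i, Y i = 0 → P i = 0 := by
    intro i hi
    rw [hPdef, hi, zero_pow (Nat.succ_ne_zero d), mul_zero]
  have hord : ∀ i, Y i ≠ 0 →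
      (P i).natTrailingDegree = i + (d + 1) * (Y i).natTrailingDegree := by
    intro i hi
    have hpow : ∀ m : ℕ, (Y i ^ m).natTrailingDegree = m * (Y i).natTrailingDegree := by
      intro m
      induction m with
      | zero => simp
      | succ m ih =>
        rw [pow_succ, Polynomial.natTrailingDegree_mul (pow_ne_zero _ hi) hi, ih]
        ring
    rw [hPdef, Polynomial.natTrailingDegree_mul (pow_ne_zero _ Polynomial.X_ne_zero)
      (pow_ne_zero _ hi), hpow]
    congr 1
    exact Polynomial.natTrailingDegree_X_pow _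
  -- minimal one
  obtain ⟨j, hj, hmin⟩ := Finset.exists_min_image (Finset.univ.filter fun i => Y i ≠ 0)
    (fun i => (P i).natTrailingDegree) (by
      obtain ⟨i, hi⟩ := hcon
      exact ⟨i, by simpa using hi⟩)
  have hjY : Y j ≠ 0 := by simpa using hj
  set v := (P j).natTrailingDegree with hv
  have hlt : ∀ i, i ≠ j → (P i).coeff v = 0 := by
    intro i hij
    by_cases hi : Y i = 0
    · rw [hPz i hi, Polynomial.coeff_zero]
    · have h1 := hmin i (by simpa using hi)
      have h2 : v ≠ (P i).natTrailingDegree := by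
        rw [hv, hord i hi, hord j hjY]
        intro he
        have h3 : ((j : ℕ) + (d + 1) * (Y j).natTrailingDegree) % (d + 1) =
          ((i : ℕ) + (d + 1) * (Y i).natTrailingDegree) % (d + 1) := by rw [he]
        rw [Nat.add_mul_mod_self_left, Nat.add_mul_mod_self_left, Nat.mod_eq_of_lt i.2,
          Nat.mod_eq_of_lt j.2] at h3
        exact hij (Fin.ext h3.symm)
      exact Polynomial.coeff_eq_zero_of_lt_natTrailingDegree (lt_of_le_of_ne h1 h2)
  have hcoef := congrArg (fun G : Polynomial k => G.coeff v) h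
  simp only [Polynomial.coeff_add, Polynomial.finsetSum_coeff, Polynomial.coeff_zero,
    Polynomial.coeff_C_mul] at hcoef
  rw [Finset.sum_eq_single j (fun i _ hij => hlt i hij) (by simp)] at hcoef
  have hjc : (P j).coeff v ≠ 0 := by
    have h1 := Polynomial.trailingCoeff_nonzero_iff_nonzero.mpr (hP0 j hjY)
    exact h1
  have h2 : (Polynomial.X ^ (d * e) * Y 1).coeff v ≠ 0 := by
    intro h3
    rw [h3, mul_zero, add_zero] at hcoef
    exact hjc hcoef
  rw [Polynomial.coeff_X_pow_mul'] at h2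
  have h3 : d * e ≤ v := by
    by_contra h4
    rw [if_neg h4] at h2
    exact h2 rfl
  rw [if_pos h3] at h2
  have h5 : Y 1 ≠ 0 := by
    intro h6
    rw [h6, Polynomial.coeff_zero] at h2
    exact h2 rfl
  have h6 : (Y 1).natTrailingDegree ≤ v - d * e := by
    by_contra h7
    exact h2 (Polynomial.coeff_eq_zero_of_lt_natTrailingDegree (by omega))
  have h7 : v ≤ (P 1).natTrailingDegree := hmin 1 (by simpa using h5)
  rw [hord 1 h5] at h7
  have h8 : (Y 1).natTrailingDegree ≤ (Y 1).natDegree := Polynomial.natTrailingDegree_le_natDegree _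
  have h9 : ((1 : Fin (d + 1)) : ℕ) = 1 := by
    rw [Fin.val_one']
    exact Nat.mod_eq_of_lt (by omega)
  rw [h9] at h7
  set t := (Y 1).natTrailingDegree
  have h10 : d * e + t ≤ 1 + (d + 1) * t := by omega
  have h11 : d * (t + 1) ≤ d * e := Nat.mul_le_mul_left d (by omega)
  have h12 : (d + 1) * t = d * t + t := by ring
  have h13 : d * (t + 1) = d * t + d := by ring
  omega

/-- polynomials with prescribed coefficients -/
theorem ptup_eq_of {n e : ℕ} {a : Fin (n + 1) × Fin (e + 1) → k} {i : Fin (n + 1)}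
    {G : Polynomial k} (hG : G.natDegree ≤ e) (h : ∀ l : Fin (e + 1), a (i, l) = G.coeff l) :
    ptup a i = G := by
  ext j
  by_cases hj : j < e + 1
  · rw [← h ⟨j, hj⟩, ← ptup_coeff a i ⟨j, hj⟩]
  · have := ptup_natDegree a i
    rw [Polynomial.coeff_eq_zero_of_natDegree_lt (by omega),
      Polynomial.coeff_eq_zero_of_natDegree_lt (by omega)]

theorem ptup_smul {n e : ℕ} (a : Fin (n + 1) × Fin (e + 1) → k) (c : k) (i : Fin (n + 1)) :
    ptup (c • a) i = Polynomial.C c * ptup a i := by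
  rw [ptup, ptup, Finset.mul_sum]
  refine Finset.sum_congr rfl fun l _ => ?_
  rw [Pi.smul_apply, smul_eq_mul, map_mul, mul_assoc]

theorem ptup_inj {n e : ℕ} {a b : Fin (n + 1) × Fin (e + 1) → k}
    (h : ∀ i, ptup a i = ptup b i) : a = b := by
  ext ⟨i, l⟩
  rw [← ptup_coeff a i l, h i, ptup_coeff]

theorem ptup_WB (d m e : ℕ) (he : 1 ≤ e) :
    ptup (WB k d m e) 0 = 0 ∧ (∀ i, ptup (WB k d m e) (bx d m i) = 0) ∧
    (∀ i, ptup (WB k d m e) (bx' d m i) = 0) ∧ (∀ t, ptup (WB k d m e) (bu d m t) = 0) ∧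
    ptup (WB k d m e) (bw d m 0) = 1 ∧ ptup (WB k d m e) (bw d m 1) = Polynomial.X ∧
    ptup (WB k d m e) (bw d m 2) = Polynomial.X ^ e := by
  have hval : ∀ (i : Fin (2 * d + 3 + m + 1)) (j : Fin 3), i = bw d m j ↔
      (i : ℕ) = 2 * d + 1 + j := by
    intro i j
    rw [Fin.ext_iff]
    rfl
  have hbw : ∀ j : Fin 3, ((bw d m j : Fin (2 * d + 3 + m + 1)) : ℕ) = 2 * d + 1 + j :=
    fun j => rfl
  have h0 : ∀ i : Fin (2 * d + 3 + m + 1), (i : ℕ) < 2 * d + 1 ∨ 2 * d + 4 ≤ (i : ℕ) →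
      ptup (WB k d m e) i = 0 := by
    intro i hi
    refine ptup_eq_of (by simp) fun l => ?_
    rw [Polynomial.coeff_zero, WB]
    refine if_neg ?_
    simp only [hval]
    simp only [Fin.val_zero, Fin.val_one, Fin.val_two]
    omega
  refine ⟨h0 _ (Or.inl ?_), fun i => h0 _ (Or.inl ?_), fun i => h0 _ (Or.inl ?_),
    fun t => h0 _ (Or.inr ?_), ?_, ?_, ?_⟩
  · simp
  · simp only [bx]
    have := i.2
    omega
  · simp only [bx']
    have := i.2
    omega
  · simp only [bu]
    omega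
  · refine ptup_eq_of (by simp) fun l => ?_
    rw [Polynomial.coeff_one, WB]
    simp only [hval, hbw, Fin.val_zero, Fin.val_one, Fin.val_two, true_and]
    congr 1
    apply propext
    omega
  · refine ptup_eq_of (Polynomial.natDegree_X_le.trans he) fun l => ?_
    rw [Polynomial.coeff_X, WB]
    simp only [hval, hbw, Fin.val_zero, Fin.val_one, Fin.val_two, true_and]
    congr 1
    apply propext
    omega
  · refine ptup_eq_of (Polynomial.natDegree_X_pow_le e) fun l => ?_
    rw [Polynomial.coeff_X_pow, WB]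
    simp only [hval, hbw, Fin.val_zero, Fin.val_one, Fin.val_two, true_and]
    congr 1
    apply propext
    omega

theorem WB_ne (d m e : ℕ) (he : 1 ≤ e) : WB k d m e ≠ 0 := by
  intro h
  have h1 := (ptup_WB (k := k) d m e he).2.2.2.2.1
  have h2 := ptup_coeff (WB k d m e) (bw d m 0) 0
  rw [h1, h] at h2
  simp at h2

/-- the zeros of the special form on the special linear space -/
theorem zeroB (d m e : ℕ) (hd : 2 ≤ d) (he : 1 ≤ e) (i₁ : Fin d) (hi₁ : (i₁ : ℕ) = 0)
    (a : Fin (2 * d + 3 + m + 1) × Fin (e + 1) → k)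
    (hf : aeval (ptup a) (fB k d m i₁) = 0) (hz : ∀ i, eval a (zB k d m e i) = 0) :
    a = a (bw d m 0, 0) • WB k d m e := by
  obtain ⟨h1, h2, h3, h4, h5⟩ := zB_spec d m e he a hz
  set μ := a (bw d m 0, 0)
  have h6 : ∀ i, (ptup a (bx d m i)) ≠ 0 → (ptup a (bx d m i)).natDegree + 1 ≤ e := by
    intro i hi
    have h7 := ptup_natDegree a (bx' d m i)
    rw [h1 i, Polynomial.natDegree_X_mul hi] at h7
    exact h7
  have h7 : ∀ i, (ptup a (bx d m i)).natDegree + 1 ≤ e := by
    intro i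
    by_cases hi : ptup a (bx d m i) = 0
    · rw [hi, Polynomial.natDegree_zero]
      omega
    · exact h6 i hi
  have h1' : (1 : Fin (d + 1)) = Fin.succ i₁ := by
    apply Fin.ext
    rw [Fin.val_one', Fin.val_succ, hi₁]
    exact Nat.mod_eq_of_lt (by omega)
  have h8 : ∑ i : Fin (d + 1), Polynomial.X ^ (i : ℕ) *
      (Fin.cons (ptup a 0) (fun i => ptup a (bx d m i)) : Fin (d + 1) → Polynomial k) i ^ (d + 1)
      + Polynomial.C (μ ^ d) * (Polynomial.X ^ (d * e) *
        (Fin.cons (ptup a 0) (fun i => ptup a (bx d m i)) : Fin (d + 1) → Polynomial k) 1)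
      = 0 := by
    rw [← hf, Fin.sum_univ_succ, h1']
    simp only [Fin.cons_zero, Fin.cons_succ, Fin.val_zero, pow_zero, one_mul, Fin.val_succ]
    unfold fB
    simp only [map_add, map_sub, map_pow, map_sum, map_mul, aeval_X, h1, h3, h4, h5]
    have h9 : ∑ i : Fin d, (Polynomial.X * ptup a (bx d m i) * Polynomial.C μ -
        ptup a (bx d m i) * (Polynomial.X * Polynomial.C μ)) *
        (Polynomial.C μ ^ (d - 1 - (i : ℕ)) * (Polynomial.X ^ e * Polynomial.C μ) ^ (i : ℕ)) =
        0 := by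
      refine Finset.sum_eq_zero fun i _ => ?_
      ring
    rw [h9, add_zero]
    congr 1
    · congr 1
      refine Finset.sum_congr rfl fun i _ => ?_
      have h4 : d - (i : ℕ) + ((i : ℕ) + 1) = d + 1 := by
        have := i.2
        omega
      rw [mul_pow, ← h4, pow_add (ptup a (bx d m i)) (d - (i : ℕ))]
      ring
    · ring
  have h9 := order_zero d e hd _ (by
    rw [h1', Fin.cons_succ]
    exact h7 i₁) _ h8
  have h10 : ptup a 0 = 0 := h9 0
  have h11 : ∀ i, ptup a (bx d m i) = 0 := fun i => h9 i.succ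
  obtain ⟨w1, w2, w3, w4, w5, w6, w7⟩ := ptup_WB (k := k) d m e he
  apply ptup_inj
  intro v
  rw [ptup_smul]
  rcases b_cases d m v with rfl | ⟨i, rfl⟩ | ⟨i, rfl⟩ | ⟨i, rfl⟩ | ⟨t, rfl⟩
  · rw [h10, w1, mul_zero]
  · rw [h11, w2, mul_zero]
  · rw [h1, h11, w3, mul_zero, mul_zero]
  · have hi : i = 0 ∨ i = 1 ∨ i = 2 := by
      obtain ⟨i, hi⟩ := i
      interval_cases i <;> simp
    rcases hi with rfl | rfl | rfl
    · rw [h3, w5, mul_one]
    · rw [h4, w6, mul_comm]
    · rw [h5, w7, mul_comm]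
  · rw [h2, w4, mul_zero]

theorem fB_WB (d m e : ℕ) (he : 1 ≤ e) (i₁ : Fin d) :
    aeval (ptup (WB k d m e)) (fB k d m i₁) = 0 := by
  obtain ⟨w1, w2, w3, w4, w5, w6, w7⟩ := ptup_WB (k := k) d m e he
  unfold fB
  simp only [map_add, map_sub, map_pow, map_sum, map_mul, aeval_X, w1, w2, w3, w5, w6, w7]
  have h1 : ∑ i : Fin d, (0 : Polynomial k) ^ (d - (i : ℕ)) * 0 ^ ((i : ℕ) + 1) = 0 := by
    refine Finset.sum_eq_zero fun i _ => ?_
    rw [zero_pow (Nat.succ_ne_zero _), mul_zero]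
  have h2 : ∑ i : Fin d, ((0 : Polynomial k) * 1 - 0 * Polynomial.X) *
      (1 ^ (d - 1 - (i : ℕ)) * (Polynomial.X ^ e) ^ (i : ℕ)) = 0 := by
    refine Finset.sum_eq_zero fun i _ => ?_
    rw [zero_mul, zero_mul, sub_self, zero_mul]
  rw [h1, h2, zero_pow (Nat.succ_ne_zero d), zero_mul, add_zero, add_zero, add_zero]

end Pool.Agent.Helper30.RC
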