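import Mathlib
import Pool.Agent.Helper30.RC.ZeroB

/-!
# The differential of the special member at the marked point is onto
-/

namespace Pool.Agent.Helper30.RC

open MvPolynomial

variable {k : Type*} [Field k]

/-- the derivative of `f` at `P` in the direction `V`, with values in an algebra -/
noncomputable def da {A : Type*} [CommRing A] [Algebra k A] {ι : Type*} [Fintype ι] (P V : ι → A)
    (f : MvPolynomial ι k) : A := ∑ i, aeval P (pderiv i f) * V i

section

variable {A : Type*} [CommRing A] [Algebra k A] {ι : Type*} [Fintype ι] (P V : ι → A)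

theorem da_add (f g : MvPolynomial ι k) : da P V (f + g) = da P V f + da P V g := by
  simp [da, add_mul, Finset.sum_add_distrib]

theorem da_sub (f g : MvPolynomial ι k) : da P V (f - g) = da P V f - da P V g := by
  simp [da, sub_mul, Finset.sum_sub_distrib]

theorem da_mul (f g : MvPolynomial ι k) :
    da P V (f * g) = aeval P f * da P V g + aeval P g * da P V f := by
  simp only [da, Derivation.leibniz, smul_eq_mul, map_add, map_mul, Finset.mul_sum]
  rw [← Finset.sum_add_distrib]
  refine Finset.sum_congr rfl fun t _ => ?_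
  ring

theorem da_C (c : k) : da P V (C c : MvPolynomial ι k) = 0 := by
  simp [da]

theorem da_X (t : ι) : da P V (X t : MvPolynomial ι k) = V t := by
  classical
  simp [da, pderiv_X, Pi.single_apply, apply_ite]

theorem da_sum {κ : Type*} (s : Finset κ) (f : κ → MvPolynomial ι k) :
    da P V (∑ i ∈ s, f i) = ∑ i ∈ s, da P V (f i) := by
  classical
  induction s using Finset.induction_on with
  | empty => simp [da]
  | insert a s ha ih => rw [Finset.sum_insert ha, Finset.sum_insert ha, da_add, ih]

/-- powers of an element vanishing at `P` -/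
theorem da_pow_zero (f : MvPolynomial ι k) (hf : aeval P f = 0) (m : ℕ) (hm : 2 ≤ m) :
    da P V (f ^ m) = 0 := by
  obtain ⟨m, rfl⟩ : ∃ m', m = m' + 1 + 1 := ⟨m - 2, by omega⟩
  rw [pow_succ, da_mul, hf, map_pow, hf, zero_pow (Nat.succ_ne_zero m), zero_mul, zero_mul,
    add_zero]

/-- a product of two elements vanishing at `P` -/
theorem da_mul_zero (f g : MvPolynomial ι k) (hf : aeval P f = 0) (hg : aeval P g = 0) :
    da P V (f * g) = 0 := by
  rw [da_mul, hf, hg, zero_mul, zero_mul, add_zero]

end

/-- the chain rule -/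
theorem dd_pull {n e : ℕ} (W Z : Fin (n + 1) × Fin (e + 1) → k)
    (f : MvPolynomial (Fin (n + 1)) k) (j : ℕ) :
    dd W Z ((pull e f).coeff j) = (da (ptup W) (ptup Z) f).coeff j := by
  have hdd0 : dd W Z (0 : CoeffRing k n e) = 0 := by
    have := dd_C W Z (0 : k)
    rwa [map_zero] at this
  have htup : ∀ (i : Fin (n + 1)) (b : ℕ), dd W Z ((tup k n e i).coeff b) =
      (ptup Z i).coeff b := by
    intro i b
    by_cases hb : b < e + 1
    · have h1 : (tup k n e i).coeff b = X (i, ⟨b, hb⟩) := by
        rw [tup, Polynomial.finsetSum_coeff]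
        simp only [Polynomial.coeff_C_mul, Polynomial.coeff_X_pow]
        rw [Finset.sum_eq_single ⟨b, hb⟩]
        · simp
        · intro c _ hc
          have : b ≠ (c : ℕ) := fun h => hc (Fin.ext h.symm)
          simp [this]
        · simp
      rw [h1, dd_X, ← ptup_coeff Z i ⟨b, hb⟩]
    · have h1 := tup_natDegree (k := k) n e i
      have h2 := ptup_natDegree Z i
      rw [Polynomial.coeff_eq_zero_of_natDegree_lt (by omega),
        Polynomial.coeff_eq_zero_of_natDegree_lt (by omega), hdd0]
  have hsum : ∀ (s : Finset (ℕ × ℕ)) (g : ℕ × ℕ → CoeffRing k n e),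
      dd W Z (∑ x ∈ s, g x) = ∑ x ∈ s, dd W Z (g x) := by
    classical
    intro s g
    induction s using Finset.induction_on with
    | empty => simpa using hdd0
    | insert a s ha ih => rw [Finset.sum_insert ha, Finset.sum_insert ha, dd_add, ih]
  induction f using MvPolynomial.induction_on generalizing j with
  | C c =>
    rw [da_C, Polynomial.coeff_zero, pull, aeval_C]
    rw [Polynomial.algebraMap_apply, Polynomial.coeff_C]
    split_ifs
    · exact dd_C W Z c
    · exact hdd0
  | add f g hf hg =>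
    have h1 : pull e (f + g) = pull e f + pull e g := map_add _ _ _
    rw [h1, Polynomial.coeff_add, dd_add, hf, hg, da_add, Polynomial.coeff_add]
  | mul_X f s hf =>
    have h1 : pull e (f * X s) = pull e f * tup k n e s := by
      rw [pull, map_mul, aeval_X]
      rfl
    rw [h1, Polynomial.coeff_mul, hsum, da_mul, da_X, aeval_X, Polynomial.coeff_add,
      Polynomial.coeff_mul, mul_comm (ptup W s), Polynomial.coeff_mul, ← Finset.sum_add_distrib]
    refine Finset.sum_congr rfl fun x _ => ?_
    rw [dd_mul, hf, htup, ← map_pull, Polynomial.coeff_map, ← map_tup W s, Polynomial.coeff_map]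
    ring

/-- splitting a polynomial into blocks -/
theorem exists_blocks (d e : ℕ) (hd : 1 ≤ d) (H : Polynomial k) (hH : H.natDegree ≤ d * e) :
    ∃ V : Fin d → Polynomial k, (∀ i, (V i).natDegree ≤ e) ∧
      ∑ i, V i * (Polynomial.X ^ e) ^ (i : ℕ) = H := by
  induction d, hd using Nat.le_induction generalizing H with
  | base =>
    refine ⟨fun _ => H, fun _ => by simpa using hH, ?_⟩
    simp
  | succ d hd ih =>
    have hmon : (Polynomial.X ^ (d * e) : Polynomial k).Monic := Polynomial.monic_X_pow _
    have h1 : (H %ₘ Polynomial.X ^ (d * e)).natDegree ≤ d * e := by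
      have := Polynomial.natDegree_modByMonic_le H hmon
      rwa [Polynomial.natDegree_X_pow] at this
    obtain ⟨V, hV, hs⟩ := ih _ h1
    have h2 : (H /ₘ Polynomial.X ^ (d * e)).natDegree ≤ e := by
      rw [Polynomial.natDegree_divByMonic _ hmon, Polynomial.natDegree_X_pow]
      have : (d + 1) * e = d * e + e := by ring
      omega
    refine ⟨Fin.snoc V (H /ₘ Polynomial.X ^ (d * e)), ?_, ?_⟩
    · intro i
      refine Fin.lastCases ?_ (fun i => ?_) i
      · rw [Fin.snoc_last]
        exact h2
      · rw [Fin.snoc_castSucc]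
        exact hV i
    · rw [Fin.sum_univ_castSucc]
      simp only [Fin.snoc_castSucc, Fin.snoc_last, Fin.val_castSucc, Fin.val_last]
      rw [hs]
      have h3 := Polynomial.modByMonic_add_div H (Polynomial.X ^ (d * e))
      rw [← pow_mul, mul_comm e d]
      rw [mul_comm (H /ₘ _)]
      exact h3

theorem da_fB (d m e : ℕ) (hd : 2 ≤ d) (he : 1 ≤ e) (i₁ : Fin d)
    (V : Fin (2 * d + 3 + m + 1) → Polynomial k) :
    da (ptup (WB k d m e)) V (fB k d m i₁) =
      ∑ i : Fin d, (V (bx' d m i) - Polynomial.X * V (bx d m i)) *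
        (Polynomial.X ^ e) ^ (i : ℕ) + (Polynomial.X ^ e) ^ d * V (bx d m i₁) := by
  obtain ⟨w1, w2, w3, w4, w5, w6, w7⟩ := ptup_WB (k := k) d m e he
  unfold fB
  rw [da_add, da_add, da_add, da_sum, da_sum]
  rw [da_pow_zero _ _ _ (by rw [aeval_X, w1]) _ (by omega)]
  have h1 : ∑ i : Fin d, da (ptup (WB k d m e)) V
      (X (bx d m i) ^ (d - (i : ℕ)) * X (bx' d m i) ^ ((i : ℕ) + 1) :
        MvPolynomial (Fin (2 * d + 3 + m + 1)) k) = 0 := by
    refine Finset.sum_eq_zero fun i _ => ?_
    apply da_mul_zero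
    · have := i.2
      rw [map_pow, aeval_X, w2, zero_pow (by omega)]
    · rw [map_pow, aeval_X, w3, zero_pow (Nat.succ_ne_zero _)]
  have h2 : ∀ i : Fin d, da (ptup (WB k d m e)) V
      ((X (bx' d m i) * X (bw d m 0) - X (bx d m i) * X (bw d m 1)) *
      (X (bw d m 0) ^ (d - 1 - (i : ℕ)) * X (bw d m 2) ^ (i : ℕ)) :
        MvPolynomial (Fin (2 * d + 3 + m + 1)) k) =
      (V (bx' d m i) - Polynomial.X * V (bx d m i)) * (Polynomial.X ^ e) ^ (i : ℕ) := by
    intro i
    have h4 : da (ptup (WB k d m e)) V (X (bx' d m i) * X (bw d m 0) -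
        X (bx d m i) * X (bw d m 1) : MvPolynomial (Fin (2 * d + 3 + m + 1)) k) =
        V (bx' d m i) - Polynomial.X * V (bx d m i) := by
      rw [da_sub, da_mul, da_mul]
      simp only [da_X, aeval_X, w2, w3, w5, w6]
      ring
    have h5 : aeval (ptup (WB k d m e)) (X (bx' d m i) * X (bw d m 0) -
        X (bx d m i) * X (bw d m 1) : MvPolynomial (Fin (2 * d + 3 + m + 1)) k) = 0 := by
      simp only [map_sub, map_mul, aeval_X, w2, w3]
      ring
    rw [da_mul, h4, h5, map_mul, map_pow, map_pow]
    simp only [aeval_X, w5, w7]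
    ring
  have h3 : da (ptup (WB k d m e)) V (X (bx d m i₁) * X (bw d m 2) ^ d :
        MvPolynomial (Fin (2 * d + 3 + m + 1)) k) =
      (Polynomial.X ^ e) ^ d * V (bx d m i₁) := by
    rw [da_mul, map_pow]
    simp only [da_X, aeval_X, w2, w7]
    ring
  rw [h1, zero_add, zero_add, h3, Finset.sum_congr rfl fun i _ => h2 i]

/-- the differential is onto -/
theorem surjB (d m e : ℕ) (hd : 2 ≤ d) (he : 1 ≤ e) (i₁ : Fin d) (hi₁ : (i₁ : ℕ) = 0)
    (y : Fin ((d + 1) * e + 1) → k) :
    ∃ Z : Fin (2 * d + 3 + m + 1) × Fin (e + 1) → k, ∀ j : Fin ((d + 1) * e + 1),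
      dd (WB k d m e) Z ((pull e (fB k d m i₁)).coeff j) = y j := by
  classical
  let G : Polynomial k := ∑ j : Fin ((d + 1) * e + 1), Polynomial.C (y j) * Polynomial.X ^ (j : ℕ)
  have hGc : ∀ j : Fin ((d + 1) * e + 1), G.coeff j = y j := by
    intro j
    change (∑ j : Fin ((d + 1) * e + 1), Polynomial.C (y j) *
      Polynomial.X ^ (j : ℕ)).coeff (j : ℕ) = y j
    rw [Polynomial.finsetSum_coeff]
    simp only [Polynomial.coeff_C_mul, Polynomial.coeff_X_pow]
    rw [Finset.sum_eq_single j]
    · simp
    · intro b _ hb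
      have : (j : ℕ) ≠ b := fun h => hb (Fin.ext h.symm)
      simp [this]
    · simp
  have hGd : G.natDegree ≤ (d + 1) * e := by
    refine Polynomial.natDegree_sum_le_of_forall_le _ _ fun l _ => ?_
    refine (Polynomial.natDegree_C_mul_X_pow_le _ _).trans ?_
    have := l.2
    omega
  have hmon : (Polynomial.X ^ (d * e) : Polynomial k).Monic := Polynomial.monic_X_pow _
  set A := G /ₘ Polynomial.X ^ (d * e) with hA
  have hAd : A.natDegree ≤ e := by
    rw [hA, Polynomial.natDegree_divByMonic _ hmon, Polynomial.natDegree_X_pow]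
    have : (d + 1) * e = d * e + e := by ring
    omega
  have hGA := Polynomial.modByMonic_add_div G (Polynomial.X ^ (d * e))
  have hde : e + 1 ≤ d * e := by
    have : 2 * e ≤ d * e := Nat.mul_le_mul_right e hd
    omega
  have hH : (G %ₘ Polynomial.X ^ (d * e) + Polynomial.X * A).natDegree ≤ d * e := by
    refine (Polynomial.natDegree_add_le _ _).trans (max_le ?_ ?_)
    · have := Polynomial.natDegree_modByMonic_le G hmon
      rwa [Polynomial.natDegree_X_pow] at this
    · refine Polynomial.natDegree_mul_le.trans ?_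
      have := Polynomial.natDegree_X_le (R := k)
      omega
  obtain ⟨V', hV', hs⟩ := exists_blocks d e (by omega) _ hH
  let V : Fin (2 * d + 3 + m + 1) → Polynomial k := fun v =>
    if h : d + 1 ≤ (v : ℕ) ∧ (v : ℕ) < 2 * d + 1 then V' ⟨v - (d + 1), by omega⟩
    else if (v : ℕ) = 1 then A else 0
  have hV : ∀ v, (V v).natDegree ≤ e := by
    intro v
    change (if h : d + 1 ≤ (v : ℕ) ∧ (v : ℕ) < 2 * d + 1 then V' ⟨v - (d + 1), by omega⟩
      else if (v : ℕ) = 1 then A else 0).natDegree ≤ e
    split_ifs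
    · exact hV' _
    · exact hAd
    · simp
  have hVx' : ∀ i, V (bx' d m i) = V' i := by
    intro i
    have hi := i.2
    have h1 : d + 1 ≤ ((bx' d m i : Fin (2 * d + 3 + m + 1)) : ℕ) ∧
        ((bx' d m i : Fin (2 * d + 3 + m + 1)) : ℕ) < 2 * d + 1 := by
      simp only [bx']
      omega
    change (if h : _ then _ else _) = _
    rw [dif_pos h1]
    congr 1
    apply Fin.ext
    simp only [bx']
    omega
  have hVx : ∀ i, V (bx d m i) = if i = i₁ then A else 0 := by
    intro i
    have hi := i.2
    have h1 : ¬ (d + 1 ≤ ((bx d m i : Fin (2 * d + 3 + m + 1)) : ℕ) ∧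
        ((bx d m i : Fin (2 * d + 3 + m + 1)) : ℕ) < 2 * d + 1) := by
      simp only [bx]
      omega
    change (if h : _ then _ else _) = _
    rw [dif_neg h1]
    have h2 : ((bx d m i : Fin (2 * d + 3 + m + 1)) : ℕ) = 1 ↔ i = i₁ := by
      rw [Fin.ext_iff, hi₁]
      simp only [bx]
      omega
    simp only [h2]
  refine ⟨fun p => (V p.1).coeff p.2, fun j => ?_⟩
  have hpt : ptup (fun p : Fin (2 * d + 3 + m + 1) × Fin (e + 1) => (V p.1).coeff p.2) = V := by
    funext i
    exact ptup_eq_of (hV i) fun l => rfl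
  rw [dd_pull, hpt, da_fB d m e hd he i₁ V, ← hGc j]
  congr 1
  simp only [sub_mul, Finset.sum_sub_distrib, hVx', hVx, if_true]
  rw [hs]
  have h1 : ∑ i : Fin d, Polynomial.X * (if i = i₁ then A else 0) *
      (Polynomial.X ^ e) ^ (i : ℕ) = Polynomial.X * A := by
    rw [Finset.sum_eq_single i₁]
    · rw [if_pos rfl, hi₁, pow_zero, mul_one]
    · intro b _ hb
      rw [if_neg hb, mul_zero, zero_mul]
    · simp
  rw [h1, ← pow_mul, mul_comm e d, add_sub_cancel_right]
  exact hGA

end Pool.Agent.Helper30.RC
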