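import Mathlib
import Pool.Agent.Helper30.RC.SurjB
import Pool.Agent.Helper30.RC.PrimeNear

/-!
# Theorem B: irreducibility for `n ≥ 2 d + 1`, `d ≥ 3`
-/

namespace Pool.Agent.Helper30.RC

open MvPolynomial

attribute [local instance] MvPolynomial.gradedAlgebra

section

variable {k : Type*} [Field k]

/-- the form with given coefficients -/
noncomputable def formOf {n d : ℕ} (x : Mon n d → k) : MvPolynomial (Fin (n + 1)) k :=
  ∑ m : Mon n d, C (x m) * monomial m.1 1

theorem formOf_hom {n d : ℕ} (x : Mon n d → k) : (formOf x).IsHomogeneous d := by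
  refine IsHomogeneous.sum _ _ _ fun m _ => ?_
  rw [C_mul_monomial, mul_one]
  exact isHomogeneous_monomial _ m.2

theorem coeff_formOf {n d : ℕ} (x : Mon n d → k) (m : Mon n d) : coeff m.1 (formOf x) = x m := by
  classical
  rw [formOf, coeff_sum]
  simp only [coeff_C_mul, coeff_monomial]
  rw [Finset.sum_eq_single m]
  · simp
  · intro b _ hb
    have : b.1 ≠ m.1 := fun h => hb (Subtype.ext h)
    simp [this]
  · simp

/-- conditions on the general form, in terms of the coefficients of degree `d` only -/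
theorem forGeneral_iff {n d : ℕ} {P : MvPolynomial (Fin (n + 1)) k → Prop} :
    ForGeneral n d P ↔ ∃ D : MvPolynomial (Mon n d) k,
      (∃ x : Mon n d → k, eval x D ≠ 0) ∧
      ∀ f : MvPolynomial (Fin (n + 1)) k, f.IsHomogeneous d →
        eval (fun m : Mon n d => coeff m.1 f) D ≠ 0 → P f := by
  classical
  constructor
  · rintro ⟨D, ⟨f₀, hf₀, h0⟩, hD⟩
    let φ : (Fin (n + 1) →₀ ℕ) → MvPolynomial (Mon n d) k := fun m =>
      if h : m.degree = d then X ⟨m, h⟩ else 0
    have key : ∀ f : MvPolynomial (Fin (n + 1)) k, f.IsHomogeneous d →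
        eval (fun m : Mon n d => coeff m.1 f) (aeval φ D) = eval (fun m => coeff m f) D := by
      intro f hf
      have h1 : (eval (fun m : Mon n d => coeff m.1 f)).comp
          (aeval φ : MvPolynomial (Fin (n + 1) →₀ ℕ) k →ₐ[k] MvPolynomial (Mon n d) k).toRingHom =
          eval (fun m => coeff m f) := by
        apply ringHom_ext
        · intro r
          simp
        · intro m
          simp only [AlgHom.toRingHom_eq_coe, RingHom.coe_comp, RingHom.coe_coe,
            Function.comp_apply, aeval_X, eval_X, φ]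
          split_ifs with h
          · rw [eval_X]
          · rw [map_zero, hf.coeff_eq_zero h]
      exact congrArg (fun ψ : MvPolynomial (Fin (n + 1) →₀ ℕ) k →+* k => ψ D) h1
    refine ⟨aeval φ D, ⟨fun m => coeff m.1 f₀, ?_⟩, fun f hf h => hD f hf ?_⟩
    · rw [key f₀ hf₀]
      exact h0
    · rw [← key f hf]
      exact h
  · rintro ⟨D, ⟨x, hx⟩, hD⟩
    refine forGeneral_of (formOf_hom x) D ?_ hD
    have : (fun m : Mon n d => coeff m.1 (formOf x)) = x := funext fun m => coeff_formOf x m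
    rw [this]
    exact hx

/-- two conditions on the general form hold together -/
theorem ForGeneral.and [Infinite k] {n d : ℕ} {P Q : MvPolynomial (Fin (n + 1)) k → Prop}
    (hP : ForGeneral n d P) (hQ : ForGeneral n d Q) : ForGeneral n d (fun f => P f ∧ Q f) := by
  rw [forGeneral_iff] at hP hQ ⊢
  obtain ⟨D, ⟨x, hx⟩, hD⟩ := hP
  obtain ⟨D', ⟨x', hx'⟩, hD'⟩ := hQ
  have h1 : D * D' ≠ 0 := by
    refine mul_ne_zero ?_ ?_
    · rintro rfl
      exact hx (map_zero _)
    · rintro rfl
      exact hx' (map_zero _)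
  refine ⟨D * D', ?_, fun f hf h => ?_⟩
  · by_contra hcon
    push Not at hcon
    exact h1 (MvPolynomial.funext fun x => by rw [hcon x, map_zero])
  · rw [map_mul] at h
    exact ⟨hD f hf (left_ne_zero_of_mul h), hD' f hf (right_ne_zero_of_mul h)⟩

theorem ForGeneral.mono {n d : ℕ} {P Q : MvPolynomial (Fin (n + 1)) k → Prop}
    (hP : ForGeneral n d P) (h : ∀ f, f.IsHomogeneous d → P f → Q f) : ForGeneral n d Q := by
  obtain ⟨D, h0, hD⟩ := hP
  exact ⟨D, h0, fun f hf hx => h f hf (hD f hf hx)⟩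

/-- zeros of the equations are tuples on the hypersurface -/
theorem eval_lin_iff {n d : ℕ} (e : ℕ) {f : MvPolynomial (Fin (n + 1)) k}
    (hf : f.IsHomogeneous d) (a : Fin (n + 1) × Fin (e + 1) → k) :
    (∀ j, eval a (lin (cf k n d e) (fun m : Mon n d => coeff m.1 f) j) = 0) ↔
      aeval (ptup a) f = 0 := by
  rw [← map_pull]
  constructor
  · intro h
    ext j
    rw [Polynomial.coeff_map, Polynomial.coeff_zero]
    by_cases hj : j < d * e + 1
    · have := h ⟨j, hj⟩
      rwa [← pull_coeff e hf] at this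
    · have h2 := pull_natDegree e hf
      rw [Polynomial.coeff_eq_zero_of_natDegree_lt (by omega), map_zero]
  · intro h j
    rw [← pull_coeff e hf, ← Polynomial.coeff_map, h, Polynomial.coeff_zero]

/-- a neighbourhood of the coefficients of a form -/
theorem forGeneral_of_near {n d : ℕ} {f₀ : MvPolynomial (Fin (n + 1)) k}
    (hf₀ : f₀.IsHomogeneous d) {Q : (Mon n d → k) → Prop}
    (h : Near (fun m : Mon n d => coeff m.1 f₀) Q) :
    ForGeneral n d (fun f => Q (fun m : Mon n d => coeff m.1 f)) := by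
  obtain ⟨D, h0, hD⟩ := h
  exact forGeneral_of hf₀ D h0 fun f _ hx => hD _ hx

end

variable {k : Type} [Field k]

theorem card_IB (d m e : ℕ) : Fintype.card (IB d m e) =
    d * (e + 2) + (m * (e + 1) + (e + ((e + 1) + (e + 1)))) := by
  simp [IB]

/-- **Theorem B**: irreducibility -/
theorem thmB_prime [IsAlgClosed k] (d m e : ℕ) (hd : 2 ≤ d) (he : 1 ≤ e) :
    ForGeneral (k := k) (2 * d + 3 + m) (d + 1) (fun f => (curveIdeal e f).IsPrime) := by
  classical
  let i₁ : Fin d := ⟨0, by omega⟩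
  have hf := fB_hom (k := k) d m i₁
  have h1 := prime_near (k := k) (τ := Fin (2 * d + 3 + m + 1) × Fin (e + 1))
    (cf k (2 * d + 3 + m) (d + 1) e) (fun _ => d + 1) (fun _ => Nat.succ_pos d)
    (cf_hom _ _ _) (zB k d m e) (zB_hom d m e) (by
      rw [card_IB, Fintype.card_prod, Fintype.card_fin, Fintype.card_fin]
      ring) (fun mm : Mon (2 * d + 3 + m) (d + 1) => coeff mm.1 (fB k d m i₁)) (WB k d m e)
    (WB_ne d m e he)
    (fun a ha hz => ⟨_, zeroB d m e hd he i₁ rfl a ((eval_lin_iff e hf a).mp ha) hz⟩)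
    ((eval_lin_iff e hf _).mpr (fB_WB d m e he i₁))
    (by
      intro y
      obtain ⟨Z, hZ⟩ := surjB d m e hd he i₁ rfl y
      refine ⟨Z, fun j => ?_⟩
      rw [← pull_coeff e hf]
      exact hZ j)
  refine (forGeneral_of_near hf h1).mono fun f hf' h => ?_
  rw [curveIdeal_eq e hf']
  exact h

/-- the zero locus of the general form meets the special linear space outside `λ = 0` -/
theorem thmB_honest [IsAlgClosed k] (d m e : ℕ) (hd : 2 ≤ d) (he : 1 ≤ e) :
    ForGeneral (k := k) (2 * d + 3 + m) (d + 1) (fun f => ∀ a : Fin (2 * d + 3 + m + 1) ×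
      Fin (e + 1) → k, aeval (ptup a) f = 0 → (∀ i, eval a (zB k d m e i) = 0) →
      a (bw d m 0, 0) = 0 → a = 0) := by
  classical
  let i₁ : Fin d := ⟨0, by omega⟩
  have hf := fB_hom (k := k) d m i₁
  let z : Option (IB d m e) → CoeffRing k (2 * d + 3 + m) e := fun o =>
    o.elim (X (bw d m 0, 0)) (zB k d m e)
  have hz : ∀ o, (z o).IsHomogeneous 1 := by
    rintro (_ | i)
    · exact isHomogeneous_X _ _
    · exact zB_hom d m e i
  obtain ⟨E, hE⟩ := pow_le_of_zero (τ := Fin (2 * d + 3 + m + 1) × Fin (e + 1))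
    (Ideal.span (Set.range (lin (cf k (2 * d + 3 + m) (d + 1) e)
      (fun mm : Mon (2 * d + 3 + m) (d + 1) => coeff mm.1 (fB k d m i₁)))) ⊔
      Ideal.span (Set.range z)) (by
    intro a ha
    have h1 : aeval (ptup a) (fB k d m i₁) = 0 := by
      rw [← eval_lin_iff e hf a]
      intro j
      exact ha _ (Ideal.mem_sup_left (Ideal.subset_span (Set.mem_range_self j)))
    have h2 : ∀ i, eval a (zB k d m e i) = 0 := fun i =>
      ha _ (Ideal.mem_sup_right (Ideal.subset_span (Set.mem_range_self (some i))))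
    have h3 : eval a (X (bw d m 0, 0) : CoeffRing k (2 * d + 3 + m) e) = 0 :=
      ha _ (Ideal.mem_sup_right (Ideal.subset_span (Set.mem_range_self none)))
    rw [eval_X] at h3
    have h4 := zeroB d m e hd he i₁ rfl a h1 h2
    rw [h3, zero_smul] at h4
    exact h4)
  obtain ⟨D, hD0, hD⟩ := open_pow_le (cf k (2 * d + 3 + m) (d + 1) e) (fun _ => d + 1)
    (cf_hom _ _ _) z (fun _ => 1) hz E _ hE
  refine forGeneral_of hf D hD0 fun f hf' hDf a ha hza ha0 => ?_
  have h5 := hD _ hDf
  have h6 : ∀ t, eval a (X t : CoeffRing k (2 * d + 3 + m) e) = 0 := by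
    intro t
    have h7 : (X t : CoeffRing k (2 * d + 3 + m) e) ^ E ∈ (mx _ k) ^ E :=
      Ideal.pow_mem_pow (Ideal.subset_span (Set.mem_range_self t)) E
    have h8 : Ideal.span (Set.range (lin (cf k (2 * d + 3 + m) (d + 1) e)
        (fun mm : Mon (2 * d + 3 + m) (d + 1) => coeff mm.1 f))) ⊔
        Ideal.span (Set.range z) ≤ RingHom.ker (eval a) := by
      rw [sup_le_iff, Ideal.span_le, Ideal.span_le]
      constructor
      · rintro _ ⟨j, rfl⟩
        exact (eval_lin_iff e hf' a).mpr ha j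
      · rintro _ ⟨o, rfl⟩
        rcases o with _ | i
        · change eval a (X (bw d m 0, 0)) = 0
          rw [eval_X]
          exact ha0
        · exact hza i
    have h9 := h8 (h5 h7)
    rw [RingHom.mem_ker, map_pow] at h9
    by_contra h10
    exact pow_ne_zero E h10 h9
  ext t
  have := h6 t
  rwa [eval_X] at this

/-- a space of tuples of large dimension contains an honest map -/
theorem exists_honest [IsAlgClosed k] (d m e : ℕ) (he : 1 ≤ e)
    (f : MvPolynomial (Fin (2 * d + 3 + m + 1)) k) (hf : f.IsHomogeneous (d + 1))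
    (hdim : ringKrullDim (CoeffRing k (2 * d + 3 + m) e ⧸ curveIdeal e f) =
      (Fintype.card (IB d m e) + 1 : ℕ))
    (h : ∀ a : Fin (2 * d + 3 + m + 1) × Fin (e + 1) → k, aeval (ptup a) f = 0 →
      (∀ i, eval a (zB k d m e i) = 0) → a (bw d m 0, 0) = 0 → a = 0) :
    ∃ F : Fin (2 * d + 3 + m + 1) → Polynomial k, (∀ i, (F i).natDegree ≤ e) ∧
      (∃ i, (F i).natDegree = e) ∧ (∀ t, ∃ i, (F i).eval t ≠ 0) ∧ aeval F f = 0 := by
  classical
  have h1 : ∃ a : Fin (2 * d + 3 + m + 1) × Fin (e + 1) → k, aeval (ptup a) f = 0 ∧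
      (∀ i, eval a (zB k d m e i) = 0) ∧ a ≠ 0 := by
    by_contra hcon
    push Not at hcon
    obtain ⟨E, hE⟩ := pow_le_of_zero (τ := Fin (2 * d + 3 + m + 1) × Fin (e + 1))
      (Ideal.span (Set.range (lin (cf k (2 * d + 3 + m) (d + 1) e)
        (fun mm : Mon (2 * d + 3 + m) (d + 1) => coeff mm.1 f))) ⊔
        Ideal.span (Set.range (zB k d m e))) (by
      intro a ha
      refine hcon a ?_ ?_
      · rw [← eval_lin_iff e hf a]
        intro j
        exact ha _ (Ideal.mem_sup_left (Ideal.subset_span (Set.mem_range_self j)))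
      · intro i
        exact ha _ (Ideal.mem_sup_right (Ideal.subset_span (Set.mem_range_self i))))
    rw [← curveIdeal_eq e hf] at hE
    have h2 := finite_of_pow_le (curveIdeal e f) (by
      rw [curveIdeal_eq e hf]
      exact isHomogeneous_span _ (fun _ => d + 1) (lin_hom (cf_hom _ _ _) _))
      (zB k d m e) (fun _ => 1) (fun _ => one_pos) (zB_hom d m e) E hE
    have h3 := dim_le_of_integral _ h2.to_isIntegral
    rw [hdim, dim_mvPoly, Nat.card_eq_fintype_card] at h3
    have h4 : Fintype.card (IB d m e) + 1 ≤ Fintype.card (IB d m e) := by exact_mod_cast h3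
    omega
  obtain ⟨a, ha, hza, hne⟩ := h1
  have hl : a (bw d m 0, 0) ≠ 0 := fun h0 => hne (h a ha hza h0)
  obtain ⟨_, _, h3, _, h5⟩ := zB_spec d m e he a hza
  refine ⟨ptup a, ptup_natDegree a, ⟨bw d m 2, ?_⟩, fun t => ⟨bw d m 0, ?_⟩, ha⟩
  · rw [h5, Polynomial.natDegree_mul_C hl, Polynomial.natDegree_X_pow]
  · rw [h3, Polynomial.eval_C]
    exact hl

/-- **Theorem B** -/
theorem thmB [IsAlgClosed k] (n d e : ℕ) (hd : 3 ≤ d) (hn : 2 * d + 1 ≤ n) (he : 1 ≤ e) :
    ForGeneral (k := k) n d (fun f => (curveIdeal e f).IsPrime ∧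
      ringKrullDim (CoeffRing k n e ⧸ curveIdeal e f) = ((n + 1 - d) * e + n : ℕ) ∧
      ∃ F : Fin (n + 1) → Polynomial k, (∀ i, (F i).natDegree ≤ e) ∧
        (∃ i, (F i).natDegree = e) ∧ (∀ t, ∃ i, (F i).eval t ≠ 0) ∧ aeval F f = 0) := by
  obtain ⟨d, rfl⟩ : ∃ d', d = d' + 1 := ⟨d - 1, by omega⟩
  obtain ⟨m, rfl⟩ : ∃ m, n = 2 * d + 3 + m := ⟨n - (2 * d + 3), by omega⟩
  have _ : Infinite k := IsAlgClosed.instInfinite
  have h1 := thmB_prime (k := k) d m e (by omega) he
  have h2 := thmA (k := k) (2 * d + 3 + m) (d + 1) e (by omega) (by omega)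
  have h3 := thmB_honest (k := k) d m e (by omega) he
  refine ((h1.and h2).and h3).mono ?_
  rintro f hf ⟨⟨hp, hdim⟩, hh⟩
  have hmin : curveIdeal e f ∈ (curveIdeal e f).minimalPrimes := by
    rw [Ideal.minimalPrimes_eq_subsingleton_self]
    exact rfl
  have h4 := hdim _ hmin
  refine ⟨hp, h4, exists_honest d m e he f hf ?_ hh⟩
  rw [h4, card_IB]
  congr 1
  have : 2 * d + 3 + m + 1 - (d + 1) = d + m + 3 := by omega
  rw [this]
  ring

end Pool.Agent.Helper30.RC
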