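import Pool.Agent.Helper49.EJ.Main

/-!
The union bound: random families of balls touching the central ball do not contain large kissing
arrangements.
-/

set_option autoImplicit false

open MeasureTheory Set
open scoped ENNReal RealInnerProductSpace

namespace Pool.Agent.Helper30.RC

open Pool.Agent.Helper47.KP Pool.Agent.Helper49.EJ

variable {d n : ℕ}

/-- Every family of `k` members of the random family with law `P` has a density at most `K ^ k`
with respect to `k` independent uniform points. -/
def SubDensity (K : ℝ) (P : Measure (Fin n → Sph d)) : Prop :=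
  ∀ (k : ℕ) (f : Fin k ↪ Fin n) (B : Set (Fin k → Sph d)), MeasurableSet B →
    P.real {x | (fun i => x (f i)) ∈ B} ≤ K ^ k * (Measure.pi fun _ : Fin k => sig d).real B

/-- The family `x` has `k` members which form a kissing arrangement. -/
def HasKiss (k : ℕ) (x : Fin n → Sph d) : Prop :=
  ∃ T : Finset (Fin n), k ≤ T.card ∧ ∀ i ∈ T, ∀ j ∈ T, i ≠ j →
    ⟪(x i : EE d), (x j : EE d)⟫ ≤ 1 / 2

lemma measurableSet_Kiss (k : ℕ) : MeasurableSet (Kiss d k) := by
  unfold Kiss
  simp only [ofPred_forall]
  refine MeasurableSet.iInter fun i => MeasurableSet.iInter fun j => MeasurableSet.iInter fun _ => ?_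
  have h1 : Measurable (fun x : Fin k → Sph d => (x i, x j)) :=
    (measurable_pi_apply i).prodMk (measurable_pi_apply j)
  have h2 : Measurable (fun p : Sph d × Sph d => ⟪(p.1 : EE d), (p.2 : EE d)⟫) :=
    continuous_inner2.measurable
  exact measurableSet_le (h2.comp h1) measurable_const

/-- First moment. -/
lemma first_moment [NeZero d] {K : ℝ} (P : Measure (Fin n → Sph d)) [IsFiniteMeasure P]
    (hP : SubDensity K P) (k : ℕ) :
    P.real {x | HasKiss k x} ≤
      n.choose k * (K ^ k * (Measure.pi fun _ : Fin k => sig d).real (Kiss d k)) := by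
  classical
  rcases lt_or_ge n k with hNn | hNn
  · have he : {x : Fin n → Sph d | HasKiss k x} = ∅ := by
      ext x
      simp only [mem_ofPred_eq, mem_empty_iff_false, iff_false]
      rintro ⟨T, hT, -⟩
      have h1 := T.card_le_univ
      rw [Fintype.card_fin] at h1
      omega
    rw [he, measureReal_empty, Nat.choose_eq_zero_of_lt hNn]
    simp
  have hne : Nonempty (Fin k ↪ Fin n) := ⟨Fin.castLEEmb hNn⟩
  set U : Finset (Finset (Fin n)) := Finset.powersetCard k Finset.univ with hU
  have hf : ∀ T : Finset (Fin n), T ∈ U → ∃ f : Fin k ↪ Fin n, ∀ i, f i ∈ T := by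
    intro T hT
    have hc : T.card = k := (Finset.mem_powersetCard.1 hT).2
    exact ⟨(T.orderEmbOfFin hc).toEmbedding, fun i => T.orderEmbOfFin_mem hc i⟩
  choose! f hf using hf
  have hsub : {x : Fin n → Sph d | HasKiss k x} ⊆
      ⋃ T ∈ U, {x | (fun i => x (f T i)) ∈ Kiss d k} := by
    rintro x ⟨T, hT, hx⟩
    obtain ⟨T', hT', hc⟩ := Finset.exists_subset_card_eq hT
    have hU' : T' ∈ U := Finset.mem_powersetCard.2 ⟨Finset.subset_univ _, hc⟩
    refine mem_iUnion₂.2 ⟨T', hU', fun i j hij => ?_⟩
    exact hx _ (hT' (hf T' hU' i)) _ (hT' (hf T' hU' j)) (fun e => hij ((f T').injective e))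
  calc P.real {x | HasKiss k x}
      ≤ P.real (⋃ T ∈ U, {x | (fun i => x (f T i)) ∈ Kiss d k}) :=
        measureReal_mono hsub (measure_ne_top _ _)
    _ ≤ ∑ T ∈ U, P.real {x | (fun i => x (f T i)) ∈ Kiss d k} :=
        measureReal_biUnion_finset_le _ _
    _ ≤ ∑ _T ∈ U, K ^ k * (Measure.pi fun _ : Fin k => sig d).real (Kiss d k) :=
        Finset.sum_le_sum fun T _ => hP k (f T) _ (measurableSet_Kiss k)
    _ = _ := by
        rw [Finset.sum_const, hU, Finset.card_powersetCard, Finset.card_univ, Fintype.card_fin,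
          nsmul_eq_mul]

/-- Independent uniform points. -/
lemma subDensity_pi [NeZero d] : SubDensity 1 (Measure.pi fun _ : Fin n => sig d) := by
  intro k f B hB
  rw [one_pow, one_mul]
  have h := Measure.map_infinitePi_infinitePi_of_inj (P := fun _ : Fin n => sig d) f.injective
  rw [Measure.infinitePi_eq_pi, Measure.infinitePi_eq_pi] at h
  have hm : Measurable (fun (x : Fin n → Sph d) (i : Fin k) => x (f i)) :=
    measurable_pi_iff.2 fun i => measurable_pi_apply (f i)
  refine le_of_eq ?_
  rw [← h, measureReal_def, measureReal_def, Measure.map_apply hm hB]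
  rfl

lemma choose_le (n : ℕ) {k : ℕ} (hk : 1 ≤ k) :
    (n.choose k : ℝ) ≤ (Real.exp 1 * n / k) ^ k := by
  have hk0 : (0 : ℝ) < k := by exact_mod_cast hk
  have h1 : (n.choose k : ℝ) ≤ (n : ℝ) ^ k / (k.factorial : ℝ) := Nat.choose_le_pow_div k n
  have h2 : (k : ℝ) ^ k / (k.factorial : ℝ) ≤ Real.exp k :=
    Real.pow_div_factorial_le_exp k hk0.le k
  have h3 : Real.exp k = Real.exp 1 ^ k := by rw [← Real.exp_nat_mul, mul_one]
  rw [h3] at h2
  have hf : (0 : ℝ) < k.factorial := by exact_mod_cast k.factorial_pos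
  calc (n.choose k : ℝ) ≤ (n : ℝ) ^ k / (k.factorial : ℝ) := h1
    _ = (n : ℝ) ^ k / (k : ℝ) ^ k * ((k : ℝ) ^ k / (k.factorial : ℝ)) := by
        field_simp
    _ ≤ (n : ℝ) ^ k / (k : ℝ) ^ k * Real.exp 1 ^ k := by gcongr
    _ = (Real.exp 1 * n / k) ^ k := by
        rw [div_pow, mul_pow]
        ring

/-- A random family of at most `2 ^ (s d)` balls, all whose subfamilies of `k` members have a
density at most `2 ^ (η d k)`, does not contain a kissing arrangement of more than
`C d ^ (3/2) (2 / √3) ^ d` balls. -/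
theorem upper {s η : ℝ} (h : s + η < Real.logb 2 (2 / Real.sqrt 3) + gst) :
    ∃ C δ : ℝ, 0 < C ∧ 0 < δ ∧ ∃ d₀ : ℕ, ∀ d : ℕ, d₀ ≤ d → ∀ [NeZero d], ∀ n : ℕ,
      (n : ℝ) ≤ 2 ^ (s * d) → ∀ (P : Measure (Fin n → Sph d)) [IsFiniteMeasure P],
      SubDensity (2 ^ (η * d)) P → ∀ k : ℕ, C * (d : ℝ) ^ (3 / 2 : ℝ) * (2 / Real.sqrt 3) ^ d ≤ k →
      P.real {x | HasKiss k x} ≤ 2 ^ (-(δ * d * k)) := by
  have hl2 : 0 < Real.log 2 := Real.log_pos (by norm_num)
  set cW : ℝ := Real.logb 2 (2 / Real.sqrt 3) with hcW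
  set g : ℝ := ((s + η - cW) + gst) / 2 with hg
  have hg1 : g < gst := by rw [hg]; linarith
  set δ : ℝ := (g - (s + η - cW)) / 2 with hδ
  have hδ0 : 0 < δ := by rw [hδ, hg]; linarith
  obtain ⟨C, hC, d₁, hmain⟩ := main_bound hg1
  obtain ⟨d₂, hd₂⟩ := exists_nat_ge (1 / (δ * Real.log 2))
  refine ⟨max C 1, δ, lt_max_of_lt_left hC, hδ0, max (max d₁ d₂) 4,
    fun d hd _ n hn P _ hP k hk => ?_⟩
  have hd1 : d₁ ≤ d := (le_max_left _ _).trans ((le_max_left _ _).trans hd)
  have hd2 : d₂ ≤ d := (le_max_right _ _).trans ((le_max_left _ _).trans hd)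
  have hd4 : 4 ≤ d := (le_max_right _ _).trans hd
  have hd0 : (0 : ℝ) < d := by exact_mod_cast (by omega : 0 < d)
  have hd1' : (1 : ℝ) ≤ d := by exact_mod_cast (by omega : 1 ≤ d)
  have hs3 : 0 < Real.sqrt 3 := Real.sqrt_pos.2 (by norm_num)
  have hs32 : Real.sqrt 3 ≤ 2 := by
    rw [Real.sqrt_le_left (by norm_num)]; norm_num
  have hbase : (0 : ℝ) < 2 / Real.sqrt 3 := by positivity
  have hpow : (0 : ℝ) < (2 / Real.sqrt 3) ^ d := pow_pos hbase d
  have hd32 : (1 : ℝ) ≤ (d : ℝ) ^ (3 / 2 : ℝ) := Real.one_le_rpow hd1' (by norm_num)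
  have hkC : C * (d : ℝ) ^ (3 / 2 : ℝ) * (2 / Real.sqrt 3) ^ d ≤ k := by
    refine le_trans ?_ hk
    have := le_max_left C 1
    gcongr
  have hk1 : (2 / Real.sqrt 3) ^ d ≤ k := by
    refine le_trans ?_ hk
    have h1 := le_max_right C 1
    have h2 : 1 * 1 ≤ max C 1 * (d : ℝ) ^ (3 / 2 : ℝ) := mul_le_mul h1 hd32 zero_le_one
      (zero_le_one.trans h1)
    calc (2 / Real.sqrt 3) ^ d = 1 * 1 * (2 / Real.sqrt 3) ^ d := by ring
      _ ≤ _ := mul_le_mul_of_nonneg_right h2 hpow.le
  have hk0 : (0 : ℝ) < k := lt_of_lt_of_le hpow hk1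
  have hkN : 1 ≤ k := by exact_mod_cast hk0
  refine (first_moment P hP k).trans ?_
  rcases Nat.eq_zero_or_pos n with hn0 | hn0
  · subst hn0
    rw [Nat.choose_eq_zero_of_lt (by omega)]
    simp only [Nat.cast_zero, zero_mul]
    exact (Real.rpow_pos_of_pos (by norm_num) _).le
  have hn0' : (0 : ℝ) < n := by exact_mod_cast hn0
  have hm := hmain d hd1 k hkC
  have hKpos : (0 : ℝ) < 2 ^ (η * d) := Real.rpow_pos_of_pos (by norm_num) _
  calc (n.choose k : ℝ) * ((2 ^ (η * d)) ^ k * (Measure.pi fun _ : Fin k => sig d).real (Kiss d k))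
      ≤ (Real.exp 1 * n / k) ^ k * ((2 ^ (η * d)) ^ k * 2 ^ (-(g * d * k))) := by
        gcongr
        exact choose_le n hkN
    _ ≤ 2 ^ (-(δ * d * k)) := by
        have hx : 0 < (Real.exp 1 * n / k) ^ k * ((2 ^ (η * d)) ^ k * 2 ^ (-(g * d * k))) := by
          have := Real.exp_pos 1
          positivity
        rw [← Real.log_le_log_iff hx (Real.rpow_pos_of_pos (by norm_num) _)]
        have he := Real.exp_pos 1
        rw [Real.log_mul (by positivity) (by positivity), Real.log_mul (by positivity)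
          (by positivity), Real.log_pow, Real.log_pow, Real.log_div (by positivity) hk0.ne',
          Real.log_mul he.ne' hn0'.ne', Real.log_exp, Real.log_rpow (by norm_num),
          Real.log_rpow (by norm_num), Real.log_rpow (by norm_num)]
        have h1 : Real.log n ≤ s * d * Real.log 2 := by
          have := Real.log_le_log hn0' hn
          rwa [Real.log_rpow (by norm_num)] at this
        have h2 : cW * d * Real.log 2 ≤ Real.log k := by
          have h3 := Real.log_le_log hpow hk1
          rw [Real.log_pow] at h3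
          have h4 : cW * Real.log 2 = Real.log (2 / Real.sqrt 3) := by
            rw [hcW, Real.logb]
            field_simp
          calc cW * d * Real.log 2 = d * (cW * Real.log 2) := by ring
            _ = d * Real.log (2 / Real.sqrt 3) := by rw [h4]
            _ ≤ _ := h3
        have h5 : 1 ≤ δ * d * Real.log 2 := by
          have h6 : 1 / (δ * Real.log 2) ≤ d := hd₂.trans (by exact_mod_cast hd2)
          rw [div_le_iff₀ (by positivity)] at h6
          linarith
        have h7 : 1 + Real.log n - Real.log k + η * d * Real.log 2 - g * d * Real.log 2 ≤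
            -(δ * d * Real.log 2) := by
          have h8 : g = (s + η - cW) + 2 * δ := by rw [hδ]; ring
          have h9 : 1 + Real.log n - Real.log k + η * d * Real.log 2 - g * d * Real.log 2 ≤
              1 + s * d * Real.log 2 - cW * d * Real.log 2 + η * d * Real.log 2 -
                g * d * Real.log 2 := by linarith
          refine h9.trans ?_
          rw [h8]
          have : 1 + s * d * Real.log 2 - cW * d * Real.log 2 + η * d * Real.log 2 -
              (s + η - cW + 2 * δ) * d * Real.log 2 = 1 - 2 * (δ * d * Real.log 2) := by ring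
          rw [this]
          linarith
        have h10 := mul_le_mul_of_nonneg_left h7 hk0.le
        calc (k : ℝ) * (1 + Real.log n - Real.log k) +
            (k * (η * d * Real.log 2) + -(g * d * k) * Real.log 2)
            = k * (1 + Real.log n - Real.log k + η * d * Real.log 2 - g * d * Real.log 2) := by
              ring
          _ ≤ k * -(δ * d * Real.log 2) := h10
          _ = -(δ * d * k) * Real.log 2 := by ring

end Pool.Agent.Helper30.RC
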